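import Mathlib

/-!
# RadicalLehmer, version 6 (MP_187c26_nt): every embedding occurs equally often

PROOF of `prod_emb`. `e s : Fin n` with `σ (e s) = (t s).comp (algebraMap F E)`. The fibre `S_i = {s | e s = i}` has at most `k` elements: for `s ∈ S_i` the row `(t s (z c))_c = ∑_j (t s (u j)) • (σ i (f c j))_c` is in the span of the `k` vectors `(σ i (f c j))_c`, `j : Fin k`, and the rows are independent
(`det ≠ 0`; `Matrix.linearIndependent_rows_iff_isUnit`). `∑_i #S_i = n k`, so `#S_i = k` for all `i`. The product over the fibres: `∏_s t s (g) = ∏_i (σ i g)^(#S_i)`.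
PROOF of `prod_norm`. Let `φ : M →+* ℂ`; `i ↦ φ ∘ σ i` is a bijection onto the embeddings of `F` in `ℂ` (injective, same cardinality `[F : ℚ]`), so `φ (∏ σ i g) = ∏_τ τ g = norm g` (`Algebra.norm_eq_prod_embeddings`), and `φ` is injective.
-/

set_option autoImplicit false

namespace Pool.Agent.H33.V6

private theorem fib_le {M : Type} [Field M] {m k : ℕ} {A : Matrix (Fin m) (Fin m) M}
    (hA : A.det ≠ 0) (S : Finset (Fin m)) (w : Fin k → (Fin m → M))
    (h : ∀ s ∈ S, A s ∈ Submodule.span M (Set.range w)) : S.card ≤ k := by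
  have h1 : LinearIndependent M (fun s : Fin m => A s) :=
    Matrix.linearIndependent_rows_iff_isUnit.2 ((Matrix.isUnit_iff_isUnit_det A).2 hA.isUnit)
  have h2 : LinearIndependent M (fun s : S => A s.1) := h1.comp _ Subtype.val_injective
  have h3 := finrank_span_eq_card h2
  have h4 : Submodule.span M (Set.range fun s : S => A s.1) ≤ Submodule.span M (Set.range w) := by
    rw [Submodule.span_le]
    rintro _ ⟨s, rfl⟩
    exact h s.1 s.2
  have h5 := Submodule.finrank_mono h4
  have h6 := finrank_range_le_card (R := M) w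
  rw [Fintype.card_fin] at h6
  rw [h3, Fintype.card_coe] at h5
  exact h5.trans h6

theorem prod_emb {F E M : Type} [Field F] [Field E] [Algebra F E] [Field M] (n k : ℕ)
    (σ : Fin n ≃ (F →+* M)) (u : Fin k → E) (z : Fin (n * k) → E)
    (hz : ∀ c, ∃ f : Fin k → F, z c = ∑ j, f j • u j) (t : Fin (n * k) → (E →+* M))
    (hdet : (Matrix.of fun i j => t i (z j)).det ≠ 0) (g : F) :
    ∏ s, t s (algebraMap F E g) = (∏ i, σ i g) ^ k := by
  choose f hf using hz
  obtain ⟨e, he⟩ : ∃ e : Fin (n * k) → Fin n, ∀ s, σ (e s) = (t s).comp (algebraMap F E) :=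
    ⟨fun s => σ.symm ((t s).comp (algebraMap F E)), fun s => σ.apply_symm_apply _⟩
  have hle : ∀ i : Fin n, (Finset.univ.filter fun s => e s = i).card ≤ k := by
    intro i
    refine fib_le hdet _ (fun j : Fin k => fun c => σ i (f c j)) fun s hs => ?_
    have hs' : e s = i := (Finset.mem_filter.1 hs).2
    have h1 : (Matrix.of fun i j => t i (z j)) s =
        ∑ j, t s (u j) • (fun c => σ i (f c j) : Fin (n * k) → M) := by
      funext c
      rw [Finset.sum_apply]
      show t s (z c) = ∑ j, t s (u j) * σ i (f c j)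
      rw [hf c, map_sum]
      refine Finset.sum_congr rfl fun j _ => ?_
      rw [← hs', he s, Algebra.smul_def, map_mul, mul_comm]
      rfl
    rw [h1]
    exact Submodule.sum_mem _ fun j _ =>
      Submodule.smul_mem _ _ (Submodule.subset_span ⟨j, rfl⟩)
  have hsum : ∑ i : Fin n, (Finset.univ.filter fun s => e s = i).card = ∑ i : Fin n, k := by
    rw [← Finset.card_eq_sum_card_fiberwise (f := e) (s := Finset.univ) (t := Finset.univ)
      (fun _ _ => Finset.mem_coe.2 (Finset.mem_univ _))]
    simp
  have heq : ∀ i : Fin n, (Finset.univ.filter fun s => e s = i).card = k := fun i =>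
    (Finset.sum_eq_sum_iff_of_le fun i _ => hle i).1 hsum i (Finset.mem_univ i)
  rw [← Finset.prod_fiberwise Finset.univ e, ← Finset.prod_pow]
  refine Finset.prod_congr rfl fun i _ => ?_
  rw [Finset.prod_congr rfl (g := fun _ => σ i g), Finset.prod_const, heq i]
  intro s hs
  rw [← (Finset.mem_filter.1 hs).2, he s]
  rfl

theorem prod_norm {F M : Type} [Field F] [NumberField F] [Field M] [NumberField M] (n : ℕ)
    (σ : Fin n ≃ (F →+* M)) (hn : Module.finrank ℚ F = n) (g : F) :
    ∏ i, σ i g = algebraMap ℚ M (Algebra.norm ℚ g) := by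
  obtain ⟨φ⟩ : Nonempty (M →+* ℂ) := inferInstance
  apply φ.injective
  have hinj : Function.Injective fun i : Fin n => φ.comp (σ i) := by
    intro i i' h
    apply σ.injective
    ext x
    exact φ.injective (RingHom.congr_fun h x)
  have hcard : Fintype.card (Fin n) = Fintype.card (F →+* ℂ) := by
    rw [Fintype.card_fin, NumberField.Embeddings.card, hn]
  have hbij : Function.Bijective fun i : Fin n => φ.comp (σ i) :=
    (Fintype.bijective_iff_injective_and_card _).2 ⟨hinj, hcard⟩
  have h1 : φ (∏ i, σ i g) = ∏ τ : F →+* ℂ, τ g := by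
    rw [map_prod]
    exact Fintype.prod_bijective _ hbij _ _ fun i => rfl
  have h2 : ∏ τ : F →+* ℂ, τ g = ∏ τ : F →ₐ[ℚ] ℂ, τ g :=
    Fintype.prod_equiv (RingHom.equivRatAlgHom F ℂ) _ _ fun τ => rfl
  rw [h1, h2, ← Algebra.norm_eq_prod_embeddings ℚ ℂ g]
  simp

end Pool.Agent.H33.V6
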