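import Pool.Agent.H33.V6.Df

/-!
# RadicalLehmer, version 6 (MP_187c26_nt): the norm of the conductor

PROOF of `cond_main`. `F := A⟮x⟯`, `xi : 𝓞 F` the integer `x` (`x^m = b`), `𝔣 := conductor (𝓞 A) xi` (Mathlib `RingTheory/Conductor.lean`:
`𝔣 = {f | ∀ y, f * y ∈ Algebra.adjoin (𝓞 A) {xi}}`), so the elements of `𝔣` are in `Cd A x` (`Algebra.adjoin_singleton_eq_range_aeval`; coefficients mapped to `A`).
`conductor_mul_differentIdeal` (`Mathlib/RingTheory/DedekindDomain/Different.lean`) for `𝓞 A`, `A`, `F`, `𝓞 F` and `xi` (`A(x) = F`): `𝔣 * differentIdeal (𝓞 A) (𝓞 F) = span {aeval xi (minpoly (𝓞 A) xi).derivative}`.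
The minimal polynomial of `xi` over `𝓞 A` is `X^m - b` (monic, degree `m = [F : A]`: `hx.deg`), so the generator is `m xi^(m - 1)`. Take `Ideal.absNorm` (multiplicative, `Ideal.absNorm_span_singleton`): `absNorm 𝔣 * absNorm (differentIdeal (𝓞 A) (𝓞 F)) = |Norm_(F/ℚ) (m x^(m-1))| = m^(em) |Norm x|^(m-1)`,
`e := [A : ℚ]`, `|Norm_(F/ℚ) x|^m = |Norm b| = b^(em)`, so `|Norm x| = b^e`. `NumberField.natAbs_discr_eq_absNorm_differentIdeal_mul_natAbs_discr_pow` (`Mathlib/NumberTheory/NumberField/Discriminant/Different.lean`): `|discr F| = absNorm (differentIdeal (𝓞 A) (𝓞 F)) * |discr A|^m`; `hx.disc`. So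
`log (absNorm 𝔣) ≤ e m log m + e (m - 1) log b - (dA F - m dA A) ≤ e m (2 ι + log b)`; in particular `𝔣 ≠ 0` (`absNorm ≠ 0`: the product with the different is not `0`), so it has an element `f ≠ 0`.
`h := ` the class number (`ClassGroup (𝓞 F)` is finite): `(ClassGroup.mk0 ⟨𝔣, _⟩)^h = 1`, so `𝔣^h` is principal (`ClassGroup.mk0_eq_one_iff`), `𝔣^h = span {f₀}`; `|norm f₀| = absNorm (𝔣^h) = (absNorm 𝔣)^h` (`Ideal.absNorm_span_singleton`, `Algebra.coe_norm_int`/`RingOfIntegers.coe_norm`...).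
Last statement: if `v (t f) ≤ B` for all `f ∈ 𝔣` then `v (t g) ≤ B^k` for all `g ∈ 𝔣^k`, by induction on `k` (`pow_succ`, `Submodule.mul_induction_on`; `v` nonarchimedean: `FinitePlace.add_le`; `k = 0`: `v ≤ 1` on integers). `f₀ ∈ 𝔣^h`.
-/

set_option autoImplicit false

open Polynomial NumberField IntermediateField

namespace Pool.Agent.H33.V6

open Pool.Agent.H36.LE Pool.Agent.H36.LF Pool.Agent.H36.LH

/-- The minimal polynomial over the integers. -/
private theorem cn_minpoly {A F : Type} [Field A] [NumberField A] [Field F] [NumberField F] [Algebra A F]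
    {b m : ℕ} (hm : 1 ≤ m) (xi : 𝓞 F) (hx : xi ^ m = (b : 𝓞 F)) (hdeg : Module.finrank A F = m)
    (htop : Algebra.adjoin A ({(xi : F)} : Set F) = ⊤) :
    minpoly (𝓞 A) xi = X ^ m - C (b : 𝓞 A) := by
  have hi : IsIntegral A (xi : F) := IsIntegral.of_finite A _
  have hF : A⟮(xi : F)⟯ = ⊤ := by
    rw [← IntermediateField.toSubalgebra_inj, IntermediateField.top_toSubalgebra, _root_.eq_top_iff, ← htop]
    exact IntermediateField.algebra_adjoin_le_adjoin A _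
  have hd : (minpoly A (xi : F)).natDegree = m := by
    rw [← adjoin.finrank hi, hF, finrank_top', hdeg]
  have hxF : (xi : F) ^ m = (b : F) := by
    have h1 := congrArg (algebraMap (𝓞 F) F) hx
    rw [map_pow, map_natCast] at h1
    exact h1
  have h1 : minpoly A (xi : F) = X ^ m - C (b : A) := by
    have h2 : minpoly A (xi : F) ∣ X ^ m - C (b : A) := by
      refine minpoly.dvd _ _ ?_
      rw [map_sub, map_pow, aeval_X, aeval_C, map_natCast, hxF, sub_self]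
    refine (eq_of_monic_of_dvd_of_natDegree_le (minpoly.monic hi) (monic_X_pow_sub_C _ (by omega)) h2 ?_).symm
    rw [natDegree_X_pow_sub_C, hd]
  have h3 : minpoly A (algebraMap (𝓞 F) F xi) = (minpoly (𝓞 A) xi).map (algebraMap (𝓞 A) A) :=
    minpoly.isIntegrallyClosed_eq_field_fractions A F (Algebra.IsIntegral.isIntegral xi)
  have h4 : (minpoly (𝓞 A) xi).map (algebraMap (𝓞 A) A) =
      (X ^ m - C (b : 𝓞 A)).map (algebraMap (𝓞 A) A) := by
    rw [← h3]
    refine Eq.trans h1 ?_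
    simp only [Polynomial.map_sub, Polynomial.map_pow, map_X, map_natCast]
    rw [Polynomial.map_natCast]
  exact Polynomial.map_injective _ (RingOfIntegers.coe_injective) h4

/-- The norm of the conductor. -/
private theorem cn_norm {A F : Type} [Field A] [NumberField A] [Field F] [NumberField F] [Algebra A F]
    {b m : ℕ} (hb : 1 ≤ b) (hm : 1 ≤ m) (xi : 𝓞 F) (hx : xi ^ m = (b : 𝓞 F))
    (hdeg : Module.finrank A F = m) (htop : Algebra.adjoin A ({(xi : F)} : Set F) = ⊤) :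
    Ideal.absNorm (conductor (𝓞 A) xi) ≠ 0 ∧
      Real.log (Ideal.absNorm (conductor (𝓞 A) xi)) + (dA F - m * dA A) =
        Module.finrank ℚ A * (m * Real.log m + (m - 1 : ℕ) * Real.log b) := by
  have hprod := conductor_mul_differentIdeal (𝓞 A) A F xi htop
  rw [cn_minpoly hm xi hx hdeg htop] at hprod
  have hder : aeval xi (derivative (X ^ m - C (b : 𝓞 A))) = (m : 𝓞 F) * xi ^ (m - 1) := by
    rw [derivative_sub, derivative_X_pow, derivative_C, sub_zero, map_mul, map_pow, aeval_X, aeval_C,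
      map_natCast]
  rw [hder] at hprod
  have h1 := congrArg Ideal.absNorm hprod
  rw [map_mul, Ideal.absNorm_span_singleton, map_mul, map_pow, Int.natAbs_mul, Int.natAbs_pow] at h1
  have hFQ : Module.finrank ℤ (𝓞 F) = Module.finrank ℚ A * m := by
    rw [RingOfIntegers.rank, ← hdeg, Module.finrank_mul_finrank]
  have hnm : ((Algebra.norm ℤ) ((m : ℕ) : 𝓞 F)).natAbs = m ^ (Module.finrank ℚ A * m) := by
    have h2 := Algebra.norm_algebraMap (R := ℤ) (S := 𝓞 F) (m : ℤ)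
    rw [map_natCast, hFQ] at h2
    rw [h2, Int.natAbs_pow, Int.natAbs_natCast]
  have hnx : ((Algebra.norm ℤ) xi).natAbs = b ^ Module.finrank ℚ A := by
    have h2 := Algebra.norm_algebraMap (R := ℤ) (S := 𝓞 F) (b : ℤ)
    rw [map_natCast, hFQ, ← hx, map_pow] at h2
    have h3 := congrArg Int.natAbs h2
    rw [Int.natAbs_pow, Int.natAbs_pow, Int.natAbs_natCast, pow_mul] at h3
    exact Nat.pow_left_injective (by omega : m ≠ 0) h3
  rw [hnm, hnx] at h1
  have hne : Ideal.absNorm (conductor (𝓞 A) xi) * Ideal.absNorm (differentIdeal (𝓞 A) (𝓞 F)) ≠ 0 := by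
    rw [h1]
    positivity
  have hc0 : Ideal.absNorm (conductor (𝓞 A) xi) ≠ 0 := left_ne_zero_of_mul hne
  have hD0 : Ideal.absNorm (differentIdeal (𝓞 A) (𝓞 F)) ≠ 0 := right_ne_zero_of_mul hne
  refine ⟨hc0, ?_⟩
  have h2 := congrArg (fun n : ℕ => Real.log (n : ℝ)) h1
  simp only [Nat.cast_mul, Nat.cast_pow] at h2
  have hcR : (Ideal.absNorm (conductor (𝓞 A) xi) : ℝ) ≠ 0 := by exact_mod_cast hc0
  have hDR : (Ideal.absNorm (differentIdeal (𝓞 A) (𝓞 F)) : ℝ) ≠ 0 := by exact_mod_cast hD0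
  have hmR : (m : ℝ) ≠ 0 := by exact_mod_cast (by omega : m ≠ 0)
  have hbR : (b : ℝ) ≠ 0 := by exact_mod_cast (by omega : b ≠ 0)
  rw [Real.log_mul hcR hDR, Real.log_mul (pow_ne_zero _ hmR) (pow_ne_zero _ (pow_ne_zero _ hbR)), Real.log_pow,
    Real.log_pow, Real.log_pow] at h2
  have h3 := NumberField.natAbs_discr_eq_absNorm_differentIdeal_mul_natAbs_discr_pow A (𝓞 A) F (𝓞 F)
  have h4 := congrArg (fun n : ℕ => Real.log (n : ℝ)) h3
  simp only [Nat.cast_mul, Nat.cast_pow, Nat.cast_natAbs, Int.cast_abs] at h4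
  have hdiscA : |(discr A : ℝ)| ≠ 0 := by
    rw [abs_ne_zero]
    exact_mod_cast discr_ne_zero A
  rw [Real.log_mul hDR (pow_ne_zero _ hdiscA), Real.log_pow, hdeg] at h4
  unfold dA
  push_cast at h2
  linarith

/-- The elements of the conductor. -/
private theorem cn_mem {A E : Type} [Field A] [NumberField A] [Field E] [NumberField E] [Algebra A E]
    {x : E} (xi : 𝓞 A⟮x⟯) (hxi : ((xi : A⟮x⟯) : E) = x) (f : 𝓞 A⟮x⟯) (hf : f ∈ conductor (𝓞 A) xi) :
    ((f : A⟮x⟯) : E) ∈ Cd A x := by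
  refine ⟨(f : A⟮x⟯).2, fun y hy hyi => ?_⟩
  have hyi' : IsIntegral ℤ (⟨y, hy⟩ : A⟮x⟯) :=
    (isIntegral_algHom_iff (A⟮x⟯.val.restrictScalars ℤ) A⟮x⟯.val.injective).1 hyi
  obtain ⟨y', hy'⟩ : ∃ y' : 𝓞 A⟮x⟯, ((y' : A⟮x⟯) : E) = y := ⟨⟨⟨y, hy⟩, hyi'⟩, rfl⟩
  have h1 := mem_conductor_iff.1 hf y'
  rw [Algebra.adjoin_singleton_eq_range_aeval] at h1
  obtain ⟨v, hv⟩ := h1
  refine ⟨v.map (algebraMap (𝓞 A) A), fun i => ?_, ?_⟩
  · rw [coeff_map]
    exact RingOfIntegers.isIntegral_coe _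
  · have h2 : aeval xi v = f * y' := hv
    have h3 := congrArg (fun z : 𝓞 A⟮x⟯ => ((z : A⟮x⟯) : E)) h2
    have h4 : (((aeval xi v : 𝓞 A⟮x⟯) : A⟮x⟯) : E) = aeval x (v.map (algebraMap (𝓞 A) A)) := by
      obtain ⟨φ, hφ⟩ : ∃ φ : 𝓞 A⟮x⟯ →+* E, φ = (algebraMap A⟮x⟯ E).comp (algebraMap (𝓞 A⟮x⟯) A⟮x⟯) := ⟨_, rfl⟩
      have h5 : φ (aeval xi v) = (((aeval xi v : 𝓞 A⟮x⟯) : A⟮x⟯) : E) := by
        rw [hφ]
        rfl
      have h6 : φ xi = x := by
        rw [hφ]
        exact hxi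
      rw [← h5, aeval_def, hom_eval₂, h6, aeval_def, eval₂_map]
      congr 1
      rw [hφ]
      ext a
      rfl
    rw [← h4, h3, ← hy']
    push_cast
    rfl

private theorem cn_int {M : Type} [Field M] [NumberField M] (v : FinitePlace M) {z : M}
    (hz : IsIntegral ℤ z) : v z ≤ 1 := by
  have h2 := FinitePlace.norm_le_one M v.maximalIdeal (⟨z, hz⟩ : 𝓞 M)
  rw [FinitePlace.norm_embedding_eq] at h2
  exact h2

private theorem cn_pow {F M : Type} [Field F] [NumberField F] [Field M] [NumberField M] (t : F →+* M)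
    (v : FinitePlace M) (B : ℝ) (hB : 0 ≤ B) (I : Ideal (𝓞 F)) (hI : ∀ f ∈ I, v (t (f : F)) ≤ B) (k : ℕ) :
    ∀ g ∈ I ^ k, v (t (g : F)) ≤ B ^ k := by
  induction k with
  | zero =>
    intro g _
    rw [pow_zero]
    exact cn_int v ((RingOfIntegers.isIntegral_coe g).map t.toIntAlgHom)
  | succ k ih =>
    intro g hg
    rw [pow_succ] at hg
    induction hg using Submodule.mul_induction_on' with
    | mem_mul_mem a ha b hb =>
      have h1 : t ((a * b : 𝓞 F) : F) = t (a : F) * t (b : F) := by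
        rw [← map_mul]
        rfl
      rw [h1, map_mul, pow_succ]
      exact mul_le_mul (ih a ha) (hI b hb) (apply_nonneg v _) (pow_nonneg hB k)
    | add a _ b _ h2 h3 =>
      have h1 : t ((a + b : 𝓞 F) : F) = t (a : F) + t (b : F) := by
        rw [← map_add]
        rfl
      rw [h1]
      exact (FinitePlace.add_le v _ _).trans (max_le h2 h3)

theorem cond_main {A E : Type} [Field A] [NumberField A] [Field E] [NumberField E] [Algebra A E]
    {b m d : ℕ} {ι : ℝ} {x : E} (hx : RdA A b m d ι x) :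
    (∃ f ∈ Cd A x, f ≠ 0) ∧ ∃ (h : ℕ) (f₀ : A⟮x⟯), 1 ≤ h ∧ f₀ ≠ 0 ∧ IsIntegral ℤ f₀ ∧
      Real.log |((Algebra.norm ℚ f₀ : ℚ) : ℝ)| ≤
        h * (Module.finrank ℚ A * m * (2 * ι + Real.log b)) ∧
      ∀ (M : Type) [Field M] [NumberField M] (t : E →+* M) (v : FinitePlace M) (B : ℝ), 0 ≤ B →
        (∀ f ∈ Cd A x, v (t f) ≤ B) → v (t (f₀ : E)) ≤ B ^ h := by
  classical
  obtain ⟨hb, hm, hpow, hdeg, -, hdisc⟩ := hx
  have hxint : IsIntegral ℤ x := by
    refine IsIntegral.of_pow (by omega : 0 < m) ?_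
    rw [hpow]
    have h1 : (b : E) = algebraMap ℤ E (b : ℤ) := by simp
    rw [h1]
    exact isIntegral_algebraMap
  have hgi : IsIntegral ℤ (AdjoinSimple.gen A x) :=
    (isIntegral_algHom_iff (A⟮x⟯.val.restrictScalars ℤ) A⟮x⟯.val.injective).1 (by
      have h1 : (A⟮x⟯.val.restrictScalars ℤ) (AdjoinSimple.gen A x) = x := AdjoinSimple.coe_gen A x
      rw [h1]
      exact hxint)
  obtain ⟨xi, hxi0⟩ : ∃ xi : 𝓞 A⟮x⟯, (xi : A⟮x⟯) = AdjoinSimple.gen A x := ⟨⟨_, hgi⟩, rfl⟩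
  have hxi : ((xi : A⟮x⟯) : E) = x := by rw [hxi0]; exact AdjoinSimple.coe_gen A x
  have hxim : xi ^ m = (b : 𝓞 A⟮x⟯) := by
    apply RingOfIntegers.ext
    apply Subtype.ext
    have h1 : (((xi ^ m : 𝓞 A⟮x⟯) : A⟮x⟯) : E) = ((xi : A⟮x⟯) : E) ^ m := by push_cast; rfl
    have h2 : (((b : 𝓞 A⟮x⟯) : A⟮x⟯) : E) = (b : E) := by push_cast; rfl
    exact h1.trans ((by rw [hxi, hpow] : ((xi : A⟮x⟯) : E) ^ m = (b : E)).trans h2.symm)
  have hxA : IsIntegral A x := IsIntegral.of_finite A x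
  have htop : Algebra.adjoin A ({(xi : A⟮x⟯)} : Set A⟮x⟯) = ⊤ := by
    rw [hxi0]
    have h1 := (IntermediateField.adjoin.powerBasis hxA).adjoin_gen_eq_top
    rwa [IntermediateField.adjoin.powerBasis_gen] at h1
  obtain ⟨hc0, hlog⟩ := cn_norm (A := A) hb hm xi hxim hdeg htop
  obtain ⟨I, hI⟩ : ∃ I : Ideal (𝓞 A⟮x⟯), I = conductor (𝓞 A) xi := ⟨_, rfl⟩
  rw [← hI] at hc0 hlog
  have hIbot : I ≠ ⊥ := by
    intro h
    exact hc0 (Ideal.absNorm_eq_zero_iff.2 h)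
  have hImem : ∀ f ∈ I, ((f : A⟮x⟯) : E) ∈ Cd A x := by
    intro f hf
    rw [hI] at hf
    exact cn_mem xi hxi f hf
  constructor
  · obtain ⟨f, hf, hf0⟩ := Submodule.exists_mem_ne_zero_of_ne_bot hIbot
    refine ⟨_, hImem f hf, ?_⟩
    intro h
    apply hf0
    apply RingOfIntegers.ext
    apply Subtype.ext
    exact h
  · have hpos : 0 < Nat.card (ClassGroup (𝓞 A⟮x⟯)) := Nat.card_pos
    obtain ⟨h, hh⟩ : ∃ h, h = Nat.card (ClassGroup (𝓞 A⟮x⟯)) := ⟨_, rfl⟩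
    rw [← hh] at hpos
    have hI0 : I ∈ nonZeroDivisors (Ideal (𝓞 A⟮x⟯)) := mem_nonZeroDivisors_of_ne_zero hIbot
    have h1 : ClassGroup.mk0 ⟨I ^ h, pow_mem hI0 h⟩ = 1 := by
      have h2 : (⟨I ^ h, pow_mem hI0 h⟩ : nonZeroDivisors (Ideal (𝓞 A⟮x⟯))) = ⟨I, hI0⟩ ^ h := rfl
      rw [h2, map_pow, hh]
      exact pow_card_eq_one'
    have h2 := (ClassGroup.mk0_eq_one_iff (pow_mem hI0 h)).1 h1
    obtain ⟨f₀, hf₀⟩ := h2.principal
    have hf₀' : I ^ h = Ideal.span {f₀} := hf₀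
    have hfmem : f₀ ∈ I ^ h := by
      rw [hf₀']
      exact Ideal.mem_span_singleton_self f₀
    have hf0 : f₀ ≠ 0 := by
      intro h3
      rw [h3, Ideal.span_singleton_zero] at hf₀'
      exact pow_ne_zero h hIbot hf₀'
    refine ⟨h, (f₀ : A⟮x⟯), hpos, ?_, RingOfIntegers.isIntegral_coe f₀, ?_, ?_⟩
    · intro h3
      exact hf0 (RingOfIntegers.ext h3)
    · have h3 := congrArg Ideal.absNorm hf₀'
      rw [map_pow, Ideal.absNorm_span_singleton] at h3
      have h4 : |((Algebra.norm ℚ (f₀ : A⟮x⟯) : ℚ) : ℝ)| = (((Algebra.norm ℤ f₀).natAbs : ℕ) : ℝ) := by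
        rw [← Algebra.coe_norm_int f₀, Nat.cast_natAbs, Int.cast_abs]
        push_cast
        rfl
      rw [h4, ← h3, Nat.cast_pow, Real.log_pow]
      have hhR : (0 : ℝ) ≤ h := Nat.cast_nonneg h
      refine mul_le_mul_of_nonneg_left ?_ hhR
      have hlb : 0 ≤ Real.log b := Real.log_natCast_nonneg b
      have he : (0 : ℝ) ≤ Module.finrank ℚ A := Nat.cast_nonneg _
      have h5 : ((m - 1 : ℕ) : ℝ) ≤ m := by exact_mod_cast Nat.sub_le m 1
      have h6 : (Module.finrank ℚ A : ℝ) * (((m - 1 : ℕ) : ℝ) * Real.log b) ≤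
          Module.finrank ℚ A * (m * Real.log b) :=
        mul_le_mul_of_nonneg_left (mul_le_mul_of_nonneg_right h5 hlb) he
      nlinarith
    · intro M _ _ t v B hB hCd
      have h3 := cn_pow (t.comp (algebraMap A⟮x⟯ E)) v B hB I (fun f hf => hCd _ (hImem f hf)) h f₀ hfmem
      exact h3

end Pool.Agent.H33.V6
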