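import Pool.Agent.H36.LH.Df

/-!
# RadicalLehmer, version 6 (MP_187c26_nt): no tame condition. Definitions

`Cd A x` is the conductor of `𝓞 A [x]` in the integers of `F = A(x)`: all `f ∈ F` such that for every integer `y` of `F` there is
a polynomial `v` with integral coefficients in `A` and `v(x) = f y`. `LC A x a K N` is the set of all `y ∈ E` such that
`f ^ N y ∈ LK a K` for all `f ∈ Cd A x`. The jets of order `< T` of an integral polynomial lie in `LC A x a (g (L - 1)) (T (T + 1))`,
and `(N1)` holds for the lattice `LC A x a K N` with an additional loss of `N (2 ι + log b)` per dimension.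
-/

set_option autoImplicit false

open Polynomial NumberField IntermediateField

namespace Pool.Agent.H33.V6

open Pool.Agent.H36.LE Pool.Agent.H36.LF Pool.Agent.H36.LH

variable (A : Type) {E : Type} [Field A] [NumberField A] [Field E] [NumberField E] [Algebra A E]

/-- The conductor of `𝓞 A [x]`. -/
def Cd (x : E) : Set E :=
  {f | f ∈ A⟮x⟯ ∧ ∀ y ∈ A⟮x⟯, IsIntegral ℤ y →
    ∃ v : A[X], (∀ i, IsIntegral ℤ (v.coeff i)) ∧ aeval x v = f * y}

/-- All `y` with `f ^ N y ∈ LK a K` for all `f` in the conductor. -/
def LC (x a : E) (K N : ℕ) : Submodule ℤ E where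
  carrier := {y | ∀ f ∈ Cd A x, f ^ N * y ∈ LK a K}
  zero_mem' := fun f _ => by
    rw [mul_zero]
    exact zero_mem _
  add_mem' := fun hy hz f hf => by
    rw [mul_add]
    exact add_mem (hy f hf) (hz f hf)
  smul_mem' := fun n y hy f hf => by
    rw [mul_smul_comm]
    exact Submodule.smul_mem _ n (hy f hf)

end Pool.Agent.H33.V6
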