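import Pool.Agent.H33.TR.RadG
import Pool.Agent.H69.BD.Vidx
import Pool.Agent.H69.BD.Deg

/-!
# RadicalLehmer, version 6 (MP_187c26_nt): radical fields with infinitely many primes

Let `b ≥ 2` be squarefree, `W` a set of primes with `∑_(p ∈ W) (log p)/p ≤ ι`, `r p ^ p = b` for `p ∈ W`. The field `L` generated over `K` by the `r p`, `p ∈ W`,
and by all roots of unity of order prime to `b` and to all `p ∈ W` is radical (`P = 1`, this `ι`).
PROOF. `S ⊆ L` finite. There are a finite set `T ⊆ W` and finitely many roots of unity `ξ_i`, `ξ_i^(n_i) = 1`, `n_i` prime to `b` and to `W`, such that `S ⊆ K(r p (p ∈ T), ξ_i)` (an element of `adjoin K X` lies in `adjoin K X₀` for a finite `X₀ ⊆ X`: `IntermediateField.exists_finset_of_mem_adjoin`).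
`n := ∏ n_i`, `ξ` a primitive `n`-th root of unity in the algebraically closed field (or a generator of the finite cyclic group of all `n`-th roots of unity), `ξ_i ∈ ℚ(ξ)`. `m := ∏_(p ∈ T) p`: squarefree, prime to `n`.
`x`: for all finite `T ⊆ W` there is `x` with `x^m = b`, `m = ∏_(p ∈ T) p`, and every `r p`, `p ∈ T`, is in `ℚ(x)` (even a power of `x` times a power of `b`): induction on `T`. For `T ∪ {p}`, `x^m = b`, `r := r p`, `r^p = b`: `u p + v m = 1` (`u, v ∈ ℤ`), `x' := x^u r^v`: `x'^p = x`, `x'^m = r`, `x'^(p m) = b`.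
(`x'^p = x^(u p) r^(p v) = x^(1 - v m) b^v = x`, `x'^m = x^(u m) r^(v m) = b^u r^(1 - u p) = r`.) `[ℚ(x) : ℚ] = m`: `b` is squarefree, `≥ 2` (`X^m - b` is Eisenstein: `minpoly_root` in `Pool/Agent/H69/BD/Deg.lean` or its proof). `idxZ_bound` (`Pool/Agent/H69/BD/Vidx.lean`) with `all primes of T` (`= m.primeFactors`): `log (idxZ x)/m ≤ ∑_(p ∈ T) (log p)/p ≤ ι`.
`y := 1`, the polynomial `X - 1`.
-/

set_option autoImplicit false
set_option linter.unusedSectionVars false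

open NumberField IntermediateField

namespace Pool.Agent.H33.V6

open Pool.Agent.H33.TR

/-- a common radical of the `r p`, `p ∈ T` -/
private theorem exists_x (b : ℕ) (hb : 2 ≤ b) {Ω : Type} [Field Ω] [CharZero Ω] (r : ℕ → Ω)
    (T : Finset ℕ) (hT : ∀ p ∈ T, p.Prime) (hr : ∀ p ∈ T, r p ^ p = (b : Ω)) :
    ∃ x : Ω, x ^ (∏ p ∈ T, p) = (b : Ω) ∧ ∀ p ∈ T, ∃ k : ℕ, r p = x ^ k := by
  classical
  have hb0 : (b : Ω) ≠ 0 := by
    have : b ≠ 0 := by omega
    exact_mod_cast this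
  induction T using Finset.induction_on with
  | empty => exact ⟨b, by simp, by simp⟩
  | insert p T hpT ih =>
    obtain ⟨x, hx, hxr⟩ := ih (fun q hq => hT q (Finset.mem_insert_of_mem hq))
      (fun q hq => hr q (Finset.mem_insert_of_mem hq))
    have hp : p.Prime := hT p (Finset.mem_insert_self p T)
    have hrp : r p ^ p = (b : Ω) := hr p (Finset.mem_insert_self p T)
    have hm1 : (∏ q ∈ T, q) ≠ 0 := by
      rw [Finset.prod_ne_zero_iff]
      intro q hq
      exact (hT q (Finset.mem_insert_of_mem hq)).ne_zero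
    rw [Finset.prod_insert hpT]
    have hcop : Nat.Coprime p (∏ q ∈ T, q) := by
      refine Nat.Coprime.prod_right fun q hq => ?_
      rw [Nat.coprime_primes hp (hT q (Finset.mem_insert_of_mem hq))]
      rintro rfl
      exact hpT hq
    set m := ∏ q ∈ T, q with hm
    obtain ⟨u, v, huv⟩ := (Nat.isCoprime_iff_coprime.2 hcop)
    have hx0 : x ≠ 0 := by
      rintro rfl
      rw [zero_pow hm1] at hx
      exact hb0 hx.symm
    have hr0 : r p ≠ 0 := by
      intro h
      rw [h, zero_pow hp.ne_zero] at hrp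
      exact hb0 hrp.symm
    have hxz : x ^ (m : ℤ) = (b : Ω) := by rw [zpow_natCast]; exact hx
    have hrz : r p ^ (p : ℤ) = (b : Ω) := by rw [zpow_natCast]; exact hrp
    set x' : Ω := x ^ u * r p ^ v with hx'
    have h1 : x' ^ (p : ℤ) = x := by
      have e1 : u * (p : ℤ) = 1 + (m : ℤ) * (-v) := by linarith
      have e2 : v * (p : ℤ) = (p : ℤ) * v := mul_comm _ _
      rw [hx', mul_zpow, ← zpow_mul, ← zpow_mul, e1, e2, zpow_add₀ hx0, zpow_one, zpow_mul, hxz,
        zpow_mul, hrz, mul_assoc, ← zpow_add₀ hb0]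
      simp
    have h2 : x' ^ (m : ℤ) = r p := by
      have e1 : u * (m : ℤ) = (m : ℤ) * u := mul_comm _ _
      have e2 : v * (m : ℤ) = 1 + (p : ℤ) * (-u) := by linarith
      rw [hx', mul_zpow, ← zpow_mul, ← zpow_mul, e1, e2, zpow_add₀ hr0, zpow_one, zpow_mul, hxz,
        zpow_mul, hrz, mul_comm, mul_assoc, ← zpow_add₀ hb0]
      simp
    rw [zpow_natCast] at h1 h2
    refine ⟨x', ?_, ?_⟩
    · rw [pow_mul, h1, hx]
    · intro q hq
      rcases Finset.mem_insert.1 hq with rfl | hq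
      · exact ⟨m, h2.symm⟩
      · obtain ⟨k, hk⟩ := hxr q hq
        exact ⟨p * k, by rw [pow_mul, h1, hk]⟩

private theorem minpoly_root' (b n : ℕ) (hb : 2 ≤ b) (hs : Squarefree b) (hn : 1 ≤ n) {Ω : Type}
    [Field Ω] [CharZero Ω] (y : Ω) (hy : y ^ n = (b : Ω)) :
    minpoly ℚ y = Polynomial.X ^ n - Polynomial.C (b : ℚ) := by
  symm
  refine minpoly.eq_of_irreducible_of_monic (Pool.Agent.H72.BD.irr b n hb hs hn) ?_
    (Polynomial.monic_X_pow_sub_C _ (by omega))
  simp [hy]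

/-- the finitely many generators which are needed -/
private theorem gens {Ω : Type} [Field Ω] (b : ℕ) (W : Set ℕ) (r : ℕ → Ω)
    (T₀ : Finset Ω) (hT : (T₀ : Set Ω) ⊆ ({z | ∃ p ∈ W, z = r p} ∪
      {z | ∃ n : ℕ, 1 ≤ n ∧ n.Coprime b ∧ (∀ p ∈ W, n.Coprime p) ∧ z ^ n = 1} : Set Ω)) :
    ∃ (T : Finset ℕ) (n : ℕ), (∀ p ∈ T, p ∈ W) ∧ 1 ≤ n ∧ n.Coprime b ∧ (∀ p ∈ W, n.Coprime p) ∧
      ∀ z ∈ T₀, (∃ p ∈ T, z = r p) ∨ z ^ n = 1 := by
  classical
  induction T₀ using Finset.induction_on with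
  | empty => exact ⟨∅, 1, by simp, le_rfl, Nat.coprime_one_left b, fun p _ =>
      Nat.coprime_one_left p, by simp⟩
  | insert z T₀ _ ih =>
    obtain ⟨T, n, h1, h2, h3, h4, h5⟩ := ih (fun w hw => hT (by simp [Finset.mem_coe.1 hw]))
    rcases hT (by simp : z ∈ ((insert z T₀ : Finset Ω) : Set Ω)) with ⟨p, hp, rfl⟩ |
      ⟨k, hk1, hkb, hkW, hk⟩
    · refine ⟨insert p T, n, ?_, h2, h3, h4, ?_⟩
      · intro q hq
        rcases Finset.mem_insert.1 hq with rfl | hq
        · exact hp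
        · exact h1 q hq
      · intro w hw
        rcases Finset.mem_insert.1 hw with rfl | hw
        · exact Or.inl ⟨p, Finset.mem_insert_self p T, rfl⟩
        · rcases h5 w hw with ⟨q, hq, h⟩ | h
          · exact Or.inl ⟨q, Finset.mem_insert_of_mem hq, h⟩
          · exact Or.inr h
    · refine ⟨T, k * n, h1, Nat.mul_pos hk1 h2, hkb.mul_left h3,
        fun p hp => (hkW p hp).mul_left (h4 p hp), ?_⟩
      intro w hw
      rcases Finset.mem_insert.1 hw with rfl | hw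
      · right
        rw [pow_mul, hk, one_pow]
      · rcases h5 w hw with h | h
        · exact Or.inl h
        · right
          rw [mul_comm, pow_mul, h, one_pow]

theorem fam_rad (b : ℕ) (hb : 2 ≤ b) (hs : Squarefree b) (W : Set ℕ) (hW : ∀ p ∈ W, p.Prime)
    (ι : ℝ) (hι : ∀ T : Finset ℕ, (∀ p ∈ T, p ∈ W) → ∑ p ∈ T, Real.log p / p ≤ ι)
    (K Ω : Type) [Field K] [NumberField K] [Field Ω] [CharZero Ω] [IsAlgClosed Ω] [Algebra K Ω]
    [Algebra.IsAlgebraic K Ω] (r : ℕ → Ω) (hr : ∀ p ∈ W, r p ^ p = (b : Ω)) :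
    InRadG b 1 ι (IntermediateField.adjoin K ({z | ∃ p ∈ W, z = r p} ∪
      {z | ∃ n : ℕ, 1 ≤ n ∧ n.Coprime b ∧ (∀ p ∈ W, n.Coprime p) ∧ z ^ n = 1} : Set Ω)) := by
  classical
  intro S hS
  have hQ : Algebra.IsAlgebraic ℚ Ω := Algebra.IsAlgebraic.trans ℚ K Ω
  set X : Set Ω := {z | ∃ p ∈ W, z = r p} ∪
      {z | ∃ n : ℕ, 1 ≤ n ∧ n.Coprime b ∧ (∀ p ∈ W, n.Coprime p) ∧ z ^ n = 1} with hX
  -- finitely many generators
  have h0 : ∃ T₀ : Finset Ω, (T₀ : Set Ω) ⊆ X ∧
      ∀ z ∈ S, z ∈ IntermediateField.adjoin K (T₀ : Set Ω) := by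
    have h1 : ∀ z ∈ S, ∃ T : Finset Ω, (T : Set Ω) ⊆ X ∧
        z ∈ IntermediateField.adjoin K (T : Set Ω) := fun z hz =>
      IntermediateField.exists_finset_of_mem_adjoin (hS z hz)
    choose! F hF1 hF2 using h1
    refine ⟨S.biUnion F, ?_, ?_⟩
    · intro w hw
      rw [Finset.mem_coe, Finset.mem_biUnion] at hw
      obtain ⟨z, hz, hw⟩ := hw
      exact hF1 z hz hw
    · intro z hz
      refine IntermediateField.adjoin.mono K _ _ ?_ (hF2 z hz)
      intro w hw
      rw [Finset.mem_coe, Finset.mem_biUnion]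
      exact ⟨z, hz, hw⟩
  obtain ⟨T₀, hT₀, hST⟩ := h0
  obtain ⟨T, n, hTW, hn1, hnb, hnW, hgen⟩ := gens b W r T₀ hT₀
  obtain ⟨x, hx, hxr⟩ := exists_x b hb r T (fun p hp => hW p (hTW p hp))
    (fun p hp => hr p (hTW p hp))
  have hTp : ∀ p ∈ T, p.Prime := fun p hp => hW p (hTW p hp)
  set m := ∏ p ∈ T, p with hm
  have hm0 : m ≠ 0 := by
    rw [hm, Finset.prod_ne_zero_iff]
    exact fun p hp => (hTp p hp).ne_zero
  have hm1 : 1 ≤ m := Nat.one_le_iff_ne_zero.2 hm0
  -- the root of unity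
  have hnz : NeZero n := ⟨by omega⟩
  have hnz' : NeZero (n : Ω) := ⟨by
    have : n ≠ 0 := by omega
    exact_mod_cast this⟩
  obtain ⟨ξ, hξ⟩ := IsAlgClosed.exists_root (Polynomial.cyclotomic n Ω)
    (Polynomial.degree_cyclotomic_pos n Ω (by omega)).ne'
  rw [Polynomial.isRoot_cyclotomic_iff] at hξ
  have hprime_dvd : ∀ p : ℕ, p.Prime → p ∣ m → p ∈ T := by
    intro p hp hpm
    rw [hm, hp.prime.dvd_finsetProd_iff] at hpm
    obtain ⟨q, hq, hpq⟩ := hpm
    rw [(Nat.prime_dvd_prime_iff_eq hp (hTp q hq)).1 hpq]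
    exact hq
  refine ⟨m, n, ξ, x, 1, hm1, hn1, ?_, hξ.pow_eq_one, hx, ?_, ?_, ?_, ?_⟩
  · refine Nat.Coprime.mul_right ?_ hnb
    rw [hm]
    exact Nat.Coprime.prod_right fun p hp => hnW p (hTW p hp)
  · have hint : IsIntegral ℚ x := Algebra.IsIntegral.isIntegral x
    rw [IntermediateField.adjoin.finrank hint, minpoly_root' b m hb hs hm1 x hx,
      Polynomial.natDegree_X_pow_sub_C]
  · have h1 := Pool.Agent.H69.BD.idxZ_bound b m hb hs hm1 T (by
      intro p hp
      refine ⟨hTp p hp, Finset.dvd_prod_of_mem _ hp, ?_⟩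
      intro h2
      have h3 : m = p * ∏ q ∈ T.erase p, q := (Finset.mul_prod_erase T (fun q => q) hp).symm
      rw [h3, pow_two] at h2
      have h4 := Nat.dvd_of_mul_dvd_mul_left (hTp p hp).pos h2
      rw [(hTp p hp).prime.dvd_finsetProd_iff] at h4
      obtain ⟨q, hq, hpq⟩ := h4
      rw [Finset.mem_erase] at hq
      exact hq.1 ((Nat.prime_dvd_prime_iff_eq (hTp p hp) (hTp q hq.2)).1 hpq).symm)
      (fun p hp hpm hpT => absurd (hprime_dvd p hp hpm) hpT) x hx
    have hmpos : (0 : ℝ) < m := by exact_mod_cast hm1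
    rw [div_le_iff₀ hmpos] at h1
    exact h1.trans (mul_le_mul_of_nonneg_right (hι T hTW) hmpos.le)
  · refine ⟨Polynomial.X - Polynomial.C 1, Polynomial.X_sub_C_ne_zero 1, ?_, ?_⟩
    · rw [Polynomial.natDegree_X_sub_C]
    · simp
  · intro z hz
    have hle : IntermediateField.adjoin K (T₀ : Set Ω) ≤
        IntermediateField.adjoin K ({ξ, x, 1} : Set Ω) := by
      rw [IntermediateField.adjoin_le_iff]
      intro w hw
      rcases hgen w hw with ⟨p, hp, rfl⟩ | hw1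
      · obtain ⟨k, hk⟩ := hxr p hp
        rw [hk]
        exact pow_mem (IntermediateField.subset_adjoin K _ (by simp)) k
      · obtain ⟨i, -, hi⟩ := hξ.eq_pow_of_pow_eq_one hw1
        rw [← hi]
        exact pow_mem (IntermediateField.subset_adjoin K _ (by simp)) i
    exact hle (hST z hz)

end Pool.Agent.H33.V6
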