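import Pool.Agent.H33.TR.RadG
import Pool.Agent.H69.BD.Vidx

/-!
# RadicalLehmer, version 6 (MP_187c26_nt): fields of compatible roots of `b` are radical

`b ≥ 2` squarefree, `W₁` a set of primes with `p² ∤ b^(p-1) - 1`, `W₂` a set of primes with `∑_(p ∈ W₂) (log p)/p ≤ ι`, `r m` compatible roots:
`r 1 = b`, `(r (m k))^k = r m`. The field generated over `K` by the `r m`, `m` composed of primes of `W₁ ∪ W₂`, `p² ∤ m` for `p ∉ W₁`, and by all
roots of unity of order prime to `b`, `W₁`, `W₂` is radical with `P = 1`.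
-/

set_option autoImplicit false
set_option linter.unusedSectionVars false

open NumberField IntermediateField

namespace Pool.Agent.H33.V6

open Pool.Agent.H33.TR

/-- the exponents `m` -/
def Adm (W₁ W₂ : Set ℕ) (m : ℕ) : Prop :=
  1 ≤ m ∧ ∀ p : ℕ, p.Prime → p ∣ m → p ∈ W₁ ∨ (p ∈ W₂ ∧ ¬ p ^ 2 ∣ m)

private theorem adm_lcm {W₁ W₂ : Set ℕ} {m k : ℕ} (hm : Adm W₁ W₂ m) (hk : Adm W₁ W₂ k) :
    Adm W₁ W₂ (m.lcm k) := by
  refine ⟨Nat.lcm_pos (by have := hm.1; omega) (by have := hk.1; omega), fun p hp hpd => ?_⟩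
  by_cases h1 : p ∈ W₁
  · exact Or.inl h1
  right
  have hpp : ∀ j : ℕ, p ^ j ∣ m.lcm k → p ^ j ∣ m ∨ p ^ j ∣ k := by
    intro j hj
    have hm0 : m ≠ 0 := by have := hm.1; omega
    have hk0 : k ≠ 0 := by have := hk.1; omega
    rw [hp.pow_dvd_iff_le_factorization (Nat.lcm_ne_zero hm0 hk0), Nat.factorization_lcm hm0 hk0,
      Finsupp.sup_apply, le_sup_iff] at hj
    rw [hp.pow_dvd_iff_le_factorization hm0, hp.pow_dvd_iff_le_factorization hk0]
    exact hj
  have h2 := hpp 1 (by rwa [pow_one])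
  rw [pow_one] at h2
  have h3 : p ∈ W₂ := by
    rcases h2 with h | h
    · rcases hm.2 p hp h with h' | h'
      · exact absurd h' h1
      · exact h'.1
    · rcases hk.2 p hp h with h' | h'
      · exact absurd h' h1
      · exact h'.1
  refine ⟨h3, fun h4 => ?_⟩
  rcases hpp 2 h4 with h | h
  · rcases hm.2 p hp ((dvd_pow_self p two_ne_zero).trans h) with h' | h'
    · exact h1 h'
    · exact h'.2 h
  · rcases hk.2 p hp ((dvd_pow_self p two_ne_zero).trans h) with h' | h'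
    · exact h1 h'
    · exact h'.2 h

theorem fam_rad2 (b : ℕ) (hb : 2 ≤ b) (hs : Squarefree b) (W₁ W₂ : Set ℕ)
    (hW₁ : ∀ p ∈ W₁, ¬ p ^ 2 ∣ b ^ (p - 1) - 1)
    (ι : ℝ) (hι : ∀ T : Finset ℕ, (∀ p ∈ T, p ∈ W₂) → ∑ p ∈ T, Real.log p / p ≤ ι)
    (K Ω : Type) [Field K] [NumberField K] [Field Ω] [CharZero Ω] [IsAlgClosed Ω] [Algebra K Ω]
    [Algebra.IsAlgebraic K Ω] (r : ℕ → Ω) (hr1 : r 1 = (b : Ω))
    (hr : ∀ m k : ℕ, 1 ≤ m → 1 ≤ k → r (m * k) ^ k = r m) :
    InRadG b 1 ι (IntermediateField.adjoin K ({z | ∃ m : ℕ, Adm W₁ W₂ m ∧ z = r m} ∪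
      {z | ∃ n : ℕ, 1 ≤ n ∧ n.Coprime b ∧ (∀ p : ℕ, p.Prime → p ∈ W₁ ∪ W₂ → n.Coprime p) ∧
        z ^ n = 1} : Set Ω)) := by
  classical
  have halg : Algebra.IsAlgebraic ℚ Ω := Algebra.IsAlgebraic.trans ℚ K Ω
  obtain ⟨G, hG⟩ : ∃ G : Set Ω, G = ({z | ∃ m : ℕ, Adm W₁ W₂ m ∧ z = r m} ∪
      {z | ∃ n : ℕ, 1 ≤ n ∧ n.Coprime b ∧ (∀ p : ℕ, p.Prime → p ∈ W₁ ∪ W₂ → n.Coprime p) ∧
        z ^ n = 1} : Set Ω) := ⟨_, rfl⟩
  rw [← hG]
  -- finitely many generators
  have h1 : ∀ T : Finset Ω, (T : Set Ω) ⊆ G → ∃ m n : ℕ, Adm W₁ W₂ m ∧ 1 ≤ n ∧ n.Coprime b ∧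
      (∀ p : ℕ, p.Prime → p ∈ W₁ ∪ W₂ → n.Coprime p) ∧
      ∀ z ∈ T, (∃ k : ℕ, z = r m ^ k) ∨ z ^ n = 1 := by
    intro T
    induction T using Finset.induction_on with
    | empty =>
      intro _
      refine ⟨1, 1, ⟨le_rfl, fun p hp h => absurd (Nat.dvd_one.1 h) hp.one_lt.ne'⟩, le_rfl,
        Nat.coprime_one_left b, fun p _ _ => Nat.coprime_one_left p, fun z hz => ?_⟩
      exact absurd hz (Finset.notMem_empty z)
    | insert z T hz ih =>
      intro hT
      obtain ⟨m, n, hm, hn, hnb, hnW, h⟩ := ih (fun y hy => hT (by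
        rw [Finset.coe_insert]
        exact Or.inr hy))
      have hzG : z ∈ G := hT (by rw [Finset.coe_insert]; exact Or.inl rfl)
      rw [hG] at hzG
      rcases hzG with ⟨m', hm', rfl⟩ | ⟨n', hn', hnb', hnW', hz'⟩
      · have hpw : ∀ u : ℕ, 1 ≤ u → u ∣ m.lcm m' → r (m.lcm m') ^ (m.lcm m' / u) = r u := by
          intro u hu hud
          have h2 : u * (m.lcm m' / u) = m.lcm m' := Nat.mul_div_cancel' hud
          have h3 : 1 ≤ m.lcm m' / u :=
            Nat.div_pos (Nat.le_of_dvd (adm_lcm hm hm').1 hud) (by omega)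
          have h4 := hr u (m.lcm m' / u) hu h3
          rwa [h2] at h4
        refine ⟨m.lcm m', n, adm_lcm hm hm', hn, hnb, hnW, fun y hy => ?_⟩
        rcases Finset.mem_insert.1 hy with rfl | hy
        · exact Or.inl ⟨_, (hpw m' hm'.1 (Nat.dvd_lcm_right m m')).symm⟩
        · rcases h y hy with ⟨k, hk⟩ | h2
          · left
            refine ⟨m.lcm m' / m * k, ?_⟩
            rw [pow_mul, hpw m hm.1 (Nat.dvd_lcm_left m m'), hk]
          · exact Or.inr h2
      · refine ⟨m, n * n', hm, Nat.mul_pos hn hn', Nat.Coprime.mul_left hnb hnb', fun p hp hpW =>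
          Nat.Coprime.mul_left (hnW p hp hpW) (hnW' p hp hpW), fun y hy => ?_⟩
        rcases Finset.mem_insert.1 hy with rfl | hy
        · right
          rw [mul_comm, pow_mul, hz', one_pow]
        · rcases h y hy with ⟨k, hk⟩ | h2
          · exact Or.inl ⟨k, hk⟩
          · right
            rw [pow_mul, h2, one_pow]
  intro S hS
  obtain ⟨T, hTG, hST⟩ : ∃ T : Finset Ω, (T : Set Ω) ⊆ G ∧
      ∀ z ∈ S, z ∈ IntermediateField.adjoin K (T : Set Ω) := by
    induction S using Finset.induction_on with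
    | empty =>
      exact ⟨∅, by simp, fun z hz => absurd hz (Finset.notMem_empty z)⟩
    | insert z S hz ih =>
      obtain ⟨T, hT, h⟩ := ih (fun y hy => hS y (Finset.mem_insert_of_mem hy))
      obtain ⟨T', hT', h'⟩ := IntermediateField.exists_finset_of_mem_adjoin
        (hS z (Finset.mem_insert_self z S))
      refine ⟨T ∪ T', ?_, fun y hy => ?_⟩
      · rw [Finset.coe_union]
        exact Set.union_subset hT hT'
      · rcases Finset.mem_insert.1 hy with rfl | hy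
        · exact IntermediateField.adjoin.mono K _ _ (by
            rw [Finset.coe_union]; exact Set.subset_union_right) h'
        · exact IntermediateField.adjoin.mono K _ _ (by
            rw [Finset.coe_union]; exact Set.subset_union_left) (h y hy)
  obtain ⟨m, n, hm, hn, hnb, hnW, hmem⟩ := h1 T hTG
  have hm1 : 1 ≤ m := hm.1
  have hxm : r m ^ m = (b : Ω) := by
    have h2 := hr 1 m le_rfl hm1
    rwa [one_mul, hr1] at h2
  have : NeZero (n : Ω) := ⟨by exact_mod_cast (by omega : n ≠ 0)⟩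
  have : NeZero n := ⟨by omega⟩
  obtain ⟨ξ, hξ⟩ := HasEnoughRootsOfUnity.exists_primitiveRoot Ω n
  have hcopm : n.Coprime m := by
    rw [Nat.coprime_iff_isRelPrime]
    intro d hdn hdm
    rw [Nat.isUnit_iff]
    by_contra hd
    obtain ⟨p, hp, hpd⟩ := Nat.exists_prime_and_dvd hd
    have hpW : p ∈ W₁ ∪ W₂ := by
      rcases hm.2 p hp (hpd.trans hdm) with h | h
      · exact Or.inl h
      · exact Or.inr h.1
    have h3 := hnW p hp hpW
    have h4 : p ∣ 1 := by
      rw [← Nat.coprime_iff_gcd_eq_one.1 h3]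
      exact Nat.dvd_gcd (hpd.trans hdn) dvd_rfl
    exact hp.one_lt.ne' (Nat.dvd_one.1 h4)
  have hxi := Pool.Agent.H69.BD.integral_rad b m hm1 (r m) hxm
  have hfr : Module.finrank ℚ ℚ⟮r m⟯ = m := by
    rw [IntermediateField.adjoin.finrank hxi,
      Pool.Agent.H69.BD.minpoly_rad b m hb hs hm1 (r m) hxm, Polynomial.natDegree_X_pow_sub_C]
  have hm0 : m ≠ 0 := by omega
  have hidx : Real.log (Pool.Agent.H69.BD.idxZ (r m)) ≤ ι * m := by
    have h2 := Pool.Agent.H69.BD.idxZ_bound b m hb hs hm1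
      (m.primeFactors.filter fun p => p ∉ W₁) ?_ ?_ (r m) hxm
    · have h3 := h2.trans (hι (m.primeFactors.filter fun p => p ∉ W₁) fun p hp => ?_)
      · rwa [div_le_iff₀ (by exact_mod_cast hm1 : (0 : ℝ) < m)] at h3
      · rw [Finset.mem_filter, Nat.mem_primeFactors] at hp
        rcases hm.2 p hp.1.1 hp.1.2.1 with h | h
        · exact absurd h hp.2
        · exact h.1
    · intro p hp
      rw [Finset.mem_filter, Nat.mem_primeFactors] at hp
      refine ⟨hp.1.1, hp.1.2.1, ?_⟩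
      rcases hm.2 p hp.1.1 hp.1.2.1 with h | h
      · exact absurd h hp.2
      · exact h.2
    · intro p hp hpm hpW
      rw [Finset.mem_filter, Nat.mem_primeFactors] at hpW
      refine hW₁ p ?_
      by_contra h
      exact hpW ⟨⟨hp, hpm, hm0⟩, h⟩
  refine ⟨m, n, ξ, r m, 1, hm1, hn, Nat.Coprime.mul_right hcopm hnb, hξ.pow_eq_one, hxm, hfr,
    hidx, ⟨Polynomial.X - Polynomial.C 1, Polynomial.X_sub_C_ne_zero 1, ?_, ?_⟩, ?_⟩
  · rw [Polynomial.natDegree_X_sub_C]
  · rw [map_sub, Polynomial.aeval_X, Polynomial.aeval_C, map_one, sub_self]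
  · intro z hz
    have hle : IntermediateField.adjoin K (T : Set Ω) ≤
        IntermediateField.adjoin K ({ξ, r m, 1} : Set Ω) := by
      rw [IntermediateField.adjoin_le_iff]
      intro y hy
      have hξm : ξ ∈ IntermediateField.adjoin K ({ξ, r m, 1} : Set Ω) :=
        IntermediateField.subset_adjoin K _ (Or.inl rfl)
      have hrm : r m ∈ IntermediateField.adjoin K ({ξ, r m, 1} : Set Ω) :=
        IntermediateField.subset_adjoin K _ (Or.inr (Or.inl rfl))
      rcases hmem y hy with ⟨k, rfl⟩ | h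
      · exact pow_mem hrm k
      · obtain ⟨i, -, rfl⟩ := hξ.eq_pow_of_pow_eq_one h
        exact pow_mem hξm i
    exact hle (hST z hz)

end Pool.Agent.H33.V6
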