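import Pool.Agent.H33.V6.Hd

/-!
# RadicalLehmer (MP_187c26_nt), all powers: the unramified primes above `p`

`S` a finite set of primes `P` of `K` above `p` with `p ∉ P^2`: `∏_(P ∈ S) N(P) ≤ p^(#{τ | Fx τ Q})` for a Galois number field `L ⊃ τ₀ K` and a prime `Q` of `L` above `p`.
PROOF. `k := 𝓞 L ⧸ Q`, a finite field of characteristic `p`. For `P ∈ S` let `f_P = [𝓞 K ⧸ P : ZMod p]`, `N(P) = p^(f_P)`. Claim: at least `f_P` embeddings `τ` with `Fx τ Q` and `Q.comap τ = P`; these sets are disjoint for different `P`, so `∑ f_P ≤ #{τ | Fx τ Q}`.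
(1) There is `τ₁ = g ∘ τ₀` with `Q.comap τ₁ = P`: a prime `Q'` of `L` over `P` (by `τ₀`, lying over), `Q'` and `Q` are both above `p`, so `g Q' = Q` for some `g ∈ Gal(L/ℚ)` (`Ideal.exists_smul_eq_of_isGaloisGroup` / `IsInvariant.exists_smul_of_under_eq`; see `surj` in `Pool/Agent/H33/PT/Ram.lean`).
(2) `τ₁` induces `ε₁ : 𝓞 K ⧸ P → k`. There are `f_P` field embeddings `ε : 𝓞 K ⧸ P → k` (`ε₁` composed with the powers of the Frobenius `x ↦ x^p` of `𝓞 K ⧸ P`, `i < f_P`, are different), `ε_i = φ^i ∘ ε₁` with the Frobenius `φ : x ↦ x^p` of `k`. By `Ideal.Quotient.stabilizerHom_surjective` there is `d ∈ Gal(L/ℚ)` with `d Q = Q` and `d w ≡ w^p` modulo `Q` (or an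
arithmetic Frobenius, `IsArithFrobAt`), `τ^(i) := d^i ∘ τ₁`, `i < f_P`: they induce `ε_i`, so they are different, and `Q.comap τ^(i) = P`.
(3) `Fx τ Q` for every `τ` with `Q.comap τ = P`, `P ∈ S`: `p ∉ P^2` and `ram_sub`, `ram_top`: `#I = e₁ #I_τ`, `p ∈ P^2 ↔ p ∈ Q^(2 #I_τ) ↔ 2 #I_τ ≤ e₁ #I_τ`, so `e₁ = 1`, `I_τ = I`.
-/

set_option autoImplicit false
set_option linter.unusedSectionVars false

open NumberField

namespace Pool.Agent.H33.V6

section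

variable {K L : Type} [Field K] [NumberField K] [Field L] [NumberField L]

/-- the prime of `𝓞 K` induced by `τ` -/
private noncomputable def phe (τ : K →+* L) (Q : Ideal (𝓞 L)) : Ideal (𝓞 K) :=
  Q.comap (RingOfIntegers.mapRingHom τ)

private theorem mem_phe (τ : K →+* L) (Q : Ideal (𝓞 L)) (y : 𝓞 K) :
    y ∈ phe τ Q ↔ RingOfIntegers.mapRingHom τ y ∈ Q := Iff.rfl

private theorem he_ne_bot (p : ℕ) (hp : p.Prime) (Q : Ideal (𝓞 L)) (hpQ : (p : 𝓞 L) ∈ Q) :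
    Q ≠ ⊥ := by
  intro h
  rw [h, Ideal.mem_bot] at hpQ
  exact hp.ne_zero (by exact_mod_cast hpQ)

private theorem he_lies (l : ℕ) (hl : l.Prime) (Q : Ideal (𝓞 L)) [hQ : Q.IsPrime]
    (h : (l : 𝓞 L) ∈ Q) : Q.LiesOver (Ideal.span {(l : ℤ)}) := by
  have hp : (Ideal.span {(l : ℤ)}).IsMaximal := by
    have hf : Fact l.Prime := ⟨hl⟩
    exact Int.ideal_span_isMaximal_of_prime l
  rw [Ideal.liesOver_iff]
  refine hp.eq_of_le (Ideal.IsPrime.under ℤ Q).ne_top ?_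
  rw [Ideal.span_singleton_le_iff_mem]
  show algebraMap ℤ (𝓞 L) (l : ℤ) ∈ Q
  simpa using h

private theorem he_surj [IsGalois ℚ L] (p : ℕ) (hp : p.Prime) (Q : Ideal (𝓞 L))
    (hQ : Q.IsMaximal) (hpQ : (p : 𝓞 L) ∈ Q) (τ₀ : K →+* L) (P : Ideal (𝓞 K))
    (hP1 : P.IsPrime) (hP2 : (p : 𝓞 K) ∈ P) : ∃ τ : K →+* L, phe τ Q = P := by
  let _ : Algebra K L := τ₀.toAlgebra
  have hinj : Function.Injective (algebraMap (𝓞 K) (𝓞 L)) := FaithfulSMul.algebraMap_injective _ _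
  obtain ⟨Q', hQ', hcomap⟩ := Ideal.exists_ideal_over_prime_of_isIntegral_of_isDomain
    (R := 𝓞 K) (S := 𝓞 L) P (by
      rw [(RingHom.injective_iff_ker_eq_bot _).1 hinj]
      exact bot_le)
  have hlQ' : (p : 𝓞 L) ∈ Q' := by
    have h1 : (p : 𝓞 K) ∈ Q'.comap (algebraMap (𝓞 K) (𝓞 L)) := by
      rw [hcomap]
      exact hP2
    rw [Ideal.mem_comap, map_natCast] at h1
    exact h1
  have hQp := hQ.isPrime
  have i1 := he_lies p hp Q' hlQ'
  have i2 := he_lies p hp Q hpQ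
  obtain ⟨σ, hσ⟩ := Ideal.exists_smul_eq_of_isGaloisGroup (Ideal.span {(p : ℤ)}) Q' Q (L ≃ₐ[ℚ] L)
  refine ⟨(σ : L →+* L).comp τ₀, ?_⟩
  ext y
  have e1 : y ∈ phe ((σ : L →+* L).comp τ₀) Q ↔ σ • (algebraMap (𝓞 K) (𝓞 L) y) ∈ Q := Iff.rfl
  rw [e1, ← hσ, Ideal.smul_mem_pointwise_smul_iff, ← hcomap]
  rfl

open scoped Pointwise in
private theorem he_frob [IsGalois ℚ L] (p : ℕ) (hp : p.Prime) (Q : Ideal (𝓞 L))
    (hQ : Q.IsMaximal) (hpQ : (p : 𝓞 L) ∈ Q) :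
    ∃ g : L ≃ₐ[ℚ] L, (∀ x : 𝓞 L, g • x ∈ Q ↔ x ∈ Q) ∧ ∀ x : 𝓞 L, g • x - x ^ p ∈ Q := by
  have hQp := hQ.isPrime
  have hfin : Finite (𝓞 L ⧸ Q) := Ideal.finiteQuotientOfFreeOfNeBot _ (he_ne_bot p hp Q hpQ)
  obtain ⟨g, hg⟩ := IsArithFrobAt.exists_of_isInvariant ℤ (L ≃ₐ[ℚ] L) Q
  have hunder : Q.under ℤ = Ideal.span {(p : ℤ)} := by
    have h1 : Ideal.span {(p : ℤ)} ≤ Q.under ℤ := by
      rw [Ideal.span_singleton_le_iff_mem, Ideal.mem_comap, eq_intCast, Int.cast_natCast]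
      exact hpQ
    have h2 : (Ideal.span {(p : ℤ)}).IsMaximal :=
      PrincipalIdealRing.isMaximal_of_irreducible (Nat.prime_iff_prime_int.1 hp).irreducible
    exact (h2.eq_of_le (Ideal.IsPrime.ne_top inferInstance) h1).symm
  have hcard : Nat.card (ℤ ⧸ Q.under ℤ) = p := by
    rw [hunder]
    have h1 := Int.quotientSpanNatEquivZMod p
    rw [Nat.card_congr h1.toEquiv, Nat.card_zmod]
  have hst : g • Q = Q := hg.mem_stabilizer
  refine ⟨g, fun x => ?_, fun x => ?_⟩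
  · conv_lhs => rw [← hst]
    exact Ideal.smul_mem_pointwise_smul_iff
  · have h1 := hg x
    rw [hcard] at h1
    exact h1

private theorem he_iter (p : ℕ) (Q : Ideal (𝓞 L)) (g : L ≃ₐ[ℚ] L)
    (hg : ∀ x : 𝓞 L, g • x ∈ Q ↔ x ∈ Q) (hg2 : ∀ x : 𝓞 L, g • x - x ^ p ∈ Q) (d : ℕ) :
    (∀ x : 𝓞 L, (g ^ d) • x ∈ Q ↔ x ∈ Q) ∧ ∀ x : 𝓞 L, (g ^ d) • x - x ^ p ^ d ∈ Q := by
  induction d with
  | zero =>
    refine ⟨fun x => by rw [pow_zero, one_smul], fun x => ?_⟩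
    rw [pow_zero, pow_zero, pow_one, one_smul, sub_self]
    exact zero_mem _
  | succ d ih =>
    have e : ∀ x : 𝓞 L, (g ^ (d + 1)) • x = g • ((g ^ d) • x) := fun x => by
      rw [pow_succ', mul_smul]
    refine ⟨fun x => by rw [e, hg, ih.1], fun x => ?_⟩
    rw [e]
    have e2 : g • ((g ^ d) • x) - x ^ p ^ (d + 1) =
        g • ((g ^ d) • x - x ^ p ^ d) + (g • (x ^ p ^ d) - (x ^ p ^ d) ^ p) := by
      rw [smul_sub, ← pow_mul, ← pow_succ]
      ring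
    rw [e2]
    exact Ideal.add_mem _ ((hg _).2 (ih.2 x)) (hg2 _)

private theorem he_card (l : ℕ) (hl : l.Prime) (P : Ideal (𝓞 K)) (hP1 : P.IsMaximal) (f : ℕ)
    (hf : Ideal.absNorm P = l ^ f) (d : ℕ)
    (hd : 1 ≤ d) (h : ∀ y : 𝓞 K, y - y ^ l ^ d ∈ P) : f ≤ d := by
  classical
  let _ := Ideal.Quotient.field P
  have hcard : Nat.card (𝓞 K ⧸ P) = l ^ f := by
    rw [← hf]
    rfl
  have hfin : Finite (𝓞 K ⧸ P) := by
    refine Nat.finite_of_card_ne_zero ?_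
    rw [hcard]
    exact pow_ne_zero _ hl.ne_zero
  have hft : Fintype (𝓞 K ⧸ P) := Fintype.ofFinite _
  have hdeg := FiniteField.X_pow_card_pow_sub_X_natDegree_eq (𝓞 K ⧸ P) (p := l) (n := d)
    (by omega) hl.one_lt
  have hne : (Polynomial.X ^ l ^ d - Polynomial.X : Polynomial (𝓞 K ⧸ P)) ≠ 0 := by
    intro h0
    rw [h0, Polynomial.natDegree_zero] at hdeg
    exact (pow_ne_zero d hl.ne_zero) hdeg.symm
  have h1 : (Finset.univ : Finset (𝓞 K ⧸ P)).card ≤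
      (Polynomial.X ^ l ^ d - Polynomial.X : Polynomial (𝓞 K ⧸ P)).natDegree := by
    refine Polynomial.card_le_degree_of_subset_roots fun z _ => ?_
    rw [Polynomial.mem_roots hne, Polynomial.IsRoot.def]
    obtain ⟨y, rfl⟩ := Ideal.Quotient.mk_surjective z
    have h2 := Ideal.Quotient.eq_zero_iff_mem.2 (h y)
    rw [map_sub, map_pow] at h2
    simp only [Polynomial.eval_sub, Polynomial.eval_pow, Polynomial.eval_X]
    linear_combination -h2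
  rw [hdeg, Finset.card_univ, ← Nat.card_eq_fintype_card, hcard] at h1
  exact (Nat.pow_le_pow_iff_right hl.one_lt).1 h1

private theorem he_many [IsGalois ℚ L] (p : ℕ) (hp : p.Prime) (Q : Ideal (𝓞 L))
    (hQ : Q.IsMaximal) (hpQ : (p : 𝓞 L) ∈ Q) (τ₀ : K →+* L) (P : Ideal (𝓞 K))
    (hP1 : P.IsMaximal) (hP2 : (p : 𝓞 K) ∈ P) (f : ℕ) (hf : Ideal.absNorm P = p ^ f) :
    ∃ F : Finset (K →+* L), (∀ τ ∈ F, phe τ Q = P) ∧ F.card = f := by
  classical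
  obtain ⟨h, hh⟩ := he_surj p hp Q hQ hpQ τ₀ P hP1.isPrime hP2
  obtain ⟨g, hg, hg2⟩ := he_frob p hp Q hQ hpQ
  have key : ∀ i j : ℕ, i < j → j < f →
      ((g ^ i : L ≃ₐ[ℚ] L) : L →+* L).comp h ≠ ((g ^ j : L ≃ₐ[ℚ] L) : L →+* L).comp h := by
    intro i j hij hj heq
    obtain ⟨d, rfl⟩ : ∃ d, j = i + d := ⟨j - i, by omega⟩
    have hd : 1 ≤ d := by omega
    have h1 : f ≤ d := by
      refine he_card p hp P hP1 f hf d hd fun y => ?_
      rw [← hh, mem_phe]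
      have h2 := DFunLike.congr_fun heq (y : K)
      have h3 : (g ^ i) (h (y : K)) = (g ^ (i + d)) (h (y : K)) := h2
      have h4 : (g ^ (i + d)) (h (y : K)) = (g ^ i) ((g ^ d) (h (y : K))) := by
        rw [pow_add]
        rfl
      rw [h4] at h3
      have h5 := (g ^ i).injective h3
      have h6 := (he_iter p Q g hg hg2 d).2 (RingOfIntegers.mapRingHom h y)
      have h7 : (g ^ d) • (RingOfIntegers.mapRingHom h y) = RingOfIntegers.mapRingHom h y := by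
        apply RingOfIntegers.ext
        exact h5.symm
      rw [h7] at h6
      rw [map_sub, map_pow]
      exact h6
    omega
  let φ : ℕ → (K →+* L) := fun i => ((g ^ i : L ≃ₐ[ℚ] L) : L →+* L).comp h
  refine ⟨(Finset.range f).image φ, ?_, ?_⟩
  · intro h' hh'
    obtain ⟨i, -, rfl⟩ := Finset.mem_image.1 hh'
    ext y
    rw [← hh, mem_phe, mem_phe]
    exact (he_iter p Q g hg hg2 i).1 (RingOfIntegers.mapRingHom h y)
  · rw [Finset.card_image_of_injOn, Finset.card_range]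
    intro i hi j hj hij
    have hi' : i < f := Finset.mem_range.1 hi
    have hj' : j < f := Finset.mem_range.1 hj
    rcases lt_trichotomy i j with h1 | h1 | h1
    · exact absurd hij (key i j h1 hj')
    · exact h1
    · exact absurd hij.symm (key j i h1 hi')

private theorem he_fx [IsGalois ℚ L] (p : ℕ) (hp : p.Prime) (Q : Ideal (𝓞 L))
    (hQ : Q.IsMaximal) (hpQ : (p : 𝓞 L) ∈ Q) (τ : K →+* L) (hτ : (p : 𝓞 K) ∉ (phe τ Q) ^ 2) :
    Fx τ Q := by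
  obtain ⟨⟨e, he1, he2⟩, h3⟩ := ram_sub p hp Q hQ hpQ τ
  have h4 := h3 (p : 𝓞 K) 2
  rw [map_natCast, ram_top p hp Q hQ hpQ, he2] at h4
  have h5 : ¬ 2 * Nat.card (IH τ Q) ≤ e * Nat.card (IH τ Q) := fun h => hτ (h4.2 h)
  have hfinI : Finite (Q.inertia (L ≃ₐ[ℚ] L)) := inferInstance
  have h6 : e = 1 := by
    by_contra hne
    exact h5 (Nat.mul_le_mul_right _ (by omega))
  rw [h6, one_mul] at he2
  have hle : IH τ Q ≤ Q.inertia (L ≃ₐ[ℚ] L) := fun σ hσ => hσ.1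
  have h7 : IH τ Q = Q.inertia (L ≃ₐ[ℚ] L) := by
    refine Subgroup.eq_of_le_of_card_ge hle ?_
    rw [he2]
  intro σ hσ z
  rw [← h7] at hσ
  exact hσ.2 z

private theorem he_norm (p : ℕ) (hp : p.Prime) (P : Ideal (𝓞 K)) (hP1 : P.IsMaximal)
    (hP2 : (p : 𝓞 K) ∈ P) : ∃ f : ℕ, 1 ≤ f ∧ Ideal.absNorm P = p ^ f := by
  have h1 : P ∣ Ideal.span {(p : 𝓞 K)} := by
    rw [Ideal.dvd_iff_le, Ideal.span_singleton_le_iff_mem]
    exact hP2
  have h2 : Ideal.absNorm P ∣ p ^ Module.finrank ℚ K := by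
    have h3 := map_dvd Ideal.absNorm h1
    rw [Ideal.absNorm_span_natCast, RingOfIntegers.rank] at h3
    exact h3
  obtain ⟨m, -, hm⟩ := (Nat.dvd_prime_pow hp).1 h2
  refine ⟨m, ?_, hm⟩
  rcases Nat.eq_zero_or_pos m with h0 | h0
  · exfalso
    rw [h0, pow_zero, Ideal.absNorm_eq_one_iff] at hm
    exact hP1.ne_top hm
  · exact h0

end

theorem in2a (p : ℕ) (hp : p.Prime) (K L : Type) [Field K] [NumberField K] [Field L]
    [NumberField L] [IsGalois ℚ L] (τ₀ : K →+* L) (Q : Ideal (𝓞 L)) (hQ : Q.IsMaximal)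
    (hpQ : (p : 𝓞 L) ∈ Q) (S : Finset (Ideal (𝓞 K)))
    (hS : ∀ P ∈ S, P.IsMaximal ∧ (p : 𝓞 K) ∈ P ∧ (p : 𝓞 K) ∉ P ^ 2) :
    ∏ P ∈ S, Ideal.absNorm P ≤ p ^ Nat.card {τ : K →+* L // Fx τ Q} := by
  classical
  have hex : ∀ P : Ideal (𝓞 K), ∃ (f : ℕ) (F : Finset (K →+* L)), P ∈ S →
      Ideal.absNorm P = p ^ f ∧ (∀ τ ∈ F, phe τ Q = P) ∧ F.card = f := by
    intro P
    by_cases hPS : P ∈ S
    · obtain ⟨h1, h2, -⟩ := hS P hPS
      obtain ⟨f, -, hf⟩ := he_norm p hp P h1 h2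
      obtain ⟨F, hF1, hF2⟩ := he_many p hp Q hQ hpQ τ₀ P h1 h2 f hf
      exact ⟨f, F, fun _ => ⟨hf, hF1, hF2⟩⟩
    · exact ⟨0, ∅, fun h => absurd h hPS⟩
  choose f F hF using hex
  have hfin : Finite (K →+* L) := 
    Finite.of_equiv (K →ₐ[ℚ] L) (RingHom.equivRatAlgHom K L).symm
  have hsub : ∀ P ∈ S, ∀ τ ∈ F P, Fx τ Q := by
    intro P hP τ hτ
    refine he_fx p hp Q hQ hpQ τ ?_
    rw [(hF P hP).2.1 τ hτ]
    exact (hS P hP).2.2
  have hdis : (S : Set (Ideal (𝓞 K))).PairwiseDisjoint F := by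
    intro P hP P' hP' hne
    rw [Function.onFun, Finset.disjoint_left]
    intro τ h1 h2
    exact hne (((hF P hP).2.1 τ h1).symm.trans ((hF P' hP').2.1 τ h2))
  have hcard : ∑ P ∈ S, f P ≤ Nat.card {τ : K →+* L // Fx τ Q} := by
    have h1 : ∑ P ∈ S, f P = (S.biUnion F).card := by
      rw [Finset.card_biUnion hdis]
      exact Finset.sum_congr rfl fun P hP => ((hF P hP).2.2).symm
    have h2 : ((S.biUnion F : Finset (K →+* L)) : Set (K →+* L)).ncard ≤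
        {τ : K →+* L | Fx τ Q}.ncard := by
      refine Set.ncard_le_ncard ?_ (Set.toFinite _)
      intro τ hτ
      rw [Finset.mem_coe, Finset.mem_biUnion] at hτ
      obtain ⟨P, hP, hτP⟩ := hτ
      exact hsub P hP τ hτP
    rw [Set.ncard_coe_finset] at h2
    rw [h1]
    exact h2
  calc ∏ P ∈ S, Ideal.absNorm P = ∏ P ∈ S, p ^ f P :=
        Finset.prod_congr rfl fun P hP => (hF P hP).1
    _ = p ^ ∑ P ∈ S, f P := Finset.prod_pow_eq_pow_sum _ _ _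
    _ ≤ p ^ Nat.card {τ : K →+* L // Fx τ Q} := Nat.pow_le_pow_right hp.pos hcard

end Pool.Agent.H33.V6
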