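import Pool.Agent.H11.FR.Wg
import Pool.Agent.H11.FR.Glob

/-!
# RadicalLehmer (MP_187c26_nt), all powers: the relative index

`θ^p = y ∈ 𝓞 K`, `y ∉ P^2` for all maximal ideals `P`. `S`: maximal ideals above `p` with `p ∉ P^2` such that `y` is not a `p`-th power modulo `P^2` for the other maximal ideals `P` above `p`, `y ∉ P`. Then `[𝓞_(K(θ)) : 𝓞 K [θ]] ≤ ∏_(P ∈ S) N(P)`.
MODEL: `ordIdx_prime` in `Pool/Agent/H11/FR/Wg.lean` (there all `P` above `p` satisfy `p ∉ P^2` and the bound is `p^[K:ℚ]`). PROOF: `c` as there (`exists_root_mod`), `ρ = (θ - c)^(p-1)/p`. Choose `g ∈ 𝓞 K` with `g ∈ P^(e_P)` (`p ∈ P^(e_P) \ P^(e_P+1)`) for all `P` above `p` not in `S`, `g ≡ 1` modulo `P` for `P ∈ S` (Chinese remainder; or: `span {p} = ∏_(P ∈ S) P * J`, `J` coprime to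
`𝔟 := ∏_(P ∈ S) P`, as `p ∉ P^2` for `P ∈ S`; `g ∈ J`, `g - 1 ∈ 𝔟`). Every integer `z` of `K(θ)` is in `𝓞 K [θ] + 𝓞 K (g ρ)`: locally (`mem_of_local` in `Glob.lean`) at `P ∈ S` by `wild_local` (`g` is a unit there), at all other `P` it is in `𝓞 K [θ]` locally: `exists_mul_mem` with `GoodAt y p P`. For `a ∈ 𝔟`: `a g ∈ 𝔟 J = span {p}`, so `a g ρ ∈ 𝓞 K [θ]`.
So the index is at most `#(𝓞 K ⧸ 𝔟) = ∏ N(P)` (`relIndex_le_of_surj` as in the model; `Ideal.absNorm` multiplicative).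
-/

set_option autoImplicit false

open NumberField IntermediateField

namespace Pool.Agent.H33.V6

open Pool.Agent.H11.FR
open Pool.Agent.H4.OG (intOf mem_intOf)
open Pool.Agent.H4.OH (relIndex_le_of_surj)

/-- `span {p} = 𝔟 J` with `J` coprime to `𝔟`: the element `g`. -/
private theorem exists_g {K : Type} [Field K] [NumberField K] (p : ℕ)
    (S : Finset (Ideal (𝓞 K)))
    (hS : ∀ P ∈ S, P.IsMaximal ∧ (p : 𝓞 K) ∈ P ∧ (p : 𝓞 K) ∉ P ^ 2) :
    ∃ g : 𝓞 K, (∀ P ∈ S, g ∉ P) ∧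
      ∀ a ∈ ∏ P ∈ S, P, a * g ∈ Ideal.span {(p : 𝓞 K)} := by
  classical
  have hco : ((S : Finset (Ideal (𝓞 K))) : Set (Ideal (𝓞 K))).Pairwise
      (Function.onFun IsCoprime (fun P : Ideal (𝓞 K) => P)) := by
    intro P hP Q hQ hPQ
    have hPm := (hS P (Finset.mem_coe.1 hP)).1
    have hQm := (hS Q (Finset.mem_coe.1 hQ)).1
    change IsCoprime P Q
    rw [Ideal.isCoprime_iff_sup_eq]
    exact hPm.coprime_of_ne hQm hPQ
  have hdvd : (∏ P ∈ S, P) ∣ Ideal.span {(p : 𝓞 K)} := by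
    refine Finset.prod_dvd_of_coprime hco fun P hP => ?_
    rw [Ideal.dvd_span_singleton]
    exact (hS P hP).2.1
  obtain ⟨J, hJ⟩ := hdvd
  have hJco : IsCoprime (∏ P ∈ S, P) J := by
    refine IsCoprime.prod_left fun P hP => ?_
    obtain ⟨hPm, -, hP2⟩ := hS P hP
    rw [Ideal.isCoprime_iff_sup_eq]
    by_contra hne
    have h8 : P = P ⊔ J := hPm.eq_of_le hne le_sup_left
    have hJP : J ≤ P := by
      rw [h8]
      exact le_sup_right
    apply hP2
    have h1 : (p : 𝓞 K) ∈ (∏ P ∈ S, P) * J := by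
      rw [← hJ]
      exact Ideal.mem_span_singleton_self _
    have h2 : (∏ P ∈ S, P) * J ≤ P ^ 2 := by
      rw [pow_two]
      refine Ideal.mul_mono ?_ hJP
      exact Ideal.prod_le_inf.trans (Finset.inf_le (f := fun P : Ideal (𝓞 K) => P) hP)
    exact h2 h1
  rw [Ideal.isCoprime_iff_sup_eq] at hJco
  have h9 : (1 : 𝓞 K) ∈ (∏ P ∈ S, P) ⊔ J := by rw [hJco]; trivial
  obtain ⟨u, hu, g, hg, hug⟩ := Submodule.mem_sup.1 h9
  refine ⟨g, fun P hP hgP => ?_, fun a ha => ?_⟩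
  · have h1 : u ∈ P :=
      (Ideal.prod_le_inf.trans (Finset.inf_le (f := fun P : Ideal (𝓞 K) => P) hP)) hu
    have h2 : (1 : 𝓞 K) ∈ P := by
      rw [← hug]
      exact add_mem h1 hgP
    exact (Ideal.ne_top_iff_one P).1 (hS P hP).1.ne_top h2
  · rw [hJ]
    exact Ideal.mul_mem_mul ha hg

theorem rel_idx {K Ω : Type} [Field K] [NumberField K] [Field Ω] [CharZero Ω] [Algebra K Ω]
    [Algebra.IsAlgebraic K Ω] (y : 𝓞 K) (hyu : ¬ IsUnit y)
    (hy : ∀ P : Ideal (𝓞 K), P.IsMaximal → y ∉ P ^ 2) (p : ℕ) (hp : p.Prime)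
    (S : Finset (Ideal (𝓞 K)))
    (hS : ∀ P ∈ S, P.IsMaximal ∧ (p : 𝓞 K) ∈ P ∧ (p : 𝓞 K) ∉ P ^ 2)
    (hgood : ∀ P : Ideal (𝓞 K), P.IsMaximal → (p : 𝓞 K) ∈ P → P ∉ S → y ∉ P →
      ∀ c : 𝓞 K, y - c ^ p ∉ P ^ 2)
    (θ : Ω) (hθ : θ ^ p = algebraMap (𝓞 K) Ω y) :
    ordIdx K θ ≤ ∏ P ∈ S, Ideal.absNorm P := by
  classical
  obtain ⟨g, hgS, hga⟩ := exists_g p S hS
  have hp1 : 1 ≤ p := hp.one_lt.le
  have hpΩ : (p : Ω) ≠ 0 := by exact_mod_cast hp.ne_zero
  obtain ⟨c, hc⟩ := exists_root_mod p hp y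
  have hdeg := finrank_root y hyu hy p hp1 θ hθ
  set ρ : Ω := (θ - algebraMap (𝓞 K) Ω c) ^ (p - 1) / (p : Ω) with hρ
  let φ : 𝓞 K →+ Ω :=
    { toFun := fun r => algebraMap (𝓞 K) Ω (r * g) * ρ
      map_zero' := by rw [zero_mul, map_zero, zero_mul]
      map_add' := fun u v => by rw [add_mul, map_add, add_mul] }
  set T : AddSubgroup Ω := (ordOf K θ).toAddSubgroup ⊔ φ.range with hT
  have hAT : (ordOf K θ).toAddSubgroup ≤ T := le_sup_left
  have hφT : φ.range ≤ T := le_sup_right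
  have hmod : ∀ (r : 𝓞 K), ∀ s ∈ T, algebraMap (𝓞 K) Ω r * s ∈ T := by
    intro r
    have h1 : T ≤ T.comap (AddMonoidHom.mulLeft (algebraMap (𝓞 K) Ω r)) := by
      refine sup_le ?_ ?_
      · intro s hs
        exact hAT ((ordOf K θ).mul_mem (algebraMap_mem_ordOf θ r) hs)
      · rintro _ ⟨s, rfl⟩
        refine hφT ⟨r * s, ?_⟩
        change algebraMap (𝓞 K) Ω (r * s * g) * ρ =
          algebraMap (𝓞 K) Ω r * (algebraMap (𝓞 K) Ω (s * g) * ρ)
        rw [mul_assoc r s g, map_mul, mul_assoc]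
    exact fun s hs => h1 hs
  have hOT : (intOf K⟮θ⟯).toAddSubgroup ≤ T := by
    intro z hz
    obtain ⟨hz1, hz2⟩ := (mem_intOf _ _).1 hz
    refine mem_of_local (K := K) T hmod z (fun P hP => ?_)
    by_cases hex : P ∈ S ∧ y ∉ P
    · obtain ⟨hPS, hbP⟩ := hex
      obtain ⟨-, hpP, hpP2⟩ := hS P hPS
      haveI := hP
      have hP0 : P ≠ ⊥ := Ring.ne_bot_of_isMaximal_of_not_isField inferInstance
        (RingOfIntegers.not_isField K)
      let A := Localization.subalgebra.ofField K P.primeCompl P.primeCompl_le_nonZeroDivisors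
      haveI : IsLocalization.AtPrime A P :=
        Localization.subalgebra.isLocalization_ofField K P.primeCompl
          P.primeCompl_le_nonZeroDivisors
      haveI : IsDiscreteValuationRing A :=
        IsLocalization.AtPrime.isDiscreteValuationRing_of_dedekind_domain (𝓞 K) hP0 A
      haveI : IsScalarTower (𝓞 K) A Ω := by
        refine IsScalarTower.of_algebraMap_eq fun r => ?_
        rw [IsScalarTower.algebraMap_apply (𝓞 K) K Ω]
        rfl
      obtain ⟨π, hπ⟩ := IsDiscreteValuationRing.exists_irreducible A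
      have hpd : π ∣ (p : A) := by
        have h1 := dvd_of_mem (A := A) P hπ hpP
        rwa [map_natCast] at h1
      have hpd2 : ¬ π ^ 2 ∣ (p : A) := by
        have h1 := not_sq_dvd (A := A) P hπ hpP2
        rwa [map_natCast] at h1
      obtain ⟨u, hu⟩ := hpd
      have huu : IsUnit u := by
        by_contra hnu
        have h1 : π ∣ u := by
          have h2 : u ∈ IsLocalRing.maximalIdeal A := (IsLocalRing.mem_maximalIdeal u).2 hnu
          rw [(IsDiscreteValuationRing.irreducible_iff_uniformizer π).1 hπ,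
            Ideal.mem_span_singleton] at h2
          exact h2
        apply hpd2
        rw [hu, pow_two]
        exact mul_dvd_mul_left π h1
      have hass : Associated π (p : A) := ⟨huu.unit, by rw [hu]; rfl⟩
      have hpirr : Irreducible (p : A) := hass.irreducible hπ
      have hbA : IsUnit (algebraMap (𝓞 K) A y) := unit_of_notMem P hbP
      have hcA : (p : A) ∣ algebraMap (𝓞 K) A c ^ p - algebraMap (𝓞 K) A y := by
        rw [← map_pow, ← map_sub]
        exact hass.symm.dvd.trans (dvd_of_mem P hπ (hc P hP hpP))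
      have hθA : θ ^ p = algebraMap A Ω (algebraMap (𝓞 K) A y) := by
        rw [hθ, ← IsScalarTower.algebraMap_apply]
      obtain ⟨w, hw, a, hzwa⟩ := wild_local (A := A) (K := K) p hp hpirr _ _ hbA hcA θ hθA hdeg z
        hz1 hz2.tower_top
      rw [← IsScalarTower.algebraMap_apply, ← hρ] at hzwa
      obtain ⟨r₁, hr₁, hw1⟩ := clearDen (A := A) P θ w hw
      obtain ⟨⟨n, s⟩, h1⟩ := IsLocalization.surj P.primeCompl a
      have h2 : algebraMap (𝓞 K) Ω s * algebraMap A Ω a = algebraMap (𝓞 K) Ω n := by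
        rw [IsScalarTower.algebraMap_apply (𝓞 K) A Ω, ← map_mul, mul_comm, h1,
          ← IsScalarTower.algebraMap_apply]
      refine ⟨r₁ * s * g, ?_, ?_⟩
      · intro h
        rcases hP.isPrime.mem_or_mem h with h3 | h3
        · rcases hP.isPrime.mem_or_mem h3 with h4 | h4
          · exact hr₁ h4
          · exact s.2 h4
        · exact hgS P hPS h3
      · have h3 : algebraMap (𝓞 K) Ω (r₁ * s * g) * z =
            algebraMap (𝓞 K) Ω (s * g) * (algebraMap (𝓞 K) Ω r₁ * w) +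
              algebraMap (𝓞 K) Ω (r₁ * n * g) * ρ := by
          rw [hzwa, map_mul, map_mul, map_mul, map_mul, map_mul, ← h2]
          ring
        rw [h3]
        exact T.add_mem (hAT ((ordOf K θ).mul_mem (algebraMap_mem_ordOf θ _) hw1))
          (hφT ⟨r₁ * n, rfl⟩)
    · obtain ⟨r, hr, hrz⟩ := exists_mul_mem P hP y p hp1 ⟨hy P hP, fun hbP q hq hqp hqP c' => by
        rw [(Nat.prime_dvd_prime_iff_eq hq hp).1 hqp] at hqP ⊢
        exact hgood P hP hqP (fun hPS => hex ⟨hPS, hbP⟩) hbP c'⟩ θ hθ z hz1 hz2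
      exact ⟨r, hr, hAT hrz⟩
  -- the index of `T`
  set I : AddSubgroup (𝓞 K) := Submodule.toAddSubgroup (∏ P ∈ S, P) with hI
  have hIidx : I.index = ∏ P ∈ S, Ideal.absNorm P := by
    have h1 : I.index = Ideal.absNorm (∏ P ∈ S, P) := rfl
    rw [h1, map_prod]
  have hI0 : I.index ≠ 0 := by
    rw [hIidx, Finset.prod_ne_zero_iff]
    intro P hP
    haveI := (hS P hP).1
    have hP0 : P ≠ ⊥ := Ring.ne_bot_of_isMaximal_of_not_isField inferInstance
      (RingOfIntegers.not_isField K)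
    rw [Ne, Ideal.absNorm_eq_zero_iff]
    exact hP0
  have hmain := relIndex_le_of_surj φ I (ordOf K θ).toAddSubgroup T (by
    intro a ha
    obtain ⟨y', hy'⟩ := Ideal.mem_span_singleton'.1 (hga a ha)
    change algebraMap (𝓞 K) Ω (a * g) * ρ ∈ ordOf K θ
    have h1 : algebraMap (𝓞 K) Ω (a * g) * ρ =
        algebraMap (𝓞 K) Ω y' * (θ - algebraMap (𝓞 K) Ω c) ^ (p - 1) := by
      rw [← hy', map_mul, map_natCast, hρ]
      field_simp
    rw [h1]
    exact (ordOf K θ).mul_mem (algebraMap_mem_ordOf θ _) ((ordOf K θ).pow_mem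
      ((ordOf K θ).sub_mem (self_mem_ordOf θ) (algebraMap_mem_ordOf θ _)) _)) (by
    intro z hz
    obtain ⟨w, hw, t, ⟨a, rfl⟩, rfl⟩ := AddSubgroup.mem_sup.1 hz
    exact ⟨a, w, hw, add_comm _ _⟩) hI0
  rw [hIidx] at hmain
  exact (AddSubgroup.relIndex_le_of_le_right hOT hmain.1).trans hmain.2

end Pool.Agent.H33.V6
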