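import Pool.Agent.H11.FR.Ordx
import Pool.Agent.H69.BD.Vidx

/-!
# RadicalLehmer (MP_187c26_nt), all powers: the index in a tower

`x^m = b`, `p ∣ m`, `K = ℚ(y)`, `y ↦ x^p`: `[𝓞_(ℚ(x)) : ℤ[x]] ≤ [𝓞_(ℚ(x)) : 𝓞 K [x]] [𝓞 K : ℤ[y]]^p`.
PROOF. `ℤ[x] ≤ 𝓞 K [x] ≤ O := integers of ℚ(x)` inside `Ω` (`K(x) = ℚ(x)` as sets: `y` generates `K`, `x^p ∈ ℚ(x)`), `AddSubgroup.relIndex_mul_relIndex`. `𝓞 K [x] = ∑_(i < p) 𝓞 K x^i` (`x^p = y ∈ 𝓞 K`) and `ℤ[x] ⊇ ∑_(i < p) ℤ[x^p] x^i`: the map `(𝓞 K)^p → 𝓞 K [x] / ℤ[x]` is surjective with kernel `⊇ ℤ[y]^p`. `relIndex_sup_le` in `Pool/Agent/H11/FR/Gen.lean`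
(`A' = ℤ`.. ) or `relIndex_le_of_surj` (`Pool/Agent/H4/OH/Regular.lean`) may help; the index `idxZ (x^p)` is not `0` (`ordIdx_ne_zero`, `Vidx.lean`: `idxZ_eq_ordIdx`).
-/

set_option autoImplicit false

open NumberField IntermediateField

namespace Pool.Agent.H33.V6

open Pool.Agent.H11.FR Pool.Agent.H69.BD

private theorem hg_mem {Ω : Type} [Field Ω] [CharZero Ω] (K : Type) [Field K] [NumberField K]
    [Algebra K Ω] (y : K) (t : Ω) (hy : algebraMap K Ω y = t) (htop : ℚ⟮y⟯ = ⊤) (k : K) :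
    algebraMap K Ω k ∈ ℚ⟮t⟯ := by
  have h1 : k ∈ ℚ⟮y⟯ := by rw [htop]; exact IntermediateField.mem_top
  have h2 : ℚ⟮y⟯ ≤ ℚ⟮t⟯.comap (IsScalarTower.toAlgHom ℚ K Ω) := by
    rw [IntermediateField.adjoin_le_iff, Set.singleton_subset_iff]
    change algebraMap K Ω y ∈ ℚ⟮t⟯
    rw [hy]
    exact IntermediateField.mem_adjoin_simple_self ℚ t
  exact h2 h1

private theorem hg_int {Ω : Type} [Field Ω] [CharZero Ω] (K : Type) [Field K] [NumberField K]
    [Algebra K Ω] (x : Ω) (hx : ∀ k : K, algebraMap K Ω k ∈ ℚ⟮x⟯) :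
    Pool.Agent.H4.OG.intOf K⟮x⟯ =
      ℚ⟮x⟯.toSubalgebra.toSubring ⊓ (integralClosure ℤ Ω).toSubring := by
  have h1 : ∀ z ∈ K⟮x⟯, z ∈ ℚ⟮x⟯ := by
    let L : IntermediateField K Ω :=
      { ℚ⟮x⟯.toSubfield with algebraMap_mem' := hx }
    have h2 : K⟮x⟯ ≤ L := by
      rw [IntermediateField.adjoin_le_iff, Set.singleton_subset_iff]
      exact IntermediateField.mem_adjoin_simple_self ℚ x
    exact fun z hz => h2 hz
  have h3 : ∀ z ∈ ℚ⟮x⟯, z ∈ K⟮x⟯ := by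
    have h4 : ℚ⟮x⟯ ≤ K⟮x⟯.restrictScalars ℚ := by
      rw [IntermediateField.adjoin_le_iff, Set.singleton_subset_iff]
      exact IntermediateField.mem_adjoin_simple_self K x
    exact fun z hz => h4 hz
  ext z
  constructor
  · intro hz
    obtain ⟨h5, h6⟩ := (Pool.Agent.H4.OG.mem_intOf _ _).1 hz
    exact ⟨h1 z h5, h6⟩
  · rintro ⟨h5, h6⟩
    exact (Pool.Agent.H4.OG.mem_intOf _ _).2 ⟨h3 z h5, h6⟩

theorem idx_tower {Ω : Type} [Field Ω] [CharZero Ω] [Algebra.IsAlgebraic ℚ Ω] (b m p : ℕ)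
    (hb : 1 ≤ b) (hm : 1 ≤ m) (hp : 1 ≤ p) (hpm : p ∣ m) (x : Ω) (hx : x ^ m = (b : Ω))
    (K : Type) [Field K] [NumberField K] [Algebra K Ω] (y : K) (hy : algebraMap K Ω y = x ^ p)
    (htop : ℚ⟮y⟯ = ⊤) : idxZ x ≤ ordIdx K x * idxZ (x ^ p) ^ p := by
  classical
  have hmem : ∀ k : K, algebraMap K Ω k ∈ ℚ⟮x ^ p⟯ := hg_mem K y (x ^ p) hy htop
  have hle : ℚ⟮x ^ p⟯ ≤ ℚ⟮x⟯ := by
    rw [IntermediateField.adjoin_le_iff, Set.singleton_subset_iff]
    exact pow_mem (IntermediateField.mem_adjoin_simple_self ℚ x) p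
  have hint := hg_int K x (fun k => hle (hmem k))
  obtain ⟨q, rfl⟩ := hpm
  have hq : 1 ≤ q := by
    rcases Nat.eq_zero_or_pos q with h | h
    · subst h
      simp at hm
    · exact h
  have hxp : (x ^ p) ^ q = (b : Ω) := by
    rw [← pow_mul]
    exact hx
  have hxK : x ^ (p * q) = algebraMap (𝓞 K) Ω (b : 𝓞 K) := by
    rw [map_natCast]
    exact hx
  have hxQ : (x ^ p) ^ q = algebraMap (𝓞 ℚ) Ω (b : 𝓞 ℚ) := by
    rw [map_natCast]
    exact hxp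
  have hbQ : (b : 𝓞 ℚ) ≠ 0 := by
    have : b ≠ 0 := by omega
    exact_mod_cast this
  -- the index of `ℤ[x ^ p]`
  have hne : idxZ (x ^ p) ≠ 0 := by
    rw [idxZ_eq_ordIdx]
    exact ordIdx_ne_zero hq hbQ hxQ
  have hpi : IsIntegral ℤ (x ^ p) := isIntegral_root hq hxQ
  set Z : Subring Ω := (Algebra.adjoin ℤ ({x} : Set Ω)).toSubring with hZ
  set B : Subring Ω := (Algebra.adjoin ℤ ({x ^ p} : Set Ω)).toSubring with hB
  set O : Subring Ω := ℚ⟮x ^ p⟯.toSubalgebra.toSubring ⊓ (integralClosure ℤ Ω).toSubring with hO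
  have hBO : idxZ (x ^ p) = B.toAddSubgroup.relIndex O.toAddSubgroup := rfl
  have hZadj : ∀ R : Subring Ω, x ∈ R → Z ≤ R := by
    intro R hR z hz
    have hz' : z ∈ Algebra.adjoin ℤ ({x} : Set Ω) := hz
    induction hz' using Algebra.adjoin_induction with
    | mem w hw =>
      rw [Set.mem_singleton_iff] at hw
      rw [hw]
      exact hR
    | algebraMap s =>
      rw [eq_intCast]
      exact intCast_mem _ s
    | add u v _ _ h2 h3 => exact R.add_mem (h2 ‹_›) (h3 ‹_›)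
    | mul u v _ _ h2 h3 => exact R.mul_mem (h2 ‹_›) (h3 ‹_›)
  have hxZ : x ∈ Z := Algebra.self_mem_adjoin_singleton ℤ x
  have hBZ : B ≤ Z := by
    intro z hz
    have hz' : z ∈ Algebra.adjoin ℤ ({x ^ p} : Set Ω) := hz
    have h1 : Algebra.adjoin ℤ ({x ^ p} : Set Ω) ≤ Algebra.adjoin ℤ ({x} : Set Ω) := by
      rw [Algebra.adjoin_le_iff, Set.singleton_subset_iff]
      exact pow_mem (Algebra.self_mem_adjoin_singleton ℤ x) p
    exact h1 hz'
  have h1 : Z ≤ ordOf K x := hZadj _ (self_mem_ordOf x)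
  have h2 : ordOf K x ≤ Pool.Agent.H4.OG.intOf K⟮x⟯ :=
    ordOf_le_intOf (Nat.mul_pos hp hq) hxK
  have h3 : Z.toAddSubgroup.relIndex (ordOf K x).toAddSubgroup *
      (ordOf K x).toAddSubgroup.relIndex (Pool.Agent.H4.OG.intOf K⟮x⟯).toAddSubgroup =
      Z.toAddSubgroup.relIndex (Pool.Agent.H4.OG.intOf K⟮x⟯).toAddSubgroup :=
    AddSubgroup.relIndex_mul_relIndex _ _ _ h1 h2
  have h4 : idxZ x = Z.toAddSubgroup.relIndex (Pool.Agent.H4.OG.intOf K⟮x⟯).toAddSubgroup := by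
    rw [hint]
    rfl
  have h5 : ordIdx K x =
      (ordOf K x).toAddSubgroup.relIndex (Pool.Agent.H4.OG.intOf K⟮x⟯).toAddSubgroup := rfl
  rw [h4, ← h3, ← h5, mul_comm]
  refine Nat.mul_le_mul le_rfl ?_
  -- the covering
  let φ : (Fin p → O.toAddSubgroup) →+ Ω :=
    { toFun := fun w => ∑ i : Fin p, (w i : Ω) * x ^ (i : ℕ)
      map_zero' := by simp
      map_add' := fun v w => by
        rw [← Finset.sum_add_distrib]
        refine Finset.sum_congr rfl fun i _ => ?_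
        simp only [Pi.add_apply, AddSubgroup.coe_add]
        ring }
  let P : AddSubgroup (Fin p → O.toAddSubgroup) :=
    AddSubgroup.pi Set.univ (fun _ => B.toAddSubgroup.addSubgroupOf O.toAddSubgroup)
  have hPidx : P.index = idxZ (x ^ p) ^ p := by
    rw [AddSubgroup.index_pi, Finset.prod_const, Finset.card_univ, Fintype.card_fin]
    rfl
  -- the monomials
  have hmono : ∀ (a : 𝓞 K) (n : ℕ), algebraMap (𝓞 K) Ω a * x ^ n ∈ φ.range := by
    intro a n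
    have hr : n % p < p := Nat.mod_lt _ hp
    have haO : algebraMap (𝓞 K) Ω a * (x ^ p) ^ (n / p) ∈ O := by
      refine O.mul_mem ⟨?_, ?_⟩ (O.pow_mem ⟨?_, ?_⟩ _)
      · have : algebraMap (𝓞 K) Ω a = algebraMap K Ω (a : K) :=
          IsScalarTower.algebraMap_apply (𝓞 K) K Ω a
        rw [this]
        exact hmem _
      · exact isIntegral_algebraMap_int a
      · exact IntermediateField.mem_adjoin_simple_self ℚ (x ^ p)
      · exact hpi
    refine ⟨Pi.single (⟨n % p, hr⟩ : Fin p) ⟨_, haO⟩, ?_⟩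
    change ∑ i : Fin p, ((Pi.single (⟨n % p, hr⟩ : Fin p)
      (⟨_, haO⟩ : O.toAddSubgroup) : Fin p → O.toAddSubgroup) i : Ω) * x ^ (i : ℕ) = _
    rw [Finset.sum_eq_single (⟨n % p, hr⟩ : Fin p)]
    · rw [Pi.single_eq_same]
      change algebraMap (𝓞 K) Ω a * (x ^ p) ^ (n / p) * x ^ (n % p) = _
      rw [mul_assoc, ← pow_mul, ← pow_add, Nat.div_add_mod]
    · intro j _ hj
      rw [Pi.single_eq_of_ne hj]
      simp
    · intro h
      exact absurd (Finset.mem_univ _) h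
  have hcov : ∀ z ∈ ordOf K x, z ∈ φ.range := by
    intro z hz
    have hz' : z ∈ Algebra.adjoin (𝓞 K) ({x} : Set Ω) := hz
    rw [Algebra.adjoin_singleton_eq_range_aeval] at hz'
    obtain ⟨f, rfl⟩ := hz'
    change Polynomial.aeval x f ∈ φ.range
    rw [Polynomial.aeval_eq_sum_range]
    refine AddSubgroup.sum_mem _ fun n _ => ?_
    rw [Algebra.smul_def]
    exact hmono _ _
  have hfin := Pool.Agent.H4.OH.relIndex_le_of_surj φ P Z.toAddSubgroup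
    (ordOf K x).toAddSubgroup ?_ ?_ ?_
  · rw [hPidx] at hfin
    exact hfin.2
  · intro w hw
    change ∑ i : Fin p, (w i : Ω) * x ^ (i : ℕ) ∈ Z
    refine Z.sum_mem fun i _ => Z.mul_mem (hBZ ?_) (Z.pow_mem hxZ _)
    exact hw i (Set.mem_univ i)
  · intro z hz
    obtain ⟨w, hw⟩ := hcov z hz
    exact ⟨w, 0, Z.zero_mem, by rw [hw, add_zero]⟩
  · rw [hPidx]
    exact pow_ne_zero _ hne

end Pool.Agent.H33.V6
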