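import Mathlib

/-!
# RadicalLehmer (MP_187c26_nt), all powers: local conditions

`good_ram`: `y^M = b`, `M = p^j m'`, `p ∤ b`, `p ∈ P^2`, `y^(m') - b ∉ P^2`: `y` is not a `p`-th power modulo `P^2`. PROOF: let `y - c^p ∈ P^2`. `y^(m') - c^(p m') ∈ P^2`. `z := y^(m') - b`: `z^(p^j) ≡ y^M - b^(p^j) = b - b^(p^j) ≡ 0` modulo `p` (`add_pow_char_pow`-type congruence in `𝓞 K ⧸ P`, `b^(p^j) ≡ b` in `ZMod p`), so `z ∈ P`; so `(c^(m'))^p ≡ b ≡ b^p` modulo `P`,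
`(c^(m') - b)^p ∈ P`, `c^(m') - b ∈ P`, `(c^(m') - b)^p ∈ P^p ⊆ P^2`, and `(c^(m') - b)^p ≡ c^(m' p) - b^p` modulo `p ∈ P^2`, `b^p ≡ b` modulo `p ∈ P^2`: `c^(p m') - b ∈ P^2`, so `z ∈ P^2`: contradiction.
`good_unr`: `y^M = b`, `p ∤ b`, `¬ p^2 ∣ b^(p-1) - 1`, `p ∈ P`, `p ∉ P^2`: the same conclusion. PROOF: `y - c^p ∈ P^2`: `b = y^M ≡ d^p` modulo `P^2`, `d = c^M`; `d^p ≡ b ≡ b^p` modulo `P`: `d = b + π`, `π ∈ P`, `d^p ≡ b^p` modulo `P^2` (`add_pow_le..`: `(b + π)^p - b^p = p b^(p-1) π + ..`, `p ∈ P`), so `b^p - b ∈ P^2`; an integer in `P^2` is divisible by `p^2` (as `p ∉ P^2`: `n = p n'` with `n' ∈ P` by primality of the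
ideal: `p n' ∈ P^2`, `p ∉ P^2`, `n' ∉ P` would give `p ∈ P^2`), `b^p - b = b (b^(p-1) - 1)`, `p ∤ b`: `p^2 ∣ b^(p-1) - 1`.
`root_notMem`: `b ≥ 2` squarefree, `y^M = b`, `[K : ℚ] = M`: `y ∉ P^2` for every maximal `P`. PROOF: if `y ∈ P^2` then `b ∈ P^(2M)`, `P` contains a prime number `ℓ ∣ b`, `b = ℓ b'`, `b' ∉ P` (squarefree), so `ℓ ∈ P^(2M)`, `absNorm P ^ (2M) ∣ absNorm (span {ℓ}) = ℓ^M` and `absNorm P ≥ ℓ` (`ℓ ∣ absNorm P`): contradiction as `M ≥ 1`.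
`root_unit`: `y` is not a unit.
-/

set_option autoImplicit false

open NumberField

namespace Pool.Agent.H33.V6

private theorem hh_cop {R : Type} [CommRing R] {P : Ideal R} (hP : P ≠ ⊤) {m n : ℕ} (h : Nat.Coprime m n)
    (hm : (m : R) ∈ P) : (n : R) ∉ P := by
  intro hn
  have h1 : IsCoprime (m : ℤ) (n : ℤ) := Nat.isCoprime_iff_coprime.2 h
  obtain ⟨a, b, hab⟩ := h1
  apply hP
  rw [Ideal.eq_top_iff_one]
  have h2 : ((a : R)) * (m : R) + (b : R) * (n : R) = 1 := by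
    have := congrArg (fun z : ℤ => (z : R)) hab
    push_cast at this
    exact this
  rw [← h2]
  exact P.add_mem (P.mul_mem_left _ hm) (P.mul_mem_left _ hn)

private theorem hh_dvd {R : Type} [CommRing R] {P : Ideal R} (hP : P ≠ ⊤) {p n : ℕ} (hp : p.Prime)
    (hm : (p : R) ∈ P) (hn : (n : R) ∈ P) : p ∣ n := by
  by_contra h
  exact hh_cop hP ((Nat.Prime.coprime_iff_not_dvd hp).2 h) hm hn

private theorem hh_fermat {A : Type} [CommRing A] (p : ℕ) [Fact p.Prime] [CharP A p] (b : ℕ) :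
    (b : A) ^ p = (b : A) := by
  have h1 : ((b : ZMod p)) ^ p = (b : ZMod p) := ZMod.pow_card _
  have h2 := congrArg (ZMod.castHom (dvd_refl p) A) h1
  rw [map_pow, map_natCast] at h2
  exact h2

private theorem hh_fermat_pow {A : Type} [CommRing A] (p : ℕ) [Fact p.Prime] [CharP A p] (b j : ℕ) :
    (b : A) ^ p ^ j = (b : A) := by
  induction j with
  | zero => rw [pow_zero, pow_one]
  | succ j ih => rw [pow_succ, pow_mul, ih, hh_fermat]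

theorem good_ram (p : ℕ) (hp : p.Prime) (b M j m' : ℕ) (hM : M = p ^ j * m') (hpb : ¬ p ∣ b)
    (K : Type) [Field K] [NumberField K] (y : 𝓞 K) (hy : y ^ M = (b : 𝓞 K)) (P : Ideal (𝓞 K))
    (hP : P.IsMaximal) (hp2 : (p : 𝓞 K) ∈ P ^ 2) (hz : y ^ m' - (b : 𝓞 K) ∉ P ^ 2) (c : 𝓞 K) :
    y - c ^ p ∉ P ^ 2 := by
  intro hc
  haveI : Fact p.Prime := ⟨hp⟩
  have hle : P ^ 2 ≤ P := Ideal.pow_le_self two_ne_zero
  have hne : P ^ 2 ≠ ⊤ := fun h => hP.ne_top (top_le_iff.1 (h ▸ hle))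
  haveI : Nontrivial (𝓞 K ⧸ P ^ 2) := Ideal.Quotient.nontrivial_iff.2 hne
  haveI : CharP (𝓞 K ⧸ P ^ 2) p := by
    rw [CharP.charP_iff_prime_eq_zero hp]
    have h1 := Ideal.Quotient.eq_zero_iff_mem.2 hp2
    rwa [map_natCast] at h1
  obtain ⟨f, hf⟩ : ∃ f : 𝓞 K →+* 𝓞 K ⧸ P ^ 2, f = Ideal.Quotient.mk (P ^ 2) := ⟨_, rfl⟩
  have hmem : ∀ x : 𝓞 K, f x = 0 ↔ x ∈ P ^ 2 := fun x => by rw [hf]; exact Ideal.Quotient.eq_zero_iff_mem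
  have e1 : f y = f c ^ p := by
    have h1 := (hmem _).2 hc
    rw [map_sub, map_pow, sub_eq_zero] at h1
    exact h1
  have hfb : f (b : 𝓞 K) = (b : 𝓞 K ⧸ P ^ 2) := map_natCast f b
  have e2 : f (y ^ m' - (b : 𝓞 K)) = f ((c ^ m' - (b : 𝓞 K)) ^ p) := by
    rw [map_sub, map_pow, e1, map_pow, map_sub, map_pow, hfb, sub_pow_char, hh_fermat, ← pow_mul, ← pow_mul,
      mul_comm]
  have e3 : f ((y ^ m' - (b : 𝓞 K)) ^ p ^ j) = 0 := by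
    rw [map_pow, map_sub, sub_pow_char_pow, map_pow, hfb, hh_fermat_pow, ← pow_mul, mul_comm m', ← hM, ← map_pow, hy, hfb,
      sub_self]
  have hPp : P.IsPrime := hP.isPrime
  have e4 : y ^ m' - (b : 𝓞 K) ∈ P := hPp.mem_of_pow_mem _ (hle ((hmem _).1 e3))
  have e5 : (y ^ m' - (b : 𝓞 K)) - (c ^ m' - (b : 𝓞 K)) ^ p ∈ P ^ 2 := by
    rw [← hmem, map_sub, e2, sub_self]
  have e6 : (c ^ m' - (b : 𝓞 K)) ^ p ∈ P := by
    have h1 := P.sub_mem e4 (hle e5)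
    rwa [sub_sub_cancel] at h1
  have e7 : c ^ m' - (b : 𝓞 K) ∈ P := hPp.mem_of_pow_mem _ e6
  have e8 : (c ^ m' - (b : 𝓞 K)) ^ p ∈ P ^ 2 := Ideal.pow_le_pow_right hp.two_le (Ideal.pow_mem_pow e7 p)
  apply hz
  have h1 := (P ^ 2).add_mem e5 e8
  rwa [sub_add_cancel] at h1

theorem good_unr (p : ℕ) (hp : p.Prime) (b M : ℕ) (hM : 1 ≤ M) (hpb : ¬ p ∣ b)
    (hw : ¬ p ^ 2 ∣ b ^ (p - 1) - 1) (K : Type) [Field K] [NumberField K] (y : 𝓞 K)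
    (hy : y ^ M = (b : 𝓞 K)) (P : Ideal (𝓞 K)) (hP : P.IsMaximal) (hp1 : (p : 𝓞 K) ∈ P)
    (hp2 : (p : 𝓞 K) ∉ P ^ 2) (c : 𝓞 K) : y - c ^ p ∉ P ^ 2 := by
  intro hc
  haveI : Fact p.Prime := ⟨hp⟩
  have hPp : P.IsPrime := hP.isPrime
  have hle : P ^ 2 ≤ P := Ideal.pow_le_self two_ne_zero
  haveI : Nontrivial (𝓞 K ⧸ P) := Ideal.Quotient.nontrivial_iff.2 hP.ne_top
  haveI : CharP (𝓞 K ⧸ P) p := by
    rw [CharP.charP_iff_prime_eq_zero hp]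
    have h1 := Ideal.Quotient.eq_zero_iff_mem.2 hp1
    rwa [map_natCast] at h1
  have e1 : (b : 𝓞 K) - (c ^ M) ^ p ∈ P ^ 2 := by
    have h1 : y - c ^ p ∣ y ^ M - (c ^ p) ^ M := sub_dvd_pow_sub_pow _ _ _
    rw [hy, ← pow_mul, mul_comm p, pow_mul] at h1
    exact (P ^ 2).mem_of_dvd h1 hc
  have e2 : (c ^ M - (b : 𝓞 K)) ^ p ∈ P := by
    rw [← Ideal.Quotient.eq_zero_iff_mem, map_pow, map_sub, sub_pow_char, map_natCast, hh_fermat]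
    have h1 := Ideal.Quotient.eq_zero_iff_mem.2 (hle e1)
    rw [map_sub, map_pow, map_natCast] at h1
    rw [← neg_sub, h1, neg_zero]
  have e3 : c ^ M - (b : 𝓞 K) ∈ P := hPp.mem_of_pow_mem _ e2
  obtain ⟨k, hk⟩ := Polynomial.powAddExpansion (b : 𝓞 K) (c ^ M - (b : 𝓞 K)) p
  rw [add_sub_cancel] at hk
  have e4 : (c ^ M) ^ p - (b : 𝓞 K) ^ p ∈ P ^ 2 := by
    have h1 : (c ^ M) ^ p - (b : 𝓞 K) ^ p =
        (b : 𝓞 K) ^ (p - 1) * ((p : 𝓞 K) * (c ^ M - (b : 𝓞 K))) + k * (c ^ M - (b : 𝓞 K)) ^ 2 := by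
      rw [hk]
      ring
    rw [h1]
    refine (P ^ 2).add_mem ((P ^ 2).mul_mem_left _ ?_) ((P ^ 2).mul_mem_left _ (Ideal.pow_mem_pow e3 2))
    rw [pow_two]
    exact Ideal.mul_mem_mul hp1 e3
  have e5 : (b : 𝓞 K) ^ p - (b : 𝓞 K) ∈ P ^ 2 := by
    have h1 := (P ^ 2).neg_mem ((P ^ 2).add_mem e1 e4)
    have h2 : -((b : 𝓞 K) - (c ^ M) ^ p + ((c ^ M) ^ p - (b : 𝓞 K) ^ p)) = (b : 𝓞 K) ^ p - (b : 𝓞 K) := by ring
    rwa [h2] at h1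
  have hb0 : 1 ≤ b := by
    rcases Nat.eq_zero_or_pos b with h0 | h0
    · exact absurd (h0 ▸ dvd_zero p) hpb
    · exact h0
  have hb1 : 1 ≤ b ^ (p - 1) := Nat.one_le_pow _ _ hb0
  obtain ⟨n, hn⟩ : ∃ n : ℕ, n = b * (b ^ (p - 1) - 1) := ⟨_, rfl⟩
  have e6 : (n : 𝓞 K) ∈ P ^ 2 := by
    have h1 : (n : 𝓞 K) = (b : 𝓞 K) ^ p - (b : 𝓞 K) := by
      rw [hn, Nat.cast_mul, Nat.cast_sub hb1, Nat.cast_pow, Nat.cast_one, mul_sub, mul_one, ← pow_succ',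
        Nat.sub_add_cancel hp.one_le]
    rw [h1]
    exact e5
  obtain ⟨n', hn'⟩ := hh_dvd hP.ne_top hp hp1 (hle e6)
  have e7 : (n' : 𝓞 K) * (p : 𝓞 K) ∈ P ^ 2 := by
    rw [hn', Nat.cast_mul, mul_comm] at e6
    exact e6
  have e8 : (n' : 𝓞 K) ∈ P := by
    rcases Ideal.IsPrime.mul_mem_pow P e7 with h1 | h1
    · exact h1
    · exact absurd h1 hp2
  obtain ⟨n'', hn''⟩ := hh_dvd hP.ne_top hp hp1 e8
  apply hw
  have h9 : p ^ 2 ∣ b * (b ^ (p - 1) - 1) := ⟨n'', by rw [← hn, hn', hn'']; ring⟩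
  exact (Nat.Coprime.pow_left 2 ((Nat.Prime.coprime_iff_not_dvd hp).2 hpb)).dvd_of_dvd_mul_left h9

theorem root_notMem (b M : ℕ) (hb : 2 ≤ b) (hs : Squarefree b) (hM : 1 ≤ M) (K : Type) [Field K]
    [NumberField K] (hK : Module.finrank ℚ K = M) (y : 𝓞 K) (hy : y ^ M = (b : 𝓞 K))
    (P : Ideal (𝓞 K)) (hP : P.IsMaximal) : y ∉ P ^ 2 := by
  intro hyP
  have hPp : P.IsPrime := hP.isPrime
  have e1 : (b : 𝓞 K) ∈ P ^ (2 * M) := by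
    rw [← hy, pow_mul]
    exact Ideal.pow_mem_pow hyP M
  have hM0 : 2 * M ≠ 0 := by omega
  have e2 : (b : 𝓞 K) ∈ P := Ideal.pow_le_self hM0 e1
  have e3 : ∃ l ∈ b.primeFactors, (l : 𝓞 K) ∈ P := by
    rw [← Nat.prod_primeFactors_of_squarefree hs, Nat.cast_prod] at e2
    exact Ideal.IsPrime.prod_mem_iff.1 e2
  obtain ⟨l, hl, hlP⟩ := e3
  have hlp : l.Prime := Nat.prime_of_mem_primeFactors hl
  obtain ⟨b', hb'⟩ := Nat.dvd_of_mem_primeFactors hl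
  have hcop : Nat.Coprime l b' := by
    rw [hb'] at hs
    exact Nat.coprime_of_squarefree_mul hs
  have e4 : (b' : 𝓞 K) ∉ P := hh_cop hP.ne_top hcop hlP
  have e5 : (l : 𝓞 K) ∈ P ^ (2 * M) := by
    rw [hb', Nat.cast_mul, mul_comm (l : 𝓞 K)] at e1
    rcases Ideal.IsPrime.mul_mem_pow P e1 with h1 | h1
    · exact absurd h1 e4
    · exact h1
  have e6 : Ideal.absNorm (P ^ (2 * M)) ∣ Ideal.absNorm (Ideal.span {(l : 𝓞 K)}) := by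
    apply Ideal.absNorm_dvd_absNorm_of_le
    rw [Ideal.span_singleton_le_iff_mem]
    exact e5
  have e7 : Ideal.absNorm (Ideal.span {(l : 𝓞 K)}) = l ^ M := by
    rw [Ideal.absNorm_span_natCast, NumberField.RingOfIntegers.rank, hK]
  rw [e7, map_pow] at e6
  have e8 : l ∣ Ideal.absNorm P := hh_dvd hP.ne_top hlp hlP (Ideal.absNorm_mem P)
  have e9 : l ^ (2 * M) ∣ l ^ M := (pow_dvd_pow_of_dvd e8 _).trans e6
  have e10 := (Nat.pow_dvd_pow_iff_le_right hlp.one_lt).1 e9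
  omega

theorem root_unit (b M : ℕ) (hb : 2 ≤ b) (K : Type) [Field K] [NumberField K] (y : 𝓞 K)
    (hy : y ^ M = (b : 𝓞 K)) : ¬ IsUnit y := by
  intro hu
  have h1 : IsUnit (b : 𝓞 K) := hy ▸ hu.pow M
  obtain ⟨l, hl, hlb⟩ := Nat.exists_prime_and_dvd (by omega : b ≠ 1)
  have h2 : IsUnit (l : 𝓞 K) := isUnit_of_dvd_unit (by exact_mod_cast (Nat.cast_dvd_cast hlb : (l : 𝓞 K) ∣ (b : 𝓞 K))) h1
  have h3 : Ideal.span {(l : 𝓞 K)} = ⊤ := Ideal.span_singleton_eq_top.2 h2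
  have h4 : Ideal.absNorm (Ideal.span {(l : 𝓞 K)}) = l ^ Module.finrank ℚ K := by
    rw [Ideal.absNorm_span_natCast, NumberField.RingOfIntegers.rank]
  rw [h3, Ideal.absNorm_top] at h4
  have h5 : 0 < Module.finrank ℚ K := Module.finrank_pos
  have h6 : 1 < l ^ Module.finrank ℚ K := Nat.one_lt_pow h5.ne' hl.one_lt
  omega

end Pool.Agent.H33.V6
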