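import Pool.Agent.H33.V6.Hc
import Pool.Agent.H33.V6.He
import Pool.Agent.H33.V6.Hf
import Pool.Agent.H33.V6.Hg
import Pool.Agent.H33.V6.Hh

/-!
# RadicalLehmer (MP_187c26_nt), all powers: the index bound

`b ≥ 2` squarefree, `x^m = b`. `rel_bd`: `K = ℚ(y)`, `[K : ℚ] = M`, `y^M = b`, `θ^p = y`: `ordIdx K θ ≤ p^(2 m')`, `m'` the part of `M` prime to `p`; and `ordIdx K θ = 1` if `p ∣ b` or `¬ p^2 ∣ b^(p-1) - 1`.
PROOF of `rel_bd`: if `p ∣ b` then `y ∈ P` for all `P` above `p` (`b ∈ P`), `S = ∅`, `hgood` is vacuous, `ordIdx ≤ 1`. `p ∤ b`: `S := ` all maximal `P` with `p ∈ P`, `p ∉ P^2` (finite), `rel_idx` with `root_notMem`, `root_unit`; `hgood`: `P ∉ S`: `p ∈ P^2`; `y ∉ P`, so `p ∤ b` (`p ∣ b` gives `y^M ∈ P`); `in1`, `good_ram`. Then `in2a`, `in2b` with `L`, `τ₀`, `Q` from `above` (for any maximal `P` above `p`). PROOF of `rel_one`: `S = ∅`, `hgood` by `in1`, `good_ram` or `good_unr`.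
`idx_all`: `log (idxZ x) ≤ m ∑_(p ∈ W) 4 (log p) / p` if `¬ p^2 ∣ b^(p-1) - 1` for all primes `p ∣ m`, `p ∉ W`. PROOF: strong induction on `m` for `log (idxZ x) ≤ m ∑_(p ∈ W) 2 (∑_(j = 1)^(v_p(m)) p^(-j)) log p` (`∑_(j ≥ 1) p^(-j) = 1/(p-1) ≤ 2/p`): `m = 1`: `x = b`, `idxZ x = 1` (`Vidx.lean`: `idxZ_bound` with `m = 1`, `W = ∅`, gives `log ≤ 0`).
`p ∣ m` prime: `K := ℚ⟮x^p⟯` (`NumberField`; `[K : ℚ] = m / p` by `minpoly_rad`), `idx_tower`, `log (idxZ x) ≤ log (ordIdx K x) + p log (idxZ (x^p))`, the induction hypothesis for `x^p`, `m / p`; `p ∈ W`: `log (ordIdx K x) ≤ 2 m' log p`, `m' = m / p^(v_p(m))`, the part of `m / p` prime to `p`. `p ∉ W`: `ordIdx K x ≤ 1`.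
(`idxZ`, `ordIdx` may be `0` a priori: `Real.log 0 = 0`; use `Nat.pos_of_ne_zero` or monotonicity on `max`; `idxZ_eq_ordIdx`, `ordIdx_ne_zero`.)
-/

set_option autoImplicit false

open NumberField IntermediateField

namespace Pool.Agent.H33.V6

open Pool.Agent.H11.FR Pool.Agent.H69.BD

/-- maximal ideals above `p` -/
private theorem hi_fin {K : Type} [Field K] [NumberField K] (p : ℕ) (hp : p.Prime) :
    {P : Ideal (𝓞 K) | P.IsMaximal ∧ (p : 𝓞 K) ∈ P ∧ (p : 𝓞 K) ∉ P ^ 2}.Finite := by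
  have hpne : (p : 𝓞 K) ≠ 0 := by exact_mod_cast hp.ne_zero
  have hne : Ideal.span {(p : 𝓞 K)} ≠ 0 := by
    rw [Ne, Ideal.zero_eq_bot, Ideal.span_singleton_eq_bot]
    exact hpne
  refine ((Ideal.finite_factors hne).image
    (fun v : IsDedekindDomain.HeightOneSpectrum (𝓞 K) => v.asIdeal)).subset ?_
  rintro P ⟨hP, h1, -⟩
  have hP0 : P ≠ ⊥ := Ring.ne_bot_of_isMaximal_of_not_isField hP (RingOfIntegers.not_isField K)
  refine ⟨⟨P, hP.isPrime, hP0⟩, ?_, rfl⟩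
  change P ∣ Ideal.span {(p : 𝓞 K)}
  rw [Ideal.dvd_span_singleton]
  exact h1

private theorem hi_mem_of_dvd {K : Type} [Field K] [NumberField K] {p b M : ℕ} {y : 𝓞 K}
    (hpb : p ∣ b) (hy : y ^ M = (b : 𝓞 K)) {P : Ideal (𝓞 K)} (hP : P.IsMaximal)
    (hpP : (p : 𝓞 K) ∈ P) : y ∈ P := by
  obtain ⟨k, hk⟩ := hpb
  refine hP.isPrime.mem_of_pow_mem M ?_
  rw [hy, hk, Nat.cast_mul]
  exact P.mul_mem_right _ hpP

private theorem hi_pos {p M j m' : ℕ} (hp : p.Prime) (hM : M = p ^ j * m') (hm' : ¬ p ∣ m') :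
    1 ≤ M := by
  rw [hM]
  have h1 : m' ≠ 0 := by
    rintro rfl
    exact hm' (dvd_zero p)
  exact Nat.pos_of_ne_zero (mul_ne_zero (pow_ne_zero _ hp.ne_zero) h1)

private theorem hi_log {a c d e p : ℕ} (h : a ≤ c * d ^ p) (h2 : c ≤ e) :
    Real.log a ≤ Real.log e + p * Real.log d := by
  rcases Nat.eq_zero_or_pos a with h0 | h0
  · rw [h0, Nat.cast_zero, Real.log_zero]
    exact add_nonneg (Real.log_natCast_nonneg _)
      (mul_nonneg (Nat.cast_nonneg _) (Real.log_natCast_nonneg _))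
  · have h3 : 0 < c * d ^ p := h0.trans_le h
    have hc : 0 < c := Nat.pos_of_mul_pos_right h3
    have hd : 0 < d ^ p := Nat.pos_of_mul_pos_left h3
    have h4 : Real.log a ≤ Real.log ((c * d ^ p : ℕ) : ℝ) :=
      Real.log_le_log (by exact_mod_cast h0) (by exact_mod_cast h)
    rw [Nat.cast_mul, Nat.cast_pow, Real.log_mul (by exact_mod_cast hc.ne')
      (by exact_mod_cast hd.ne'), Real.log_pow] at h4
    have h5 : Real.log c ≤ Real.log e :=
      Real.log_le_log (by exact_mod_cast hc) (by exact_mod_cast h2)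
    linarith

theorem rel_bd (b : ℕ) (hb : 2 ≤ b) (hs : Squarefree b) (p : ℕ) (hp : p.Prime) (M j m' : ℕ)
    (hM : M = p ^ j * m') (hm' : ¬ p ∣ m') {K Ω : Type} [Field K] [NumberField K] [Field Ω]
    [CharZero Ω] [Algebra K Ω] [Algebra.IsAlgebraic K Ω] (hK : Module.finrank ℚ K = M)
    (y : 𝓞 K) (hy : y ^ M = (b : 𝓞 K)) (htop : ℚ⟮(y : K)⟯ = ⊤) (θ : Ω)
    (hθ : θ ^ p = algebraMap (𝓞 K) Ω y) : ordIdx K θ ≤ p ^ (2 * m') := by
  have hM1 := hi_pos hp hM hm'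
  have hyu : ¬ IsUnit y := root_unit b M hb K y hy
  have hy2 : ∀ P : Ideal (𝓞 K), P.IsMaximal → y ∉ P ^ 2 := fun P hP =>
    root_notMem b M hb hs hM1 K hK y hy P hP
  by_cases hpb : p ∣ b
  · have h := rel_idx y hyu hy2 p hp ∅ (fun P hP => absurd hP (Finset.notMem_empty P))
      (fun P hP hpP _ hyP => absurd (hi_mem_of_dvd hpb hy hP hpP) hyP) θ hθ
    rw [Finset.prod_empty] at h
    exact h.trans (Nat.one_le_pow _ _ hp.pos)
  · have hfin := hi_fin (K := K) p hp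
    have hmem : ∀ P : Ideal (𝓞 K), P ∈ hfin.toFinset ↔
        P.IsMaximal ∧ (p : 𝓞 K) ∈ P ∧ (p : 𝓞 K) ∉ P ^ 2 := fun P => by
      rw [Set.Finite.mem_toFinset]
      rfl
    have h := rel_idx y hyu hy2 p hp hfin.toFinset (fun P hP => (hmem P).1 hP)
      (fun P hP hpP hPS hyP c => by
        have hp2 : (p : 𝓞 K) ∈ P ^ 2 := by
          by_contra h2
          exact hPS ((hmem P).2 ⟨hP, hpP, h2⟩)
        exact good_ram p hp b M j m' hM hpb K y hy P hP hp2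
          (in1 p hp b M j m' hM hm' hpb K y hy htop P hP hp2) c) θ hθ
    refine h.trans ?_
    rcases hfin.toFinset.eq_empty_or_nonempty with he | ⟨P₀, hP₀⟩
    · rw [he, Finset.prod_empty]
      exact Nat.one_le_pow _ _ hp.pos
    · obtain ⟨hP₀m, hpP₀, -⟩ := (hmem P₀).1 hP₀
      obtain ⟨L, iL1, iL2, iL3, τ, Q, hQ, hQP⟩ := above P₀ hP₀m
      have hpQ : (p : 𝓞 L) ∈ Q := by
        rw [← hQP, Ideal.mem_comap, map_natCast] at hpP₀
        exact hpP₀
      refine (in2a p hp K L τ Q hQ hpQ hfin.toFinset (fun P hP => (hmem P).1 hP)).trans ?_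
      exact Nat.pow_le_pow_right hp.pos (in2b p hp b M j m' hM hm' hpb K y hy htop L Q hQ hpQ)

theorem rel_one (b : ℕ) (hb : 2 ≤ b) (hs : Squarefree b) (p : ℕ) (hp : p.Prime) (M j m' : ℕ)
    (hM : M = p ^ j * m') (hm' : ¬ p ∣ m') (hw : ¬ p ^ 2 ∣ b ^ (p - 1) - 1) {K Ω : Type} [Field K]
    [NumberField K] [Field Ω] [CharZero Ω] [Algebra K Ω] [Algebra.IsAlgebraic K Ω]
    (hK : Module.finrank ℚ K = M) (y : 𝓞 K) (hy : y ^ M = (b : 𝓞 K)) (htop : ℚ⟮(y : K)⟯ = ⊤)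
    (θ : Ω) (hθ : θ ^ p = algebraMap (𝓞 K) Ω y) : ordIdx K θ ≤ 1 := by
  have hM1 := hi_pos hp hM hm'
  have hyu : ¬ IsUnit y := root_unit b M hb K y hy
  have hy2 : ∀ P : Ideal (𝓞 K), P.IsMaximal → y ∉ P ^ 2 := fun P hP =>
    root_notMem b M hb hs hM1 K hK y hy P hP
  have h := rel_idx y hyu hy2 p hp ∅ (fun P hP => absurd hP (Finset.notMem_empty P))
    (fun P hP hpP _ hyP c => by
      by_cases hpb : p ∣ b
      · exact absurd (hi_mem_of_dvd hpb hy hP hpP) hyP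
      · by_cases hp2 : (p : 𝓞 K) ∈ P ^ 2
        · exact good_ram p hp b M j m' hM hpb K y hy P hP hp2
            (in1 p hp b M j m' hM hm' hpb K y hy htop P hP hp2) c
        · exact good_unr p hp b M hM1 hpb hw K y hy P hP hpP hp2 c) θ hθ
  rwa [Finset.prod_empty] at h

/-- the bound in the form which is good for the induction -/
private theorem idx_bdd {Ω : Type} [Field Ω] [CharZero Ω] [Algebra.IsAlgebraic ℚ Ω] (b : ℕ)
    (hb : 2 ≤ b) (hs : Squarefree b) (W : Finset ℕ) (hW : ∀ p ∈ W, p.Prime) (m : ℕ) (hm : 1 ≤ m)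
    (hgood : ∀ p : ℕ, p.Prime → p ∣ m → p ∉ W → ¬ p ^ 2 ∣ b ^ (p - 1) - 1)
    (x : Ω) (hx : x ^ m = (b : Ω)) :
    Real.log (idxZ x) ≤ ∑ q ∈ W, 2 * ((m : ℝ) - ((ordCompl[q] m : ℕ) : ℝ)) / (q - 1) *
      Real.log q := by
  induction m using Nat.strong_induction_on generalizing x with
  | _ m ih =>
  rcases Nat.eq_or_lt_of_le hm with h1 | h1
  · subst h1
    have h2 := idxZ_bound b 1 hb hs le_rfl ∅ (fun p hp => absurd hp (Finset.notMem_empty p))
      (fun p hp hp1 => absurd (Nat.dvd_one.1 hp1) hp.one_lt.ne') x hx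
    rw [Finset.sum_empty, Nat.cast_one, div_one] at h2
    refine h2.trans (Finset.sum_nonneg fun q hq => ?_)
    have hq2 : (2 : ℝ) ≤ q := by exact_mod_cast (hW q hq).two_le
    have h3 : ordCompl[q] 1 = 1 := by simp
    rw [h3]
    simp
  · set p := m.minFac with hpdef
    have hp : p.Prime := Nat.minFac_prime (by omega)
    obtain ⟨m₁, hm₁⟩ : p ∣ m := Nat.minFac_dvd m
    have hm₁0 : m₁ ≠ 0 := by
      rintro rfl
      omega
    have hlt : m₁ < m := by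
      rw [hm₁]
      have := hp.two_le
      nlinarith [Nat.pos_of_ne_zero hm₁0]
    have hx₁ : (x ^ p) ^ m₁ = (b : Ω) := by rw [← pow_mul, ← hm₁, hx]
    have hgood₁ : ∀ q : ℕ, q.Prime → q ∣ m₁ → q ∉ W → ¬ q ^ 2 ∣ b ^ (q - 1) - 1 :=
      fun q hq hqm hqW => hgood q hq (hm₁ ▸ Dvd.dvd.mul_left hqm p) hqW
    have hih := ih m₁ hlt (Nat.pos_of_ne_zero hm₁0) hgood₁ (x ^ p) hx₁
    -- the field `ℚ(x ^ p)`
    have hxi := integral_rad b m₁ (Nat.pos_of_ne_zero hm₁0) (x ^ p) hx₁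
    have : FiniteDimensional ℚ ℚ⟮x ^ p⟯ := adjoin.finiteDimensional hxi
    have : NumberField ℚ⟮x ^ p⟯ := {}
    have hrank : Module.finrank ℚ ℚ⟮x ^ p⟯ = m₁ := by
      rw [adjoin.finrank hxi, minpoly_rad b m₁ hb hs (Nat.pos_of_ne_zero hm₁0) (x ^ p) hx₁,
        Polynomial.natDegree_X_pow_sub_C]
    have htop : ℚ⟮AdjoinSimple.gen ℚ (x ^ p)⟯ = ⊤ := by
      have h2 := (adjoin.powerBasis hxi).adjoin_gen_eq_top
      rw [adjoin.powerBasis_gen] at h2
      refine (adjoin_simple_eq_top_iff_of_isAlgebraic ?_).2 h2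
      exact Algebra.IsAlgebraic.isAlgebraic _
    have hgen : (AdjoinSimple.gen ℚ (x ^ p)) ^ m₁ = (b : ℚ⟮x ^ p⟯) := by
      apply Subtype.ext
      push_cast
      exact hx₁
    have hint : IsIntegral ℤ (AdjoinSimple.gen ℚ (x ^ p)) := by
      refine IsIntegral.of_pow (Nat.pos_of_ne_zero hm₁0) ?_
      rw [hgen]
      simpa using isIntegral_algebraMap (R := ℤ) (A := ℚ⟮x ^ p⟯) (x := (b : ℤ))
    set y : 𝓞 ℚ⟮x ^ p⟯ := ⟨AdjoinSimple.gen ℚ (x ^ p), hint⟩ with hydef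
    have hy : y ^ m₁ = (b : 𝓞 ℚ⟮x ^ p⟯) := by
      apply FaithfulSMul.algebraMap_injective (𝓞 ℚ⟮x ^ p⟯) ℚ⟮x ^ p⟯
      rw [map_pow, map_natCast]
      exact hgen
    have hyK : ((y : 𝓞 ℚ⟮x ^ p⟯) : ℚ⟮x ^ p⟯) = AdjoinSimple.gen ℚ (x ^ p) := rfl
    have hθ : x ^ p = algebraMap (𝓞 ℚ⟮x ^ p⟯) Ω y := by
      rw [IsScalarTower.algebraMap_apply (𝓞 ℚ⟮x ^ p⟯) ℚ⟮x ^ p⟯ Ω]
      rfl
    have : Algebra.IsAlgebraic ℚ⟮x ^ p⟯ Ω := Algebra.IsAlgebraic.tower_top (K := ℚ) _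
    have htower := idx_tower b m p (by omega) hm hp.one_lt.le ⟨m₁, hm₁⟩ x hx ℚ⟮x ^ p⟯
      (AdjoinSimple.gen ℚ (x ^ p)) rfl htop
    -- the part of `m₁` prime to `p`
    have hM : m₁ = p ^ m₁.factorization p * ordCompl[p] m₁ :=
      (Nat.ordProj_mul_ordCompl_eq_self m₁ p).symm
    have hm' : ¬ p ∣ ordCompl[p] m₁ := Nat.not_dvd_ordCompl hp hm₁0
    have hfac : m.factorization = Finsupp.single p 1 + m₁.factorization := by
      rw [hm₁, Nat.factorization_mul hp.ne_zero hm₁0, hp.factorization]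
    have hsame : ordCompl[p] m = ordCompl[p] m₁ := by
      rw [hfac, Finsupp.add_apply, Finsupp.single_eq_same, pow_add, pow_one, hm₁,
        Nat.mul_div_mul_left _ _ hp.pos]
    have hother : ∀ q : ℕ, q ≠ p → ordCompl[q] m = p * ordCompl[q] m₁ := by
      intro q hq
      rw [hfac, Finsupp.add_apply, Finsupp.single_eq_of_ne hq,
        zero_add, hm₁, Nat.mul_div_assoc _ (Nat.ordProj_dvd m₁ q)]
    -- the sum
    by_cases hpW : p ∈ W
    · have hrel := rel_bd b hb hs p hp m₁ (m₁.factorization p) (ordCompl[p] m₁) hM hm' hrank y hy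
        (by rw [hyK]; exact htop) x hθ
      have hl := hi_log htower hrel
      refine hl.trans ?_
      have h2 : (p : ℝ) * Real.log (idxZ (x ^ p)) ≤ p * ∑ q ∈ W, 2 * ((m₁ : ℝ) -
          ((ordCompl[q] m₁ : ℕ) : ℝ)) / (q - 1) * Real.log q :=
        mul_le_mul_of_nonneg_left hih (Nat.cast_nonneg _)
      refine (add_le_add_right h2 _).trans (le_of_eq ?_)
      rw [← Finset.add_sum_erase W _ hpW, ← Finset.add_sum_erase W _ hpW, mul_add, ← add_assoc,
        Finset.mul_sum]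
      refine congrArg₂ (· + ·) ?_ (Finset.sum_congr rfl fun q hq => ?_)
      · rw [hsame, Nat.cast_pow, Real.log_pow]
        have hp1 : ((p : ℝ) - 1) ≠ 0 := by
          have : (2 : ℝ) ≤ p := by exact_mod_cast hp.two_le
          intro h
          linarith
        have hmc : (m : ℝ) = p * m₁ := by
          rw [hm₁]
          push_cast
          rfl
        rw [hmc]
        push_cast
        field_simp
        ring
      · rw [hother q (Finset.ne_of_mem_erase hq)]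
        have hmc : (m : ℝ) = p * m₁ := by
          rw [hm₁]
          push_cast
          rfl
        rw [hmc]
        push_cast
        ring
    · have hw := hgood p hp ⟨m₁, hm₁⟩ hpW
      have hrel := rel_one b hb hs p hp m₁ (m₁.factorization p) (ordCompl[p] m₁) hM hm' hw hrank
        y hy (by rw [hyK]; exact htop) x hθ
      have hl := hi_log htower hrel
      rw [Nat.cast_one, Real.log_one, zero_add] at hl
      refine hl.trans ?_
      have h2 : (p : ℝ) * Real.log (idxZ (x ^ p)) ≤ p * ∑ q ∈ W, 2 * ((m₁ : ℝ) -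
          ((ordCompl[q] m₁ : ℕ) : ℝ)) / (q - 1) * Real.log q :=
        mul_le_mul_of_nonneg_left hih (Nat.cast_nonneg _)
      refine h2.trans (le_of_eq ?_)
      rw [Finset.mul_sum]
      refine Finset.sum_congr rfl fun q hq => ?_
      have hqp : q ≠ p := by
        rintro rfl
        exact hpW hq
      rw [hother q hqp]
      have hmc : (m : ℝ) = p * m₁ := by
        rw [hm₁]
        push_cast
        rfl
      rw [hmc]
      push_cast
      ring

theorem idx_all {Ω : Type} [Field Ω] [CharZero Ω] [Algebra.IsAlgebraic ℚ Ω] (b : ℕ) (hb : 2 ≤ b)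
    (hs : Squarefree b) (W : Finset ℕ) (hW : ∀ p ∈ W, p.Prime) (m : ℕ) (hm : 1 ≤ m)
    (hgood : ∀ p : ℕ, p.Prime → p ∣ m → p ∉ W → ¬ p ^ 2 ∣ b ^ (p - 1) - 1)
    (x : Ω) (hx : x ^ m = (b : Ω)) :
    Real.log (idxZ x) ≤ m * ∑ p ∈ W, 4 * Real.log p / p := by
  have key := idx_bdd b hb hs W hW m hm hgood x hx
  refine key.trans ?_
  rw [Finset.mul_sum]
  refine Finset.sum_le_sum fun q hq => ?_
  have hq2 : (2 : ℝ) ≤ q := by exact_mod_cast (hW q hq).two_le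
  have h1 : (0 : ℝ) ≤ ((ordCompl[q] m : ℕ) : ℝ) := Nat.cast_nonneg _
  have hlog : 0 ≤ Real.log q := Real.log_natCast_nonneg q
  have hm0 : (0 : ℝ) ≤ m := Nat.cast_nonneg m
  have h2 : 2 * ((m : ℝ) - ((ordCompl[q] m : ℕ) : ℝ)) / (q - 1) ≤ m * (4 / q) := by
    rw [div_le_iff₀ (by linarith)]
    have h3 : (m : ℝ) * (4 / q) * (q - 1) = m * (4 * (q - 1) / q) := by ring
    rw [h3]
    have h4 : (2 : ℝ) ≤ 4 * (q - 1) / q := by
      rw [le_div_iff₀ (by linarith)]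
      linarith
    nlinarith [mul_le_mul_of_nonneg_left h4 hm0]
  calc 2 * ((m : ℝ) - ((ordCompl[q] m : ℕ) : ℝ)) / (q - 1) * Real.log q
      ≤ m * (4 / q) * Real.log q := mul_le_mul_of_nonneg_right h2 hlog
    _ = m * (4 * Real.log q / q) := by ring

end Pool.Agent.H33.V6
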