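import Pool.Agent.H33.V6.Lt
import Pool.Agent.H33.V6.Bl
import Pool.Agent.H33.V6.Gd

/-!
# RadicalLehmer, version 6 (MP_187c26_nt): the bound for `A(x)`-subspaces and the twisted lattice

MODEL: `fboundA` in `Pool/Agent/H36/LF/NfA.lean` (copy `disc_abs`, `fb`, `fboundA` and change). Imports may be sorried (`cond_main`, `lc_bd`, `lat_LC`, `lc_mul`, `prod_emb`, `prod_norm`, `gd_ph_geC`).
PROOF. `F := A⟮x⟯`, `h`, `f₀` of `cond_main`, `ν := Algebra.norm ℚ f₀ ≠ 0`. In `fb` (for `F = A⟮x⟯` itself) the module `N'` of all `y ∈ LC A x a K N` in `U` (an `𝓞 F`-module: `lc_mul`), `z` a `ℤ`-basis, `u` of `loc_free`. `det_loc` with `B s := max 1 (v (t s a))^K * (v (t s f₀) ^ (N/h))⁻¹` (real power): `v (t s (u j)) ≤ B s` is the `h`-th root of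
`lc_bd` (`v (t s f₀) > 0`). `∏_s B s = (∏_s max ..^K) ((∏_s v (t s f₀))^(N/h))⁻¹`, `∏_s v (t s f₀) = v (∏_s t s f₀) = v ((∏_i σ i f₀)^k) = v(ν)^k` (`prod_emb`: every `z c` is an `F`-combination of the `u j`: `loc_free` gives `n' • z c = ∑ f j • u j`, `n' ≠ 0`; `prod_norm`).
So `c := N k / h` in `gd_ph_geC`: `|disc F|^k |ν|^(-2 N k/h) m^(-r) exp (-2 K r h(a)) ≤ vl`, `r = e m k`, and `log |ν| ≤ h e m (2 ι + log b)`: the additional loss is `log vl / 2 ≥ .. - (N k / h) log |ν| ≥ .. - N k e m (2 ι + log b)`, `e m k = e dim_A U`.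
-/

set_option autoImplicit false

open Polynomial NumberField IntermediateField

namespace Pool.Agent.H33.V6

open Pool.Agent.H36.LE Pool.Agent.H36.LF Pool.Agent.H36.LH

/-- the determinant of a basis of the integers and the discriminant -/
private theorem disc_abs {F M : Type} [Field F] [NumberField F] [Field M] [NumberField M] {m : ℕ}
    (σ : Fin m ≃ (F →+* M)) (hm : Module.finrank ℚ F = m) (ω : Module.Basis (Fin m) ℤ (𝓞 F))
    (φ : M →+* ℂ) :
    ‖φ (Matrix.of fun i j => σ i (ω j : F)).det‖ ^ 2 = |(NumberField.discr F : ℝ)| := by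
  classical
  have hb : Function.Bijective (fun i : Fin m => ((φ.comp (σ i)).toRatAlgHom : F →ₐ[ℚ] ℂ)) := by
    rw [Fintype.bijective_iff_injective_and_card]
    constructor
    · intro i j hij
      apply σ.injective
      ext y
      have h1 := congrArg (fun g : F →ₐ[ℚ] ℂ => g y) hij
      exact φ.injective h1
    · rw [Fintype.card_fin, AlgHom.card, hm]
  obtain ⟨e, he⟩ : ∃ e : Fin m ≃ (F →ₐ[ℚ] ℂ), ∀ i y, e i y = φ (σ i y) :=
    ⟨Equiv.ofBijective _ hb, fun i y => rfl⟩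
  have h1 := Algebra.discr_eq_det_embeddingsMatrixReindex_pow_two ℚ ℂ (fun j => (ω j : F)) e
  have h2 : Algebra.discr ℚ (fun j => (ω j : F)) = (NumberField.discr F : ℚ) := by
    have h3 := Algebra.discr_localizationLocalization ℤ (nonZeroDivisors ℤ) F ω (Rₘ := ℚ)
    have h4 : (⇑(ω.localizationLocalization ℚ (nonZeroDivisors ℤ) F) : Fin m → F) =
        fun j => (ω j : F) := by
      funext j
      exact Module.Basis.localizationLocalization_apply _ _ _ _ _
    rw [h4, NumberField.discr_eq_discr] at h3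
    exact h3
  have h3 : Algebra.embeddingsMatrixReindex ℚ ℂ (fun j => (ω j : F)) e =
      ((Matrix.of fun i j => φ (σ i (ω j : F))).transpose) := by
    ext i j
    rw [Matrix.transpose_apply, Matrix.of_apply, ← he]
    rfl
  rw [h2, h3, Matrix.det_transpose] at h1
  have h4 : φ (Matrix.of fun i j => σ i (ω j : F)).det =
      (Matrix.of fun i j => φ (σ i (ω j : F))).det := by
    rw [RingHom.map_det]
    rfl
  rw [h4, ← norm_pow, ← h1]
  have h5 : algebraMap ℚ ℂ (NumberField.discr F : ℚ) = (((NumberField.discr F : ℤ) : ℝ) : ℂ) := by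
    rw [map_intCast]
    push_cast
    rfl
  rw [h5, Complex.norm_real, Real.norm_eq_abs]

/-- the root of the local bound -/
private theorem root_bd {w g G : ℝ} (hw : 0 ≤ w) (hg : 0 < g) (hG : 0 ≤ G) {h N : ℕ} (hh : 1 ≤ h)
    (H : w ^ h * g ^ N ≤ G ^ h) : w ≤ G * g ^ (-((N : ℝ) / h)) := by
  have hh0 : (h : ℝ) ≠ 0 := by
    have : h ≠ 0 := by omega
    exact_mod_cast this
  refine le_of_pow_le_pow_left₀ (n := h) (by omega) (mul_nonneg hG (Real.rpow_nonneg hg.le _)) ?_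
  have e1 : (g ^ (-((N : ℝ) / h))) ^ h = (g ^ N)⁻¹ := by
    rw [← Real.rpow_natCast (g ^ (-((N : ℝ) / h))) h, ← Real.rpow_mul hg.le, neg_mul,
      div_mul_cancel₀ _ hh0, Real.rpow_neg hg.le, Real.rpow_natCast]
  rw [mul_pow, e1, ← div_eq_mul_inv, le_div_iff₀ (pow_pos hg N)]
  exact H

/-- the assembly for an abstract field -/
private theorem fbC {F E : Type} [Field F] [NumberField F] [Field E] [NumberField E] [Algebra F E]
    [IsScalarTower ℚ F E] {m n : ℕ} (hm1 : 1 ≤ m) (hm : Module.finrank ℚ F = n) (a : E) (K N : ℕ)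
    (Λ : Submodule ℤ E) (hL : Lat (ph m a K) Λ) (hmul : ∀ w y : E, IsIntegral ℤ w → y ∈ Λ → w * y ∈ Λ)
    (f₀ : F) (hf₀ : f₀ ≠ 0) (h : ℕ) (hh : 1 ≤ h)
    (hbd : ∀ y ∈ Λ, ∀ (M : Type) [Field M] [NumberField M] (t : E →+* M) (v : FinitePlace M),
      v (t y) ^ h * v (t (algebraMap F E f₀)) ^ N ≤ (max 1 (v (t a)) ^ K) ^ h)
    (U : Submodule F E) {k : ℕ} (hk : Module.finrank F U = k) :
    |(NumberField.discr F : ℝ)| ^ k *
      |((Algebra.norm ℚ f₀ : ℚ) : ℝ)| ^ (-(2 * ((N : ℝ) * k / h))) * ((m : ℝ) ^ (n * k))⁻¹ *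
      Real.exp (-(2 * K * (n * k : ℕ) * absLogHeight₁ a)) ≤
      vl (ph m a K) Λ (U.restrictScalars ℚ) := by
  classical
  have hfg : Λ.FG := hL.fg
  -- the module
  obtain ⟨N', hN⟩ : ∃ N' : Submodule (𝓞 F) E, ∀ y, y ∈ N' ↔ y ∈ Λ ∧ y ∈ U :=
    ⟨{ carrier := {y | y ∈ Λ ∧ y ∈ U}
       zero_mem' := ⟨Submodule.zero_mem _, Submodule.zero_mem _⟩
       add_mem' := fun hx hy => ⟨Submodule.add_mem _ hx.1 hy.1, Submodule.add_mem _ hx.2 hy.2⟩
       smul_mem' := fun c y hy => by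
        have e1 : c • y = algebraMap F E (c : F) * y := by
          rw [Algebra.smul_def]
          rfl
        have e2 : c • y = (c : F) • y := by
          rw [e1, Algebra.smul_def]
        refine ⟨?_, ?_⟩
        · rw [e1]
          exact hmul _ y ((RingOfIntegers.isIntegral_coe c).map (algebraMap F E).toIntAlgHom) hy.1
        · rw [e2]
          exact U.smul_mem _ hy.2 }, fun y => Iff.rfl⟩
  have hNfg : N'.FG := by
    apply Submodule.FG.of_restrictScalars ℤ
    have h1 : IsNoetherian ℤ Λ := isNoetherian_of_fg_of_noetherian _ hfg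
    have h2 : (N'.restrictScalars ℤ) = ((N'.restrictScalars ℤ).comap Λ.subtype).map Λ.subtype := by
      rw [Submodule.map_comap_eq, Submodule.range_subtype, eq_comm, inf_eq_right]
      intro y hy
      exact ((hN y).1 hy).1
    rw [h2]
    exact (IsNoetherian.noetherian _).map _
  have hspan : Submodule.span F (N' : Set E) = U := by
    refine le_antisymm (Submodule.span_le.2 fun y hy => ((hN y).1 hy).2) fun y hy => ?_
    obtain ⟨n', hn0, hn⟩ := hL.full y
    have h1 : n' • y ∈ N' := (hN _).2 ⟨hn, U.smul_of_tower_mem n' hy⟩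
    have h2 : y = ((n' : F)⁻¹) • (n' • y) := by
      rw [← Nat.cast_smul_eq_nsmul F, smul_smul, inv_mul_cancel₀ (Nat.cast_ne_zero.2 hn0), one_smul]
    rw [h2]
    exact Submodule.smul_mem _ _ (Submodule.subset_span h1)
  have hkN : Module.finrank F (Submodule.span F (N' : Set E)) = k := by rw [hspan, hk]
  -- the dimension
  have hn1 : 1 ≤ n := by
    rw [← hm]
    exact Module.finrank_pos
  have hdim : Module.finrank ℚ (U.restrictScalars ℚ) = n * k := by
    have h1 := Module.finrank_mul_finrank ℚ F U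
    rw [hm, hk] at h1
    exact h1.symm
  obtain ⟨z, hz⟩ : ∃ z : Fin (n * k) → E, IsZB Λ (U.restrictScalars ℚ) z := by
    rw [← hdim]
    exact hL.exists_zb _
  rw [hL.vl_eq hz]
  obtain ⟨M, hM1, hM2, hcard, hM⟩ := exists_M F E
  obtain ⟨t, ht⟩ := hM (n * k) z hz.li
  rw [hm] at hcard
  have hfin : Finite (F →+* M) := Nat.finite_of_card_ne_zero (by rw [hcard]; omega)
  obtain ⟨σ⟩ : Nonempty (Fin n ≃ (F →+* M)) := ⟨(Finite.equivFinOfCardEq hcard).symm⟩
  obtain ⟨ω⟩ : Nonempty (Module.Basis (Fin n) ℤ (𝓞 F)) :=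
    ⟨Module.finBasisOfFinrankEq ℤ (𝓞 F) (by rw [RingOfIntegers.rank, hm])⟩
  obtain ⟨D, hD⟩ : ∃ D : M, D = (Matrix.of fun i j => σ i (ω j : F)).det := ⟨_, rfl⟩
  obtain ⟨Δ, hΔ⟩ : ∃ Δ : ℝ, Δ = |(NumberField.discr F : ℝ)| := ⟨_, rfl⟩
  have hΔ0 : 0 < Δ := by
    rw [hΔ, abs_pos]
    exact_mod_cast NumberField.discr_ne_zero F
  have hn : ∀ φ : M →+* ℂ, ‖φ D‖ = Real.sqrt Δ := by
    intro φ
    rw [hD, hΔ, ← disc_abs σ hm ω φ, Real.sqrt_sq (norm_nonneg _)]
  obtain ⟨ν, hν⟩ : ∃ ν : ℚ, ν = Algebra.norm ℚ f₀ := ⟨_, rfl⟩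
  have hν0 : ν ≠ 0 := by
    rw [hν]
    exact Algebra.norm_ne_zero_iff.2 hf₀
  have hc0 : 0 ≤ (N : ℝ) * k / h := by positivity
  -- the product of all embeddings of `f₀`
  have hprod : ∏ s, t s (algebraMap F E f₀) = ((ν : ℚ) : M) ^ k := by
    obtain ⟨u, hu1, hu2, hu3⟩ := loc_free N' hNfg k hkN 2 Nat.prime_two
    have h1 : ∀ c, ∃ f : Fin k → F, z c = ∑ j, f j • u j := by
      intro c
      obtain ⟨n', f, h1, h2⟩ := hu3 (z c) ((hN _).2 ⟨hz.memL c, hz.memU c⟩)
      have h3 : n' ≠ 0 := by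
        rintro rfl
        exact h1 (dvd_zero _)
      refine ⟨fun j => ((n' : F)⁻¹) * (f j : F), ?_⟩
      have h4 : z c = ((n' : F)⁻¹) • (n' • z c) := by
        rw [← Int.cast_smul_eq_zsmul F, smul_smul, inv_mul_cancel₀ (Int.cast_ne_zero.2 h3), one_smul]
      rw [h4, h2, Finset.smul_sum]
      refine Finset.sum_congr rfl fun j _ => ?_
      have e1 : f j • u j = (f j : F) • u j := by
        rw [Algebra.smul_def, Algebra.smul_def]
        rfl
      rw [e1, smul_smul]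
    rw [prod_emb n k σ u z h1 t ht f₀, prod_norm n σ hm f₀, ← hν, eq_ratCast]
  have key := gd_ph_geC m K hm1 a z t (D ^ k) (Real.sqrt Δ ^ k) (pow_pos (Real.sqrt_pos.2 hΔ0) _)
    (fun φ => by rw [map_pow, norm_pow, hn]) ht ν hν0 ((N : ℝ) * k / h) hc0 ?_
  · rw [← hΔ, ← hν]
    have e1 : (Real.sqrt Δ ^ k) ^ 2 = Δ ^ k := by
      rw [← pow_mul, mul_comm, pow_mul, Real.sq_sqrt hΔ0.le]
    rw [e1] at key
    exact key
  · intro v
    obtain ⟨ℓ, hℓ, hℓ1⟩ := exists_prime_below v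
    obtain ⟨u, hu1, hu2, hu3⟩ := loc_free N' hNfg k hkN ℓ hℓ
    have hg0 : ∀ s, 0 < v (t s (algebraMap F E f₀)) := fun s => by
      refine FinitePlace.pos_iff.2 ?_
      rw [Ne, map_eq_zero, map_eq_zero]
      exact hf₀
    have h1 : v (Matrix.of fun i j => t i (z j)).det ≤
        v (Matrix.of fun i j => σ i (ω j : F)).det ^ k *
          ∏ s, (max 1 (v (t s a)) ^ K * v (t s (algebraMap F E f₀)) ^ (-((N : ℝ) / h))) := by
      refine det_loc v n k σ ω u z ?_ t _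
        (fun s => mul_nonneg (by positivity) (Real.rpow_nonneg (hg0 s).le _)) ?_
      · intro c
        obtain ⟨n', f, h1, h2⟩ := hu3 (z c) ((hN _).2 ⟨hz.memL c, hz.memU c⟩)
        exact ⟨n', f, hℓ1 n' h1, h2⟩
      · intro s j
        exact root_bd (apply_nonneg v _) (hg0 s) (by positivity) hh
          (hbd _ ((hN _).1 (hu2 j)).1 M (t s) v)
    have h2 : ∏ s, v (t s (algebraMap F E f₀)) ^ (-((N : ℝ) / h)) =
        v ((ν : ℚ) : M) ^ (-((N : ℝ) * k / h)) := by
      rw [Real.finsetProd_rpow _ _ (fun s _ => (hg0 s).le), ← map_prod, hprod, map_pow,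
        ← Real.rpow_natCast, ← Real.rpow_mul (apply_nonneg v _)]
      congr 1
      ring
    rw [Finset.prod_mul_distrib, h2, ← hD] at h1
    rw [map_pow, mul_assoc]
    exact h1

theorem fboundC {A E : Type} [Field A] [NumberField A] [Field E] [NumberField E] [Algebra A E]
    {b m d : ℕ} {ι : ℝ} {x : E} (hx : RdA A b m d ι x) (a : E) (K N : ℕ) (U : Submodule A E)
    (hU : ∀ y ∈ U, x * y ∈ U) :
    -((K * absLogHeight₁ a + ι + N * (2 * ι + Real.log b)) *
      (Module.finrank ℚ A * Module.finrank A U)) ≤ nv A (ph m a K) (LC A x a K N) U := by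
  classical
  have hint : IsIntegral A x := Algebra.IsIntegral.isIntegral x
  have hF0 : ∀ f : E, f ∈ Algebra.adjoin A {x} → ∀ y ∈ U, f * y ∈ U := by
    intro f h1
    induction h1 using Algebra.adjoin_induction with
    | mem y hy =>
      rw [Set.mem_singleton_iff] at hy
      rw [hy]
      exact hU
    | algebraMap r =>
      intro y hy
      rw [← Algebra.smul_def]
      exact U.smul_mem _ hy
    | add y z _ _ h2 h3 =>
      intro w hw
      rw [add_mul]
      exact U.add_mem (h2 w hw) (h3 w hw)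
    | mul y z _ _ h2 h3 =>
      intro w hw
      rw [mul_assoc]
      exact h2 _ (h3 w hw)
  have hF : ∀ f : A⟮x⟯, ∀ y ∈ U, (f : E) * y ∈ U := by
    intro f
    refine hF0 (f : E) ?_
    rw [← IntermediateField.adjoin_simple_toSubalgebra_of_isAlgebraic hint.isAlgebraic]
    exact f.2
  obtain ⟨V, hV⟩ : ∃ V : Submodule A⟮x⟯ E, V.restrictScalars A = U :=
    ⟨{ carrier := U
       zero_mem' := U.zero_mem
       add_mem' := fun h1 h2 => U.add_mem h1 h2
       smul_mem' := fun c y hy => by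
        have e1 : c • y = (c : E) * y := rfl
        rw [e1]
        exact hF c y hy }, by
      ext y
      exact Iff.rfl⟩
  obtain ⟨k, hk⟩ : ∃ k : ℕ, Module.finrank A⟮x⟯ V = k := ⟨_, rfl⟩
  obtain ⟨e, he⟩ : ∃ e : ℕ, e = Module.finrank ℚ A := ⟨_, rfl⟩
  have hdegQ : Module.finrank ℚ A⟮x⟯ = e * m := by
    rw [he, ← hx.deg]
    exact (Module.finrank_mul_finrank ℚ A A⟮x⟯).symm
  obtain ⟨-, h, f₀, hh, hf₀, -, hlog, hf⟩ := cond_main hx
  have key := fbC hx.m1 hdegQ a K N (LC A x a K N) (lat_LC hx a K N)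
    (lc_mul x a K N) f₀ hf₀ h hh
    (fun y hy M _ _ t v => lc_bd a K N h hh (f₀ : E) y hy t v (fun B hB h1 => hf M t v B hB h1)) V hk
  have hdim : Module.finrank A U = m * k := by
    have h1 := Module.finrank_mul_finrank A A⟮x⟯ V
    rw [hx.deg, hk] at h1
    rw [← hV]
    exact h1.symm
  have hVU : V.restrictScalars ℚ = U.restrictScalars ℚ := by
    rw [← hV]
    rfl
  rw [hVU] at key
  have hm0 : (0 : ℝ) < m := by exact_mod_cast hx.m1
  obtain ⟨Δ, hΔ⟩ : ∃ Δ : ℝ, Δ = |(NumberField.discr A⟮x⟯ : ℝ)| := ⟨_, rfl⟩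
  have hΔ0 : 0 < Δ := by
    rw [hΔ, abs_pos]
    exact_mod_cast NumberField.discr_ne_zero A⟮x⟯
  obtain ⟨ν, hν⟩ : ∃ ν : ℝ, ν = |((Algebra.norm ℚ f₀ : ℚ) : ℝ)| := ⟨_, rfl⟩
  have hν0 : 0 < ν := by
    rw [hν, abs_pos]
    exact_mod_cast Algebra.norm_ne_zero_iff.2 hf₀
  have hd := hx.disc
  have hdA : dA A⟮x⟯ = Real.log Δ := by
    rw [hΔ]
    rfl
  rw [hdA, ← he] at hd
  rw [← hΔ, ← hν] at key
  rw [← hν, ← he] at hlog
  have e1 : Δ ^ k * ν ^ (-(2 * ((N : ℝ) * k / h))) * ((m : ℝ) ^ (e * m * k))⁻¹ *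
      Real.exp (-(2 * K * (e * m * k : ℕ) * absLogHeight₁ a)) =
      Real.exp (k * Real.log Δ - 2 * ((N : ℝ) * k / h) * Real.log ν -
        (e * m * k : ℕ) * Real.log m - 2 * K * (e * m * k : ℕ) * absLogHeight₁ a) := by
    have f1 : ν ^ (-(2 * ((N : ℝ) * k / h))) =
        (Real.exp (2 * ((N : ℝ) * k / h) * Real.log ν))⁻¹ := by
      rw [Real.rpow_neg hν0.le, Real.rpow_def_of_pos hν0, mul_comm (Real.log ν)]
    rw [f1, Real.exp_sub, Real.exp_sub, Real.exp_sub, Real.exp_nat_mul (Real.log Δ),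
      Real.exp_nat_mul (Real.log m), Real.exp_log hΔ0, Real.exp_log hm0, Real.exp_neg]
    simp only [div_eq_mul_inv]
  rw [e1] at key
  have key2 := Real.log_le_log (Real.exp_pos _) key
  rw [Real.log_exp] at key2
  have hh0 : (0 : ℝ) < h := by exact_mod_cast hh
  have h4 : (N : ℝ) * k / h * Real.log ν ≤ N * k * (e * m * (2 * ι + Real.log b)) := by
    have h5 := mul_le_mul_of_nonneg_left hlog (show 0 ≤ (N : ℝ) * k / h by positivity)
    refine h5.trans (le_of_eq ?_)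
    field_simp
  unfold nv
  rw [hdim, ← he]
  push_cast at key2 ⊢
  have h3 := mul_le_mul_of_nonneg_left hd (Nat.cast_nonneg k : (0 : ℝ) ≤ k)
  nlinarith [h3, h4]

end Pool.Agent.H33.V6
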