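import Pool.Agent.H36.LH.ExA
import Pool.Agent.H69.BD.Vidx
import Pool.Agent.H11.V6.Bad
import Pool.Agent.H11.V6.Many

/-!
# RadicalLehmer, version 6 (MP_187c26_nt): the primes which divide the index

`idx_pos`, `ex_idx`: the index `[O : ℤ[x]]` is finite and kills the quotient.
`many_good`: at least `Z^(k-1)` primes in `(Z^k, Z^(k+1)]` do not divide the index (`Pool.Agent.H11.V6.bad_idx`, `many_good`).
-/

set_option autoImplicit false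

open Polynomial NumberField IntermediateField

namespace Pool.Agent.H33.V6

open Pool.Agent.H69.BD Pool.Agent.H36.LH

theorem idx_pos {Ω : Type} [Field Ω] [CharZero Ω] [Algebra.IsAlgebraic ℚ Ω] (b m : ℕ) (hb : 1 ≤ b)
    (hm : 1 ≤ m) (x : Ω) (hx : x ^ m = (b : Ω)) (_ : Module.finrank ℚ ℚ⟮x⟯ = m) :
    1 ≤ idxZ x := by
  rw [idxZ_eq_ordIdx]
  have h1 : Pool.Agent.H11.FR.ordIdx ℚ x ≠ 0 := by
    refine Pool.Agent.H11.FR.ordIdx_ne_zero hm (b := (b : 𝓞 ℚ)) ?_ ?_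
    · exact_mod_cast (by omega : b ≠ 0)
    · rw [hx, map_natCast]
  omega

theorem ex_idx {Ω : Type} [Field Ω] [CharZero Ω] (x : Ω) : Ex x (idxZ x) := by
  intro y hy hi
  have h1 : y ∈ (ℚ⟮x⟯.toSubalgebra.toSubring ⊓ (integralClosure ℤ Ω).toSubring).toAddSubgroup :=
    ⟨hy, hi⟩
  have h2 := AddSubgroup.nsmul_relIndex_mem
    (Algebra.adjoin ℤ ({x} : Set Ω)).toSubring.toAddSubgroup h1
  rw [nsmul_eq_mul] at h2
  exact h2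

theorem many_good (b : ℕ) (hb : 2 ≤ b) (ι : ℝ) (_ : 0 ≤ ι) : ∃ Z₀ : ℕ, ∀ Z : ℕ, Z₀ ≤ Z →
    ∀ k : ℕ, 1 ≤ k → k ≤ 11 →
    ∀ (Ω : Type) [Field Ω] [CharZero Ω] [Algebra.IsAlgebraic ℚ Ω] (m : ℕ) (x : Ω), 1 ≤ m →
      x ^ m = (b : Ω) → Module.finrank ℚ ℚ⟮x⟯ = m → Real.log (idxZ x) ≤ ι * m →
      ∃ 𝒮 : Finset ℕ, (∀ q ∈ 𝒮, q.Prime ∧ Z ^ k < q ∧ q ≤ Z ^ (k + 1) ∧ ¬ q ∣ idxZ x) ∧
        Z ^ (k - 1) ≤ 𝒮.card := by
  classical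
  have h : ∀ k : ℕ, ∃ Z₀ : ℕ, ∀ Z : ℕ, Z₀ ≤ Z → 1 ≤ k →
      ∀ (Ω : Type) [Field Ω] [CharZero Ω] [Algebra.IsAlgebraic ℚ Ω] (m : ℕ) (x : Ω), 1 ≤ m →
      x ^ m = (b : Ω) → Module.finrank ℚ ℚ⟮x⟯ = m → Real.log (idxZ x) ≤ ι * m →
      ∃ 𝒮 : Finset ℕ, (∀ q ∈ 𝒮, q.Prime ∧ Z ^ k < q ∧ q ≤ Z ^ (k + 1) ∧ ¬ q ∣ idxZ x) ∧
        Z ^ (k - 1) ≤ 𝒮.card := by
    intro k
    rcases Nat.eq_zero_or_pos k with hk | hk
    · exact ⟨0, fun Z _ h1 => by omega⟩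
    · obtain ⟨Z₀, hZ₀⟩ := Pool.Agent.H11.V6.many_good ι ((k : ℝ) - 1 / 2) b k (by omega) hk
        (by linarith)
      refine ⟨Z₀ + 1, fun Z hZ _ Ω _ _ _ m x hm hx hdeg hidx => ?_⟩
      have h1 := hZ₀ Z (by omega) m (idxZ x) hm
        (by have := idx_pos b m (by omega) hm x hx hdeg; omega) hidx
        (fun q hq hqb hqi => Pool.Agent.H11.V6.bad_idx b m q (by omega) hm hq hqb x hx hdeg hqi)
      refine ⟨(Finset.Ioc (Z ^ k) (Z ^ (k + 1))).filter fun p => p.Prime ∧ ¬ p ∣ idxZ x,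
        fun q hq => ?_, ?_⟩
      rotate_left
      · have h2 : ((Z ^ (k - 1) : ℕ) : ℝ) ≤ (Z : ℝ) ^ ((k : ℝ) - 1 / 2) := by
          have hZ1 : (1 : ℝ) ≤ Z := by exact_mod_cast (by omega : 1 ≤ Z)
          rw [Nat.cast_pow, ← Real.rpow_natCast]
          refine Real.rpow_le_rpow_of_exponent_le hZ1 ?_
          rw [Nat.cast_sub hk]
          push_cast
          linarith
        exact_mod_cast h2.trans h1
      · rw [Finset.mem_filter, Finset.mem_Ioc] at hq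
        exact ⟨hq.2.1, hq.1.1, hq.1.2, hq.2.2⟩
  choose f hf using h
  refine ⟨∑ k ∈ Finset.range 12, f k, fun Z hZ k hk hk2 => hf k Z (le_trans ?_ hZ) hk⟩
  exact Finset.single_le_sum (f := f) (fun _ _ => Nat.zero_le _) (Finset.mem_range.2 (by omega))

end Pool.Agent.H33.V6
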