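import Pool.Agent.H36.LI.RdB

/-!
# RadicalLehmer, version 6 (MP_187c26_nt): number fields over a subfield `B` of `ℚ(ξ)`

MODEL: `rdB_over` in `Pool/Agent/H36/LI/RdB.lean` (copy with its private lemmas and change: `hidx := hι` in the place of `exp_idx ..`, `ι` in the place of `Real.log δ`).
-/

set_option autoImplicit false

open Polynomial NumberField IntermediateField

namespace Pool.Agent.H33.V6

open Pool.Agent.H36.LE Pool.Agent.H36.LF Pool.Agent.H36.LG Pool.Agent.H36.LH Pool.Agent.H36.LI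
  Pool.Agent.H72.BE

private theorem rb_disc_sq {F : Type} [Field F] [NumberField F] {ι : Type} [Fintype ι] [DecidableEq ι]
    (v : ι → F) (hv : ∀ i, IsIntegral ℤ (v i)) (e : Module.Free.ChooseBasisIndex ℤ (𝓞 F) ≃ ι) :
    ∃ t : ℤ, Algebra.discr ℚ v = (t : ℚ) ^ 2 * (NumberField.discr F : ℚ) := by
  classical
  have h := Algebra.discr_of_matrix_vecMul (A := ℚ) ((integralBasis F).reindex e)
      (((integralBasis F).reindex e).toMatrix v)
  rw [Module.Basis.toMatrix_map_vecMul] at h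
  let M : Matrix ι ι ℤ := fun i j => (RingOfIntegers.basis F).repr ⟨v j, hv j⟩ (e.symm i)
  have hM : ((integralBasis F).reindex e).toMatrix v = (algebraMap ℤ ℚ).mapMatrix M := by
    ext i j
    rw [Module.Basis.toMatrix_apply, Module.Basis.repr_reindex_apply, RingHom.mapMatrix_apply,
      Matrix.map_apply]
    exact integralBasis_repr_apply F ⟨v j, hv j⟩ (e.symm i)
  refine ⟨M.det, ?_⟩
  rw [h, hM, ← RingHom.map_det, NumberField.coe_discr, Module.Basis.coe_reindex,
    Algebra.discr_reindex]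
  rfl

private theorem rb_minpoly_rad {L : Type} [Field L] [CharZero L] (b m : ℕ) (hm : 1 ≤ m) (x : L)
    (hx : x ^ m = (b : L)) (hdeg : Module.finrank ℚ ℚ⟮x⟯ = m) :
    IsIntegral ℤ x ∧ minpoly ℚ x = X ^ m - C (b : ℚ) := by
  have hi : IsIntegral ℤ x := by
    refine IsIntegral.of_pow (by omega : 0 < m) ?_
    rw [hx]
    have := isIntegral_algebraMap (R := ℤ) (A := L) (x := (b : ℤ))
    simpa using this
  have hint : IsIntegral ℚ x := hi.tower_top
  have hd : minpoly ℚ x ∣ X ^ m - C (b : ℚ) := minpoly.dvd ℚ x (by simp [hx])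
  have hdeg' : (minpoly ℚ x).natDegree = m := by rw [← hdeg, adjoin.finrank hint]
  exact ⟨hi, (eq_of_monic_of_dvd_of_natDegree_le (minpoly.monic hint)
    (monic_X_pow_sub_C _ (by omega)) hd (by rw [natDegree_X_pow_sub_C, hdeg'])).symm⟩

private theorem rb_norm_rad {F : Type} [Field F] [NumberField F] (b m : ℕ) (hm : 1 ≤ m) (θ : F)
    (hθ : θ ^ m = (b : F)) (hdeg : Module.finrank ℚ F = m) : |Algebra.norm ℚ θ| = (b : ℚ) := by
  have h1 : (Algebra.norm ℚ θ) ^ m = (b : ℚ) ^ m := by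
    rw [← map_pow, hθ]
    have : (b : F) = algebraMap ℚ F (b : ℚ) := by simp
    rw [this, Algebra.norm_algebraMap, hdeg]
  have h2 : |Algebra.norm ℚ θ| ^ m = (b : ℚ) ^ m := by
    rw [← abs_pow, h1, abs_of_nonneg (by positivity)]
  exact (pow_left_inj₀ (abs_nonneg _) (by positivity) (by omega)).1 h2

private theorem rb_discr_dvd {F : Type} [Field F] [NumberField F] (b m : ℕ) (hm : 1 ≤ m)
    (pb : PowerBasis ℚ F) (hmin : minpoly ℚ pb.gen = X ^ m - C (b : ℚ)) :
    (NumberField.discr F).natAbs ∣ m ^ m * b ^ (m - 1) := by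
  classical
  have hdim : pb.dim = m := by
    rw [← pb.natDegree_minpoly, hmin, natDegree_X_pow_sub_C]
  have hdeg : Module.finrank ℚ F = m := by rw [pb.finrank, hdim]
  have hθ : pb.gen ^ m = (b : F) := by
    have := minpoly.aeval ℚ pb.gen
    rw [hmin] at this
    simpa [sub_eq_zero] using this
  have hi : IsIntegral ℤ pb.gen := by
    refine IsIntegral.of_pow (by omega : 0 < m) ?_
    rw [hθ]
    have := isIntegral_algebraMap (R := ℤ) (A := F) (x := (b : ℤ))
    simpa using this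
  have hN := rb_norm_rad b m hm pb.gen hθ hdeg
  have hd : |Algebra.discr ℚ pb.basis| = (m : ℚ) ^ m * (b : ℚ) ^ (m - 1) := by
    rw [Algebra.discr_powerBasis_eq_norm, abs_mul, abs_pow, abs_neg, abs_one, one_pow, one_mul,
      hmin]
    have h1 : aeval pb.gen (derivative (X ^ m - C (b : ℚ))) =
        algebraMap ℚ F (m : ℚ) * pb.gen ^ (m - 1) := by
      simp [derivative_X_pow]
    rw [h1, map_mul, map_pow, Algebra.norm_algebraMap, hdeg, abs_mul, abs_pow, abs_pow, hN,
      abs_of_nonneg (by positivity)]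
  have e : Module.Free.ChooseBasisIndex ℤ (𝓞 F) ≃ Fin pb.dim := Fintype.equivOfCardEq (by
    rw [← Module.finrank_eq_card_basis (integralBasis F), Fintype.card_fin, pb.finrank])
  obtain ⟨t, ht⟩ := rb_disc_sq (fun i => pb.basis i) (fun i => by
    rw [PowerBasis.basis_eq_pow]
    exact hi.pow i) e
  have h2 : (((t.natAbs ^ 2 * (NumberField.discr F).natAbs : ℕ)) : ℚ) =
      ((m ^ m * b ^ (m - 1) : ℕ) : ℚ) := by
    push_cast
    rw [← hd]
    have h3 : Algebra.discr ℚ pb.basis = (t : ℚ) ^ 2 * (NumberField.discr F : ℚ) := ht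
    rw [h3, abs_mul, abs_pow, Nat.cast_natAbs, Nat.cast_natAbs]
    push_cast
    rfl
  rw [← Nat.cast_inj (R := ℚ) |>.1 h2]
  exact dvd_mul_left _ _


private theorem rb_main {L : Type} [Field L] [NumberField L] (b m N k : ℕ) (hm : 1 ≤ m)
    (cop : N.Coprime (m * b)) (K : IntermediateField ℚ L)
    (hK : (NumberField.discr K).natAbs ∣ N ^ k) (θ : L)
    (hθ : θ ^ m = (b : L)) (hdeg : Module.finrank ℚ ℚ⟮θ⟯ = m) (htop : K ⊔ ℚ⟮θ⟯ = ⊤)
    (hL : Module.finrank ℚ L = Module.finrank ℚ K * m) :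
    (NumberField.discr L).natAbs = (NumberField.discr K).natAbs ^ m *
        (NumberField.discr ℚ⟮θ⟯).natAbs ^ Module.finrank ℚ K := by
  obtain ⟨hi, hmin⟩ := rb_minpoly_rad b m hm θ hθ hdeg
  have hiQ : IsIntegral ℚ θ := hi.tower_top
  have hmin' : minpoly ℚ (adjoin.powerBasis hiQ).gen = X ^ m - C (b : ℚ) := by
    rw [adjoin.powerBasis_gen]
    exact (minpoly_gen ℚ θ).trans hmin
  have hd2 := rb_discr_dvd b m hm (adjoin.powerBasis hiQ) hmin'
  have hcpr : IsCoprime (NumberField.discr K) (NumberField.discr ℚ⟮θ⟯) := by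
    rw [Int.isCoprime_iff_nat_coprime]
    refine Nat.Coprime.coprime_dvd_left hK (Nat.Coprime.coprime_dvd_right hd2 ?_)
    refine Nat.Coprime.pow_left _ (Nat.Coprime.mul_right ?_ ?_)
    · exact Nat.Coprime.pow_right _ (Nat.Coprime.coprime_dvd_right (dvd_mul_right _ _) cop)
    · exact Nat.Coprime.pow_right _ (Nat.Coprime.coprime_dvd_right (dvd_mul_left _ _) cop)
  have hdj : K.LinearDisjoint ℚ⟮θ⟯ := by
    refine IntermediateField.LinearDisjoint.of_finrank_sup ?_
    rw [htop, IntermediateField.finrank_top', hL, hdeg]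
  rw [natAbs_discr_eq_natAbs_discr_pow_mul_natAbs_discr_pow L K ℚ⟮θ⟯ hdj htop
      (isCoprime_differentIdeal_of_isCoprime_discr _ hcpr), hdeg]

private theorem rb_rd {A F Ω : Type} [Field A] [NumberField A] [Field F] [NumberField F] [Field Ω]
    [CharZero Ω] [Algebra A F] [Algebra F Ω] [Algebra A Ω] [IsScalarTower A F Ω] (b m : ℕ) (hb : 1 ≤ b)
    (hm : 1 ≤ m) (ι : ℝ) (y : F) (hy : y ^ m = b) (htop : IntermediateField.adjoin A {y} = ⊤)
    (hdeg : Module.finrank A F = m)
    (hdisc : (m : ℝ) * dA A + Module.finrank ℚ A * (m * Real.log m - 2 * ι * m) ≤ dA F)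
    (α : Ω) (hα : IsIntegral F α) [NumberField F⟮α⟯] :
    RdA A b m (minpoly F α).natDegree ι (algebraMap F F⟮α⟯ y) := by
  obtain ⟨f, hf⟩ : ∃ f : F →ₐ[A] F⟮α⟯, ∀ z, f z = algebraMap F F⟮α⟯ z :=
    ⟨IsScalarTower.toAlgHom A F F⟮α⟯, fun z => rfl⟩
  have hmap : (IntermediateField.adjoin A {y}).map f =
      IntermediateField.adjoin A {algebraMap F F⟮α⟯ y} := by
    rw [adjoin_map, Set.image_singleton, hf]
  let e : F ≃ₐ[A] IntermediateField.adjoin A {algebraMap F F⟮α⟯ y} :=
    (IntermediateField.topEquiv.symm.trans (IntermediateField.equivOfEq htop.symm)).trans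
      ((IntermediateField.equivMap _ f).trans (IntermediateField.equivOfEq hmap))
  refine ⟨hb, hm, ?_, ?_, ?_, ?_⟩
  · rw [← map_pow, hy, map_natCast]
  · rw [← e.toLinearEquiv.finrank_eq, hdeg]
  · have : FiniteDimensional F F⟮α⟯ := adjoin.finiteDimensional hα
    rw [← adjoin.finrank hα, ← hdeg, Module.finrank_mul_finrank]
  · have h1 : NumberField.discr F =
        NumberField.discr (IntermediateField.adjoin A {algebraMap F F⟮α⟯ y}) :=
      NumberField.discr_eq_discr_of_algEquiv _ (e.restrictScalars ℚ)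
    have h2 : dA (IntermediateField.adjoin A {algebraMap F F⟮α⟯ y}) = dA F := by
      unfold dA
      rw [h1]
    rw [h2]
    exact hdisc

variable {Ω : Type} [Field Ω] [CharZero Ω] [Algebra.IsAlgebraic ℚ Ω] {b m n : ℕ} {ξ x : Ω}

omit [Algebra.IsAlgebraic ℚ Ω] in
private theorem rb_rs_eq (ξ y : Ω) : (IntermediateField.adjoin (AA ξ) ({y} : Set Ω)).restrictScalars ℚ =
    FF ξ ![y] := by
  refine (IntermediateField.adjoin_adjoin_left ℚ ({ξ} : Set Ω) ({y} : Set Ω)).trans ?_
  unfold FF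
  congr 1
  ext w
  simp

omit [Algebra.IsAlgebraic ℚ Ω] in
private theorem rb_degA (h : DatG b m n ξ x) :
    Module.finrank (AA ξ) (IntermediateField.adjoin (AA ξ) ({x} : Set Ω)) = m := by
  have := h.nf_A
  have := h.nf_F
  have h1 := degG h
  have h2 := Module.finrank_mul_finrank ℚ (AA ξ) (FF ξ ![x])
  have hxi : IsIntegral (AA ξ) x := h.integral_x.tower_top
  have h3 := Module.finrank_mul_finrank ℚ (AA ξ) (IntermediateField.adjoin (AA ξ) ({x} : Set Ω))
  have h4 : Module.finrank ℚ (IntermediateField.adjoin (AA ξ) ({x} : Set Ω)) =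
      Module.finrank ℚ (FF ξ ![x]) := by
    have h5 := congrArg (fun K : IntermediateField ℚ Ω => Module.finrank ℚ K) (rb_rs_eq ξ x)
    exact h5
  rw [h4, ← h2, h1] at h3
  exact Nat.eq_of_mul_eq_mul_left Module.finrank_pos h3


omit [Algebra.IsAlgebraic ℚ Ω] in
private theorem rb_deg (h : DatG b m n ξ x) (B : IntermediateField ℚ Ω) (hB : B ≤ AA ξ) :
    (minpoly (AA ξ) x).natDegree = m ∧ (minpoly B x).natDegree = m := by
  have hxB : IsIntegral B x := h.integral_x.tower_top
  have hxA : IsIntegral (AA ξ) x := h.integral_x.tower_top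
  have h1 : (minpoly (AA ξ) x).natDegree = m := by
    rw [← adjoin.finrank hxA]
    exact rb_degA h
  refine ⟨h1, le_antisymm ?_ ?_⟩
  · have h2 : minpoly B x ∣ X ^ m - C (b : B) := minpoly.dvd _ _ (by simp [h.pow])
    have h3 := Polynomial.natDegree_le_of_dvd h2
      (Polynomial.X_pow_sub_C_ne_zero (Nat.pos_of_ne_zero (by have := h.hm; omega)) _)
    rwa [Polynomial.natDegree_X_pow_sub_C] at h3
  · let _ : Algebra B (AA ξ) := (IntermediateField.inclusion hB).toRingHom.toAlgebra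
    have : IsScalarTower B (AA ξ) Ω := IsScalarTower.of_algebraMap_eq' rfl
    have h2 := minpoly.dvd_map_of_isScalarTower B (AA ξ) x
    have h3 := Polynomial.natDegree_le_of_dvd h2
      ((minpoly.monic hxB).map (algebraMap B (AA ξ))).ne_zero
    rw [h1, Polynomial.natDegree_map] at h3
    exact h3

omit [Algebra.IsAlgebraic ℚ Ω] in
private theorem rb_top (B : IntermediateField ℚ Ω) (hx : IsIntegral B x) :
    Algebra.adjoin B ({AdjoinSimple.gen B x} : Set (IntermediateField.adjoin B ({x} : Set Ω))) = ⊤ := by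
  have h1 := (adjoin.powerBasis hx).adjoin_gen_eq_top
  rw [adjoin.powerBasis_gen] at h1
  exact h1

private theorem rb_disc (h : DatG b m n ξ x) (B : IntermediateField ℚ Ω) [NumberField B]
    (hB : B ≤ AA ξ) [NumberField (IntermediateField.adjoin B ({x} : Set Ω))] :
    (m : ℝ) * dA B + Module.finrank ℚ B * (m * Real.log m) ≤
      dA (IntermediateField.adjoin B ({x} : Set Ω)) +
        2 * (Module.finrank ℚ B * Real.log (Pool.Agent.H69.BD.idxZ x)) := by
  have hxB : IsIntegral B x := h.integral_x.tower_top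
  obtain ⟨hdA, hdB⟩ := rb_deg h B hB
  have hfin : FiniteDimensional ℚ ℚ⟮x⟯ :=
    IntermediateField.adjoin.finiteDimensional h.integral_x.tower_top
  have hnf : NumberField ℚ⟮x⟯ := {}
  have := h.nf_A
  have hmF : Module.finrank B (IntermediateField.adjoin B ({x} : Set Ω)) = m := by
    rw [adjoin.finrank hxB, hdB]
  -- the image of `B`
  obtain ⟨θ, hθ⟩ : ∃ θ : IntermediateField.adjoin B ({x} : Set Ω), θ = AdjoinSimple.gen B x := ⟨_, rfl⟩
  have hθx : (θ : Ω) = x := by rw [hθ]; rfl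
  obtain ⟨K, hK⟩ : ∃ K : IntermediateField ℚ (IntermediateField.adjoin B ({x} : Set Ω)),
      K = (⊥ : IntermediateField B (IntermediateField.adjoin B ({x} : Set Ω))).restrictScalars ℚ := ⟨_, rfl⟩
  have e1 : Nonempty (K ≃ₐ[ℚ] B) := by
    subst hK
    exact ⟨(IntermediateField.botEquiv B (IntermediateField.adjoin B ({x} : Set Ω))).restrictScalars ℚ⟩
  obtain ⟨e1⟩ := e1
  have e2 : Nonempty (ℚ⟮θ⟯ ≃ₐ[ℚ] ℚ⟮x⟯) := by
    obtain ⟨f, hf⟩ : ∃ f : IntermediateField.adjoin B ({x} : Set Ω) →ₐ[ℚ] Ω, ∀ z, f z = (z : Ω) :=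
      ⟨IsScalarTower.toAlgHom ℚ _ Ω, fun z => rfl⟩
    have hmap : ℚ⟮θ⟯.map f = ℚ⟮x⟯ := by
      rw [adjoin_map, Set.image_singleton, hf, hθx]
    exact ⟨(IntermediateField.equivMap _ f).trans (IntermediateField.equivOfEq hmap)⟩
  obtain ⟨e2⟩ := e2
  have hdK : NumberField.discr K = NumberField.discr B := NumberField.discr_eq_discr_of_algEquiv (K := K) e1
  have hdX : NumberField.discr ℚ⟮θ⟯ = NumberField.discr ℚ⟮x⟯ :=
    NumberField.discr_eq_discr_of_algEquiv (K := ℚ⟮θ⟯) e2
  have hfK : Module.finrank ℚ K = Module.finrank ℚ B := e1.toLinearEquiv.finrank_eq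
  have hfX : Module.finrank ℚ ℚ⟮θ⟯ = m := by
    rw [← h.deg]
    exact e2.toLinearEquiv.finrank_eq
  have htop : K ⊔ ℚ⟮θ⟯ = ⊤ := by
    rw [eq_top_iff]
    intro z _
    have h1 : z ∈ Algebra.adjoin B ({AdjoinSimple.gen B x} :
        Set (IntermediateField.adjoin B ({x} : Set Ω))) := by
      rw [rb_top B hxB]
      exact Algebra.mem_top
    refine Algebra.adjoin_induction (p := fun z _ => z ∈ K ⊔ ℚ⟮θ⟯) ?_ ?_ ?_ ?_ h1
    · intro y hy
      rw [Set.mem_singleton_iff] at hy
      rw [hy, ← hθ]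
      exact (le_sup_right : ℚ⟮θ⟯ ≤ K ⊔ ℚ⟮θ⟯) (mem_adjoin_simple_self ℚ θ)
    · intro r
      refine (le_sup_left : K ≤ K ⊔ ℚ⟮θ⟯) ?_
      rw [hK]
      exact IntermediateField.algebraMap_mem _ r
    · intro y z _ _ hy hz
      exact add_mem hy hz
    · intro y z _ _ hy hz
      exact mul_mem hy hz
  have hL : Module.finrank ℚ (IntermediateField.adjoin B ({x} : Set Ω)) = Module.finrank ℚ K * m := by
    rw [hfK, ← Module.finrank_mul_finrank ℚ B (IntermediateField.adjoin B ({x} : Set Ω)), hmF]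
  have hdvd : (NumberField.discr K).natAbs ∣ n ^ n.totient := by
    rw [hdK]
    let _ : Algebra B (AA ξ) := (IntermediateField.inclusion hB).toRingHom.toAlgebra
    have h1 := NumberField.discr_dvd_discr B (AA ξ)
    have h2 : (NumberField.discr (AA ξ)).natAbs ∣ n ^ n.totient := by
      have hn0 : NeZero n := ⟨by have := h.hn; omega⟩
      have : IsCyclotomicExtension {n} ℚ (AA ξ) :=
        h.prim.intermediateField_adjoin_isCyclotomicExtension ℚ
      rw [IsCyclotomicExtension.Rat.natAbs_discr n (AA ξ)]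
      exact Nat.div_dvd_of_dvd (Nat.prod_primeFactors_pow_totient_ediv_dvd (by have := h.hn; omega))
    exact (Int.natAbs_dvd_natAbs.2 h1).trans h2
  have hθm : θ ^ m = ((b : ℕ) : IntermediateField.adjoin B ({x} : Set Ω)) := by
    apply Subtype.ext
    have h1 : ((θ ^ m : IntermediateField.adjoin B ({x} : Set Ω)) : Ω) = x ^ m :=
      congrArg (fun y : Ω => y ^ m) hθx
    rw [h1, h.pow]
    rfl
  have h1 := rb_main b m n n.totient h.hm h.cop K hdvd θ hθm hfX htop hL
  rw [hdK, hdX, hfK] at h1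
  have h2 := disc_index b m (by have := h.two; omega) h.hm x h.pow h.deg
  have h3 : |(NumberField.discr (IntermediateField.adjoin B ({x} : Set Ω)) : ℝ)| =
      |(NumberField.discr B : ℝ)| ^ m *
        |(NumberField.discr ℚ⟮x⟯ : ℝ)| ^ Module.finrank ℚ B := by
    have h4 := congrArg (fun k : ℕ => (k : ℝ)) h1
    simp only [Nat.cast_mul, Nat.cast_pow, Nat.cast_natAbs, Int.cast_abs] at h4
    exact h4
  have hA : |(NumberField.discr B : ℝ)| ≠ 0 := by
    rw [abs_ne_zero]
    exact_mod_cast NumberField.discr_ne_zero B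
  have hX : |(NumberField.discr ℚ⟮x⟯ : ℝ)| ≠ 0 := by
    rw [abs_ne_zero]
    exact_mod_cast NumberField.discr_ne_zero ℚ⟮x⟯
  have h5 : dA (IntermediateField.adjoin B ({x} : Set Ω)) = (m : ℝ) * dA B +
      (Module.finrank ℚ B : ℝ) * Real.log |(NumberField.discr ℚ⟮x⟯ : ℝ)| := by
    unfold dA
    rw [h3, Real.log_mul (pow_ne_zero _ hA) (pow_ne_zero _ hX), Real.log_pow, Real.log_pow]
  rw [h5]
  have h6 := mul_le_mul_of_nonneg_left h2 (Nat.cast_nonneg (α := ℝ) (Module.finrank ℚ B))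
  linarith

/-- the remainder modulo a monic integral polynomial has integral coefficients -/
private theorem rb_mod {A : Type} [Field A] [CharZero A] (b m : ℕ) (hm : 1 ≤ m) (g : A[X])
    (hg : ∀ i, IsIntegral ℤ (g.coeff i)) :
    ∀ i, IsIntegral ℤ ((g %ₘ (X ^ m - C (b : A))).coeff i) := by
  intro i
  have h1 : g ∈ Polynomial.lifts (algebraMap (integralClosure ℤ A) A) := by
    rw [Polynomial.lifts_iff_coeff_lifts]
    intro j
    exact ⟨⟨g.coeff j, hg j⟩, rfl⟩
  obtain ⟨g₀, hg₀⟩ := (Polynomial.mem_lifts _).1 h1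
  have hmon : (X ^ m - C (b : integralClosure ℤ A) : (integralClosure ℤ A)[X]).Monic :=
    monic_X_pow_sub_C _ (by omega)
  have h2 : (X ^ m - C (b : integralClosure ℤ A) : (integralClosure ℤ A)[X]).map
      (algebraMap (integralClosure ℤ A) A) = X ^ m - C (b : A) := by
    simp
  rw [← hg₀, ← h2, ← Polynomial.map_modByMonic _ hmon, coeff_map]
  exact ((g₀ %ₘ (X ^ m - C (b : integralClosure ℤ A))).coeff i).2

private theorem rb_mx (h : DatG b m n ξ x) (B : IntermediateField ℚ Ω)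
    (hB : B ≤ AA ξ) (δ : ℕ) (hE : Ex x δ) (y : Ω)
    (hy : y ∈ IntermediateField.adjoin B ({x} : Set Ω)) (hi : IsIntegral ℤ y) :
    ∃ f : B[X], (∀ i, IsIntegral ℤ (f.coeff i)) ∧ aeval x f = (δ : Ω) * y := by
  have hxB : IsIntegral B x := h.integral_x.tower_top
  obtain ⟨hdA, hdB⟩ := rb_deg h B hB
  have hm0 : m ≠ 0 := by have := h.hm; omega
  have h1 : y ∈ FF ξ ![x] := by
    have h4 : IntermediateField.adjoin B ({x} : Set Ω) ≤
        IntermediateField.extendScalars (hB.trans (AA_le ξ ![x])) := by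
      rw [IntermediateField.adjoin_simple_le_iff]
      exact mem_FF ξ ![x] 0
    exact h4 hy
  obtain ⟨g, hg1, hg2⟩ := exp_FF h δ hE y h1 hi
  have h2 : (δ : Ω) * y ∈ Algebra.adjoin B ({x} : Set Ω) := by
    rw [← IntermediateField.adjoin_simple_toSubalgebra_of_isAlgebraic hxB.isAlgebraic]
    exact mul_mem (_root_.natCast_mem _ δ) hy
  rw [Algebra.adjoin_singleton_eq_range_aeval] at h2
  obtain ⟨f₀, hf₀⟩ := h2
  have hf₀' : aeval x f₀ = (δ : Ω) * y := hf₀
  have hmonB : (X ^ m - C (b : B) : B[X]).Monic := monic_X_pow_sub_C _ hm0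
  have hmonA : (X ^ m - C (b : AA ξ) : (AA ξ)[X]).Monic := monic_X_pow_sub_C _ hm0
  have hrB : aeval x (X ^ m - C (b : B) : B[X]) = 0 := by simp [h.pow]
  have hrA : aeval x (X ^ m - C (b : AA ξ) : (AA ξ)[X]) = 0 := by simp [h.pow]
  let _ : Algebra B (AA ξ) := (IntermediateField.inclusion hB).toRingHom.toAlgebra
  have : IsScalarTower B (AA ξ) Ω := IsScalarTower.of_algebraMap_eq' rfl
  have hfB : aeval x (f₀ %ₘ (X ^ m - C (b : B))) = (δ : Ω) * y := by
    rw [Polynomial.aeval_modByMonic_eq_self_of_root hrB, hf₀']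
  have hfA : aeval x (g %ₘ (X ^ m - C (b : AA ξ))) = (δ : Ω) * y := by
    rw [Polynomial.aeval_modByMonic_eq_self_of_root hrA, hg2]
  have key : (f₀ %ₘ (X ^ m - C (b : B))).map (algebraMap B (AA ξ)) = g %ₘ (X ^ m - C (b : AA ξ)) := by
    by_contra hne
    have h3 : (f₀ %ₘ (X ^ m - C (b : B))).map (algebraMap B (AA ξ)) - g %ₘ (X ^ m - C (b : AA ξ)) ≠ 0 :=
      sub_ne_zero.2 hne
    have h4 := minpoly.degree_le_of_ne_zero (AA ξ) x h3 (by
      rw [map_sub, aeval_map_algebraMap, hfB, hfA, sub_self])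
    have h5 : (minpoly (AA ξ) x).degree = m := by
      rw [Polynomial.degree_eq_natDegree (minpoly.ne_zero h.integral_x.tower_top), hdA]
    have h6 : ((f₀ %ₘ (X ^ m - C (b : B))).map (algebraMap B (AA ξ))).degree < m := by
      refine lt_of_le_of_lt Polynomial.degree_map_le ?_
      have h7 := Polynomial.degree_modByMonic_lt f₀ hmonB
      rwa [Polynomial.degree_X_pow_sub_C (Nat.pos_of_ne_zero hm0)] at h7
    have h7 : (g %ₘ (X ^ m - C (b : AA ξ))).degree < m := by
      have h8 := Polynomial.degree_modByMonic_lt g hmonA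
      rwa [Polynomial.degree_X_pow_sub_C (Nat.pos_of_ne_zero hm0)] at h8
    have h8 := lt_of_le_of_lt (Polynomial.degree_sub_le _ _) (max_lt h6 h7)
    rw [← h5] at h8
    exact absurd h4 (not_le.2 h8)
  refine ⟨f₀ %ₘ (X ^ m - C (b : B)), fun i => ?_, hfB⟩
  have h9 := rb_mod b m h.hm g hg1 i
  rw [← key, coeff_map] at h9
  exact (isIntegral_algebraMap_iff (algebraMap B (AA ξ)).injective).1 h9



theorem rdB_overG (h : DatG b m n ξ x) (B : IntermediateField ℚ Ω) [NumberField B]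
    (hB : B ≤ AA ξ) (ι : ℝ) (hι : Real.log (Pool.Agent.H69.BD.idxZ x) ≤ ι * m) (δ : ℕ)
    (hδ : 1 ≤ δ) (hE : Ex x δ) (α : Ω) :
    ∃ (E : Type) (_ : Field E) (_ : NumberField E) (_ : Algebra B E) (x' a : E)
      (f : E →ₐ[B] Ω), f x' = x ∧ f a = α ∧
      RdA B b m (minpoly (IntermediateField.adjoin B ({x} : Set Ω)) α).natDegree ι x' ∧
      Mx B x' δ := by
  have hxB : IsIntegral B x := h.integral_x.tower_top
  obtain ⟨hdA, hdB⟩ := rb_deg h B hB
  have hmF : Module.finrank B (IntermediateField.adjoin B ({x} : Set Ω)) = m := by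
    rw [adjoin.finrank hxB, hdB]
  have j1 : FiniteDimensional B (IntermediateField.adjoin B ({x} : Set Ω)) :=
    adjoin.finiteDimensional hxB
  have j2 : FiniteDimensional ℚ (IntermediateField.adjoin B ({x} : Set Ω)) :=
    FiniteDimensional.trans ℚ B _
  have j3 : NumberField (IntermediateField.adjoin B ({x} : Set Ω)) := {}
  have hαF : IsIntegral (IntermediateField.adjoin B ({x} : Set Ω)) α :=
    (Algebra.IsAlgebraic.isAlgebraic (R := ℚ) α).isIntegral.tower_top
  have i3 : FiniteDimensional (IntermediateField.adjoin B ({x} : Set Ω))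
      (IntermediateField.adjoin B ({x} : Set Ω))⟮α⟯ := adjoin.finiteDimensional hαF
  have i4 : FiniteDimensional ℚ (IntermediateField.adjoin B ({x} : Set Ω))⟮α⟯ :=
    FiniteDimensional.trans ℚ (IntermediateField.adjoin B ({x} : Set Ω)) _
  have i5 : NumberField (IntermediateField.adjoin B ({x} : Set Ω))⟮α⟯ := {}
  have h2b : 1 ≤ b := by
    have h1 : 2 ≤ b := h.two
    omega
  have hidx := hι
  have hdisc := rb_disc h B hB
  refine ⟨(IntermediateField.adjoin B ({x} : Set Ω))⟮α⟯, inferInstance, i5, inferInstance,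
    algebraMap (IntermediateField.adjoin B ({x} : Set Ω))
      (IntermediateField.adjoin B ({x} : Set Ω))⟮α⟯ (AdjoinSimple.gen B x),
    AdjoinSimple.gen (IntermediateField.adjoin B ({x} : Set Ω)) α,
    ((IntermediateField.adjoin B ({x} : Set Ω))⟮α⟯).val.restrictScalars B, rfl, rfl, ?_, ?_⟩
  · refine rb_rd b m h2b h.hm ι (AdjoinSimple.gen B x) ?_ ?_ hmF ?_ α hαF
    · apply Subtype.ext
      exact h.pow
    · exact IntermediateField.adjoin_eq_top_of_algebra _ _ (rb_top B hxB)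
    · have h1 : (0 : ℝ) ≤ Module.finrank ℚ B := Nat.cast_nonneg _
      nlinarith [mul_le_mul_of_nonneg_left hidx h1]
  · obtain ⟨f, hf⟩ : ∃ f : (IntermediateField.adjoin B ({x} : Set Ω))⟮α⟯ →ₐ[B] Ω,
        f = ((IntermediateField.adjoin B ({x} : Set Ω))⟮α⟯).val.restrictScalars B := ⟨_, rfl⟩
    have hx' : f (algebraMap (IntermediateField.adjoin B ({x} : Set Ω))
      (IntermediateField.adjoin B ({x} : Set Ω))⟮α⟯ (AdjoinSimple.gen B x)) = x := by
      rw [hf]
      rfl
    intro y hy hi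
    have h1 : f y ∈ IntermediateField.adjoin B ({x} : Set Ω) := by
      have h3 : f y ∈ (B⟮algebraMap (IntermediateField.adjoin B ({x} : Set Ω))
        (IntermediateField.adjoin B ({x} : Set Ω))⟮α⟯ (AdjoinSimple.gen B x)⟯).map f := ⟨y, hy, rfl⟩
      rw [IntermediateField.adjoin_map, Set.image_singleton, hx'] at h3
      exact h3
    have h2 : IsIntegral ℤ (f y) := hi.map f.toRingHom.toIntAlgHom
    obtain ⟨g, hg1, hg2⟩ := rb_mx h B hB δ hE (f y) h1 h2
    refine ⟨g, hg1, ?_⟩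
    have hinj : Function.Injective f := f.toRingHom.injective
    apply hinj
    rw [map_mul, map_natCast, ← Polynomial.aeval_algHom_apply, hx']
    exact hg2

end Pool.Agent.H33.V6
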