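import Pool.Agent.H33.V6.Fc
import Pool.Agent.H33.V6.Rd
import Pool.Agent.H33.V6.Ix
import Pool.Agent.H36.LI.FdE
import Pool.Agent.H36.LG.IdD

/-!
# RadicalLehmer, version 6 (MP_187c26_nt), the theorem in `Ω` (algebraic closure of `ℚ`)

MODEL: `thmL_dob0` in `Pool/Agent/H36/LI/FdE.lean` (copy with its private lemmas and change). Imports may be sorried (`thmLG`, `rdB_overG`, `idx_pos`, `ex_idx`, `many_good`; `idx_div` in `Pool/Agent/H36/LG/IdD.lean`).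
`x' := x^s`, `m' := m/s`: `s log idxZ x' ≤ log idxZ x ≤ ι m = ι s m'` (`idx_div`), so `log idxZ x' ≤ ι m'`; `δ := idxZ x'`, `𝒮`, `ℛ` of `many_good` for `x'` (`k = 11`: `Z^10 ≥ Z^9`; `k = 3`). The constant: `K₁ + 100 + ⌈1 + log b⌉ + Z₀`.
-/

set_option autoImplicit false

open Polynomial NumberField IntermediateField

namespace Pool.Agent.H33.V6

open Pool.Agent.H36.LE Pool.Agent.H36.LF Pool.Agent.H36.LG Pool.Agent.H36.LH Pool.Agent.H36.LI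
  Pool.Agent.H72.BE

private theorem fde_nn {Ω : Type} [Field Ω] [CharZero Ω] (x : Ω) : 0 ≤ absLogHeight₁ x := by
  unfold absLogHeight₁
  refine Real.log_nonneg ?_
  unfold absMulHeight₁
  split_ifs with hx
  · have : FiniteDimensional ℚ ℚ⟮x⟯ := adjoin.finiteDimensional hx
    have : NumberField ℚ⟮x⟯ := {}
    exact Real.one_le_rpow (Height.one_le_mulHeight₁ _) (by positivity)
  · exact le_rfl

private theorem fde_height (E Ω : Type) [Field E] [NumberField E] [Field Ω] [CharZero Ω] (f : E →+* Ω) (a : E) :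
    absLogHeight₁ (f a) = absLogHeight₁ a := by
  have h1 := Pool.Agent.H4.RR.absLogHeight_eq E Ω f a
  have h2 := Pool.Agent.H4.RR.absLogHeight_eq E E (RingHom.id E) a
  rw [RingHom.id_apply] at h2
  rw [h1, h2]

/-- the end of the proof -/
private theorem fde_num (Z e d d' u : ℕ) (h hz lb : ℝ) (hZ : 1 ≤ Z) (hlb : 0 ≤ lb)
    (hZb : 1 + lb ≤ (Z : ℝ)) (hdu : d' * u ≤ d) (hd' : d' ≤ Z ^ e) (hh0 : 0 ≤ h)
    (hhz : hz ≤ u * h + lb / ((Z ^ 11 : ℕ) : ℝ) ^ (e + 3)) (hc : (Z : ℝ) ^ 33 * (d * h) ≤ 1) :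
    (Z : ℝ) ^ 32 * (d' * hz) ≤ 1 := by
  have hZR : (1 : ℝ) ≤ Z := by exact_mod_cast hZ
  have hZ0 : (0 : ℝ) < Z := by linarith
  have hduR : (d' : ℝ) * u ≤ d := by exact_mod_cast hdu
  have hdR : (d' : ℝ) ≤ (Z : ℝ) ^ e := by exact_mod_cast hd'
  have h0 : (0 : ℝ) ≤ d' := Nat.cast_nonneg _
  have hP : ((Z ^ 11 : ℕ) : ℝ) ^ (e + 3) = (Z : ℝ) ^ (11 * e + 33) := by
    push_cast
    rw [← pow_mul]
    congr 1
  rw [hP] at hhz
  have hPpos : (0 : ℝ) < (Z : ℝ) ^ (11 * e + 33) := by positivity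
  have h1 : (Z : ℝ) ^ 33 * (d' * (lb / (Z : ℝ) ^ (11 * e + 33))) ≤ lb := by
    have h2 : (Z : ℝ) ^ 33 * d' ≤ (Z : ℝ) ^ (11 * e + 33) := by
      calc (Z : ℝ) ^ 33 * d' ≤ (Z : ℝ) ^ 33 * (Z : ℝ) ^ e :=
            mul_le_mul_of_nonneg_left hdR (by positivity)
        _ = (Z : ℝ) ^ (33 + e) := by rw [pow_add]
        _ ≤ (Z : ℝ) ^ (11 * e + 33) := pow_le_pow_right₀ hZR (by omega)
    have h3 : (Z : ℝ) ^ 33 * (d' * (lb / (Z : ℝ) ^ (11 * e + 33))) =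
        ((Z : ℝ) ^ 33 * d') * lb / (Z : ℝ) ^ (11 * e + 33) := by ring
    rw [h3, div_le_iff₀ hPpos, mul_comm lb]
    exact mul_le_mul_of_nonneg_right h2 hlb
  have h2 : (Z : ℝ) ^ 33 * (d' * (u * h)) ≤ 1 := by
    refine le_trans ?_ hc
    refine mul_le_mul_of_nonneg_left ?_ (by positivity)
    rw [← mul_assoc]
    exact mul_le_mul_of_nonneg_right hduR hh0
  have h3 : (Z : ℝ) ^ 33 * (d' * hz) ≤ (Z : ℝ) ^ 33 * (d' * (u * h + lb / (Z : ℝ) ^ (11 * e + 33))) :=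
    mul_le_mul_of_nonneg_left (mul_le_mul_of_nonneg_left hhz h0) (by positivity)
  have h4 : (Z : ℝ) ^ 33 * (d' * (u * h + lb / (Z : ℝ) ^ (11 * e + 33))) =
      (Z : ℝ) ^ 33 * (d' * (u * h)) + (Z : ℝ) ^ 33 * (d' * (lb / (Z : ℝ) ^ (11 * e + 33))) := by ring
  have h5 : ((Z : ℝ) ^ 32 * (d' * hz)) * Z ≤ 1 * Z := by
    have h6 : ((Z : ℝ) ^ 32 * (d' * hz)) * Z = (Z : ℝ) ^ 33 * (d' * hz) := by ring
    rw [h6]
    linarith
  exact le_of_mul_le_mul_right h5 hZ0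

private theorem fde_orb {Ω : Type} [Field Ω] [CharZero Ω] (B : IntermediateField ℚ Ω) {E : Type}
    [Field E] [Algebra B E] (f : E →ₐ[B] Ω) (u v : E) :
    Module.finrank B (IntermediateField.adjoin B ({u, v} : Set E)) =
      Module.finrank B (IntermediateField.adjoin B ({f u, f v} : Set Ω)) := by
  have h1 : (IntermediateField.adjoin B ({u, v} : Set E)).map f =
      IntermediateField.adjoin B ({f u, f v} : Set Ω) := by
    rw [IntermediateField.adjoin_map, Set.image_pair]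
  rw [← h1]
  exact (IntermediateField.equivMap
    (IntermediateField.adjoin B ({u, v} : Set E)) f).toLinearEquiv.finrank_eq

theorem thmL_rad0 (b : ℕ) (hb : 2 ≤ b) (ι : ℝ) (hι : 0 ≤ ι) : ∃ K : ℕ, ∀ e Z : ℕ,
    K * (e + 1) ^ 9 ≤ Z →
    ∀ (Ω : Type) [Field Ω] [CharZero Ω] [Algebra.IsAlgebraic ℚ Ω] [IsAlgClosed Ω]
      (m n : ℕ) (ξ x α : Ω), DatG b m n ξ x → Real.log (Pool.Agent.H69.BD.idxZ x) ≤ ι * m →
      (minpoly (FF ξ ![x]) α).natDegree ≤ Z ^ e → α ≠ 0 →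
      (∀ k : ℕ, 1 ≤ k → ∀ j : ℤ, α ^ k ≠ (b : Ω) ^ j) →
      1 < (Z : ℝ) ^ 33 * ((minpoly (FF ξ ![x]) α).natDegree * absLogHeight₁ α) := by
  obtain ⟨K₁, hL⟩ := thmLG b hb ι hι
  obtain ⟨Z₀, hG⟩ := many_good b hb ι hι
  refine ⟨K₁ + 100 + ⌈1 + Real.log b⌉₊ + Z₀, ?_⟩
  intro e Z hZ Ω _ _ _ _ m n ξ x α hD hidx hd hα0 hα
  by_contra hcon
  push Not at hcon
  obtain ⟨N, hN⟩ : ∃ N, N = (e + 1) ^ 9 := ⟨_, rfl⟩
  have he1 : e + 1 ≤ N := by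
    rw [hN]
    exact Nat.le_self_pow (by norm_num) _
  have hN1 : 1 ≤ N := by omega
  rw [← hN] at hZ
  have hZs : K₁ * N + 100 * N + ⌈1 + Real.log b⌉₊ * N + Z₀ * N ≤ Z := by
    rw [← add_mul, ← add_mul, ← add_mul]
    exact hZ
  have hZK : K₁ * (e + 1) ^ 9 ≤ Z := by
    rw [← hN]
    omega
  have hZ100 : 100 * (e + 1) ≤ Z := by
    have h1 : 100 * (e + 1) ≤ 100 * N := Nat.mul_le_mul_left _ he1
    omega
  have hZc : ⌈1 + Real.log b⌉₊ ≤ Z := by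
    have h1 : ⌈1 + Real.log b⌉₊ * 1 ≤ ⌈1 + Real.log b⌉₊ * N := Nat.mul_le_mul_left _ hN1
    omega
  have hZ0 : Z₀ ≤ Z := by
    have h1 : Z₀ * 1 ≤ Z₀ * N := Nat.mul_le_mul_left _ hN1
    omega
  have hZ1 : 1 ≤ Z := by omega
  have hlb : 0 ≤ Real.log b := Real.log_nonneg (by exact_mod_cast (by omega : 1 ≤ b))
  have hZb : 1 + Real.log b ≤ (Z : ℝ) := by
    refine (Nat.le_ceil _).trans ?_
    exact_mod_cast hZc
  obtain ⟨s, u, z, ℬ, hs, hz0, hu, hD', hrel, hdeg, hhz, hℬ, horb, hfull⟩ :=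
    exists_good2 hD α hα0 (Z ^ 11) (Z ^ 12) (e + 3) (Nat.one_le_pow _ _ hZ1)
  -- the index
  have hs0 : 0 < s := Nat.pos_of_dvd_of_pos hs hD.hm
  have hidx' : Real.log (Pool.Agent.H69.BD.idxZ (x ^ s)) ≤ ι * ((m / s : ℕ) : ℝ) := by
    have h1 := idx_div b m s (by omega) hD.hm x hD.pow hD.deg hs
    have h2 : (m : ℝ) = (s : ℝ) * ((m / s : ℕ) : ℝ) := by
      rw [← Nat.cast_mul, Nat.mul_div_cancel' hs]
    have hsR : (0 : ℝ) < s := by exact_mod_cast hs0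
    have h3 : (s : ℝ) * Real.log (Pool.Agent.H69.BD.idxZ (x ^ s)) ≤ (s : ℝ) * (ι * ((m / s : ℕ) : ℝ)) := by
      refine h1.trans (hidx.trans (le_of_eq ?_))
      rw [h2]
      ring
    exact le_of_mul_le_mul_left h3 hsR
  obtain ⟨δ, hδd⟩ : ∃ δ : ℕ, δ = Pool.Agent.H69.BD.idxZ (x ^ s) := ⟨_, rfl⟩
  have hδ : 1 ≤ δ := by
    rw [hδd]
    exact idx_pos b (m / s) (by omega) hD'.hm (x ^ s) hD'.pow hD'.deg
  have hE' : Ex (x ^ s) δ := by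
    rw [hδd]
    exact ex_idx _
  obtain ⟨𝒮, h𝒮, h𝒮c⟩ := hG Z hZ0 11 (by norm_num) (by norm_num) Ω (m / s) (x ^ s) hD'.hm hD'.pow hD'.deg hidx'
  obtain ⟨ℛ, hℛ, hℛc⟩ := hG Z hZ0 3 (by norm_num) (by norm_num) Ω (m / s) (x ^ s) hD'.hm hD'.pow hD'.deg hidx'
  rw [← hδd] at h𝒮 hℛ
  have h𝒮c' : Z ^ 9 ≤ 𝒮.card := (Nat.pow_le_pow_right hZ1 (by norm_num)).trans h𝒮c
  have hℛc' : Z ^ 2 ≤ ℛ.card := hℛc
  have hd'd : (minpoly (FF ξ ![x ^ s]) z).natDegree ≤ Z ^ e :=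
    (Nat.le_mul_of_pos_right _ hu).trans (hdeg.trans hd)
  have h3 := fde_num Z e _ _ u (absLogHeight₁ α) (absLogHeight₁ z) (Real.log b) hZ1 hlb hZb hdeg hd'd
    (fde_nn α) hhz hcon
  have hZR : (1 : ℝ) ≤ Z := by exact_mod_cast hZ1
  have h13 : (Z : ℝ) ^ 13 * ((minpoly (FF ξ ![x ^ s]) z).natDegree * absLogHeight₁ z) ≤ 1 := by
    refine le_trans ?_ h3
    exact mul_le_mul_of_nonneg_right (pow_le_pow_right₀ hZR (by norm_num))
      (mul_nonneg (Nat.cast_nonneg _) (fde_nn z))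
  obtain ⟨B, i1, ρ, σ, hBA, hρ, hBd, hσ⟩ := exists_B hD' e Z hZ100 z hz0 hd'd hfull h13
  have hn0 : 0 < n := hD.hn
  have hρ0 : ρ ≠ 0 := by
    rintro rfl
    rw [zero_pow hn0.ne'] at hρ
    exact zero_ne_one hρ
  obtain ⟨E, _, _, _, x', a, f, hfx, hfa, hRd, hMx⟩ := rdB_overG hD' B hBA ι hidx' δ hδ hE' (ρ * z)
  rw [hBd] at hRd
  have h1 := hL e Z hZK B E (m / s) _ δ x' a σ ℬ 𝒮 ℛ hδ hRd hMx hσ hℬ h𝒮 h𝒮c' hℛ hℛc'
    (fun q hq h2 h3 h4 => by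
      obtain ⟨h5, h6⟩ := horb q hq h2 h3 h4
      have h7 := orb_sub hD' B hBA z ρ hρ hBd q h5 h6
      rw [fde_orb B f, map_pow, map_pow, hfx, hfa]
      exact h7) hd'd
    (by
      rintro rfl
      rw [map_zero] at hfa
      exact mul_ne_zero hρ0 hz0 hfa.symm)
    (fun k hk j h2 => by
      have h3 := congrArg f h2
      rw [map_pow, map_zpow₀, map_natCast, hfa, mul_pow] at h3
      have h4 : z ^ (k * n) = (b : Ω) ^ (j * (n : ℤ)) := by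
        have h5 : (ρ ^ k * z ^ k) ^ n = ((b : Ω) ^ j) ^ n := congrArg (fun y : Ω => y ^ n) h3
        rw [mul_pow, ← pow_mul, mul_comm k n, pow_mul, hρ, one_pow, one_mul, ← zpow_natCast ((b : Ω) ^ j),
          ← zpow_mul] at h5
        rw [← h5, pow_mul]
      obtain ⟨k', hk', j', h5⟩ := hrel (k * n) (Nat.mul_pos hk hn0) _ h4
      exact hα k' hk' j' h5)
  have h2 : absLogHeight₁ a = absLogHeight₁ z := by
    rw [← fde_height E Ω (f : E →+* Ω) a]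
    exact (congrArg absLogHeight₁ hfa).trans (height_root ρ z n hn0 hρ)
  rw [h2] at h1
  linarith

end Pool.Agent.H33.V6
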