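import Pool.Agent.H33.V6.Fd
import Pool.Agent.H36.LI.FeE

/-!
# RadicalLehmer, version 6 (MP_187c26_nt): relative Dobrowolski bound, in any field `Ω` of characteristic 0

MODEL: `thmL_dob` in `Pool/Agent/H36/LI/FeE.lean` (copy with its private lemmas and change). The index is invariant under embeddings: `idxZ_hom` (`Pool/Agent/H36/LF/GqF.lean`: `idxZ (φ x) = idxZ x`) in the place of `ex_hom`. Imports may be sorried (`thmL_rad0`).
-/

set_option autoImplicit false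

open Polynomial NumberField IntermediateField

namespace Pool.Agent.H33.V6

open Pool.Agent.H36.LE Pool.Agent.H36.LF Pool.Agent.H36.LG Pool.Agent.H36.LH Pool.Agent.H36.LI
  Pool.Agent.H72.BE

/-- a number field which contains the three elements, with an embedding in the algebraic closure of `ℚ` -/
private theorem ex_E {Ω : Type} [Field Ω] [CharZero Ω] (ξ x α : Ω) (hξ : IsIntegral ℚ ξ)
    (hx : IsIntegral ℚ x) (hα : IsIntegral ℚ α) :
    ∃ (E : Type) (_ : Field E) (_ : NumberField E) (ψ : E →+* Ω) (_ : E →+* AlgebraicClosure ℚ)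
      (ξ' x' α' : E), ψ ξ' = ξ ∧ ψ x' = x ∧ ψ α' = α := by
  have hfin : Finite ({ξ, x, α} : Set Ω) := (Set.toFinite _).to_subtype
  have hfd : FiniteDimensional ℚ (IntermediateField.adjoin ℚ ({ξ, x, α} : Set Ω)) := by
    refine IntermediateField.finiteDimensional_adjoin (S := ({ξ, x, α} : Set Ω)) ?_
    rintro y (rfl | rfl | rfl)
    · exact hξ
    · exact hx
    · exact hα
  have hnf : NumberField (IntermediateField.adjoin ℚ ({ξ, x, α} : Set Ω)) := {}
  let φ : IntermediateField.adjoin ℚ ({ξ, x, α} : Set Ω) →ₐ[ℚ] AlgebraicClosure ℚ := IsAlgClosed.lift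
  refine ⟨IntermediateField.adjoin ℚ ({ξ, x, α} : Set Ω), inferInstance, hnf,
    (IntermediateField.adjoin ℚ ({ξ, x, α} : Set Ω)).val.toRingHom, φ.toRingHom,
    ⟨ξ, IntermediateField.subset_adjoin ℚ _ (by simp)⟩, ⟨x, IntermediateField.subset_adjoin ℚ _ (by simp)⟩,
    ⟨α, IntermediateField.subset_adjoin ℚ _ (by simp)⟩, rfl, rfl, rfl⟩

private theorem deg_ring {Ω Ω' : Type} [Field Ω] [CharZero Ω] [Field Ω'] [CharZero Ω'] (σ : Ω →+* Ω')
    (ξ x α : Ω) : (minpoly (FF (σ ξ) ![σ x]) (σ α)).natDegree = (minpoly (FF ξ ![x]) α).natDegree := by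
  have h := degree_map σ.toRatAlgHom ξ ![x] α
  have h2 : (fun i => σ.toRatAlgHom ((![x] : Fin 1 → Ω) i)) = ![σ x] := by
    funext i
    rw [Subsingleton.elim i 0]
    rfl
  rw [h2] at h
  exact h

private theorem minpoly_ring {Ω Ω' : Type} [Field Ω] [CharZero Ω] [Field Ω'] [CharZero Ω'] (σ : Ω →+* Ω')
    (x : Ω) : minpoly ℚ (σ x) = minpoly ℚ x :=
  minpoly.algHom_eq σ.toRatAlgHom σ.injective x

private theorem FF_pair {Ω : Type} [Field Ω] [CharZero Ω] (ξ x : Ω) :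
    FF ξ ![x] = IntermediateField.adjoin ℚ ({ξ, x} : Set Ω) := by
  unfold FF
  congr 1
  rw [Set.insert_eq]
  congr 1
  ext y
  rw [Set.mem_range, Set.mem_singleton_iff]
  constructor
  · rintro ⟨i, rfl⟩
    rw [Subsingleton.elim i 0]
    rfl
  · rintro rfl
    exact ⟨0, rfl⟩

private theorem deg_congr {Ω : Type} [Field Ω] [CharZero Ω] (α : Ω) (K K' : IntermediateField ℚ Ω)
    (h : K = K') : (minpoly K α).natDegree = (minpoly K' α).natDegree := by
  subst h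
  rfl

theorem thmL_rad (b : ℕ) (hb : 2 ≤ b) (ι : ℝ) (hι : 0 ≤ ι) : ∃ c : ℝ, 0 < c ∧
    ∀ (Ω : Type) [Field Ω] [CharZero Ω] (m n d : ℕ) (ξ x α : Ω), 1 ≤ m → 1 ≤ n →
      n.Coprime (m * b) → ξ ^ n = 1 → x ^ m = (b : Ω) →
      Module.finrank ℚ ℚ⟮x⟯ = m → Real.log (Pool.Agent.H69.BD.idxZ x) ≤ ι * m → IsIntegral ℚ α →
      (minpoly (IntermediateField.adjoin ℚ ({ξ, x} : Set Ω)) α).natDegree ≤ d → α ≠ 0 →
      (∀ k : ℕ, 1 ≤ k → ∀ j : ℤ, α ^ k ≠ (b : Ω) ^ j) →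
      c ≤ d * (1 + Real.log d) ^ 300 * absLogHeight₁ α := by
  obtain ⟨K, H⟩ := thmL_rad0 b hb ι hι
  refine ⟨(((K : ℝ) + 2) ^ 33 * 3 ^ 297)⁻¹, by positivity, ?_⟩
  intro Ω _ _ m n d ξ x α hm hn hcop hξ hx hdeg hidx hα hd hα0 hk
  have hξi : IsIntegral ℚ ξ := by
    refine IsIntegral.of_pow (Nat.pos_of_ne_zero (by omega) : 0 < n) ?_
    rw [hξ]
    exact isIntegral_one
  have hxi : IsIntegral ℚ x := by
    refine IsIntegral.of_pow (Nat.pos_of_ne_zero (by omega) : 0 < m) ?_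
    rw [hx]
    have h1 : ((b : ℕ) : Ω) = algebraMap ℚ Ω (b : ℚ) := by simp
    rw [h1]
    exact isIntegral_algebraMap
  obtain ⟨E, _, _, ψ, φ, ξ', x', α', hξ', hx', hα'⟩ := ex_E ξ x α hξi hxi hα
  have hAlg : @Algebra.IsAlgebraic ℚ (AlgebraicClosure ℚ) _ _ DivisionRing.toRatAlgebra := by
    have h1 := AlgebraicClosure.isAlgebraic ℚ
    rwa [Subsingleton.elim (DivisionRing.toRatAlgebra : Algebra ℚ (AlgebraicClosure ℚ))
      (AlgebraicClosure.instAlgebra ℚ)]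
  have hord : orderOf ξ ∣ n := orderOf_dvd_of_pow_eq_one hξ
  have hord0 : 1 ≤ orderOf ξ := Nat.pos_of_dvd_of_pos hord hn
  have hprim : IsPrimitiveRoot ξ' (orderOf ξ) := by
    have h1 : IsPrimitiveRoot ξ (orderOf ξ) := IsPrimitiveRoot.orderOf ξ
    rw [← hξ'] at h1 ⊢
    exact IsPrimitiveRoot.of_map_of_injective h1 ψ.injective
  have hxE : x' ^ m = (b : E) := by
    apply ψ.injective
    rw [map_pow, hx', hx, map_natCast]
  have hD : DatG b m (orderOf ξ) (φ ξ') (φ x') := by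
    refine ⟨hb, hm, hord0, Nat.Coprime.coprime_dvd_left hord hcop,
      hprim.map_of_injective φ.injective, ?_, ?_⟩
    · rw [← map_pow, hxE, map_natCast]
    · have h1 : IsIntegral ℚ (φ x') := by
        have h2 : IsIntegral ℚ x' := Algebra.IsIntegral.isIntegral x'
        exact h2.map φ.toRatAlgHom
      rw [adjoin.finrank h1, minpoly_ring φ x', ← minpoly_ring ψ x', hx', ← adjoin.finrank hxi]
      exact hdeg
  have hidx' : Real.log (Pool.Agent.H69.BD.idxZ (φ x')) ≤ ι * m := by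
    rw [idxZ_hom φ x', ← idxZ_hom ψ x', hx']
    exact hidx
  have hdα : (minpoly (FF (φ ξ') ![φ x']) (φ α')).natDegree =
      (minpoly (IntermediateField.adjoin ℚ ({ξ, x} : Set Ω)) α).natDegree := by
    rw [deg_ring φ, ← deg_ring ψ, hξ', hx', hα', deg_congr α _ _ (FF_pair ξ x)]
  have hα'0 : α' ≠ 0 := by
    rintro rfl
    rw [map_zero] at hα'
    exact hα0 hα'.symm
  have hh : absLogHeight₁ (φ α') = absLogHeight₁ α := by
    have h1 := Pool.Agent.H4.RR.absLogHeight_eq E (AlgebraicClosure ℚ) φ α'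
    have h2 := Pool.Agent.H4.RR.absLogHeight_eq E Ω ψ α'
    rw [hα'] at h2
    rw [h1, h2]
  have hd1 : 1 ≤ d := by
    have hi : IsIntegral (IntermediateField.adjoin ℚ ({ξ, x} : Set Ω)) α := hα.tower_top
    exact (minpoly.natDegree_pos hi).trans_le hd
  have hdR : (1 : ℝ) ≤ d := by exact_mod_cast hd1
  have hd0 : (0 : ℝ) < d := by linarith
  obtain ⟨e, he⟩ : ∃ e : ℕ, e = Nat.log 2 d + 1 := ⟨_, rfl⟩
  obtain ⟨Z, hZ⟩ : ∃ Z : ℕ, Z = (K + 2) * (e + 1) ^ 9 := ⟨_, rfl⟩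
  have hZ2 : 2 ≤ Z := by
    have h1 : 1 ≤ (e + 1) ^ 9 := Nat.one_le_pow _ _ (by omega)
    have h2 : (K + 2) * 1 ≤ (K + 2) * (e + 1) ^ 9 := Nat.mul_le_mul_left _ h1
    omega
  have hZK : K * (e + 1) ^ 9 ≤ Z := by
    rw [hZ]
    exact Nat.mul_le_mul_right _ (by omega)
  have hdZ : d ≤ Z ^ e := by
    have h1 : d < 2 ^ e := by
      rw [he]
      exact Nat.lt_pow_succ_log_self (by norm_num) d
    exact h1.le.trans (Nat.pow_le_pow_left hZ2 e)
  have hlog : 0 ≤ Real.log d := Real.log_nonneg hdR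
  have he3 : (e : ℝ) + 1 ≤ 3 * (1 + Real.log d) := by
    have h1 : 2 ^ Nat.log 2 d ≤ d := Nat.pow_log_le_self 2 (by omega)
    have h2 : (Nat.log 2 d : ℝ) * Real.log 2 ≤ Real.log d := by
      rw [← Real.log_pow]
      exact Real.log_le_log (by positivity) (by exact_mod_cast h1)
    have h3 : (1 : ℝ) / 2 ≤ Real.log 2 := by
      have := Real.log_two_gt_d9
      linarith
    have h4 : (Nat.log 2 d : ℝ) * (1 / 2) ≤ Nat.log 2 d * Real.log 2 :=
      mul_le_mul_of_nonneg_left h3 (Nat.cast_nonneg _)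
    rw [he]
    push_cast
    linarith
  have key := H e Z hZK (AlgebraicClosure ℚ) m (orderOf ξ) (φ ξ')
    (φ x') (φ α') hD hidx'
    (by rw [hdα]; exact hd.trans hdZ) ((map_ne_zero φ).2 hα'0) (by
      intro k hk1 j h
      apply hk k hk1 j
      have h1 : α' ^ k = (b : E) ^ j := by
        apply φ.injective
        rw [map_pow, h, map_zpow₀, map_natCast]
      have h2 := congrArg ψ h1
      rw [map_pow, hα', map_zpow₀, map_natCast] at h2
      exact h2)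
  rw [hh, hdα] at key
  have hh0 : 0 ≤ absLogHeight₁ α := Pool.Agent.H72.PB.ht_nonneg α
  have hdd : ((minpoly (IntermediateField.adjoin ℚ ({ξ, x} : Set Ω)) α).natDegree : ℝ) ≤ d := by
    exact_mod_cast hd
  have hZ33 : (Z : ℝ) ^ 33 ≤ (((K : ℝ) + 2) ^ 33 * 3 ^ 297) * (1 + Real.log d) ^ 300 := by
    have h1 : (Z : ℝ) = ((K : ℝ) + 2) * ((e : ℝ) + 1) ^ 9 := by
      rw [hZ]
      push_cast
      ring
    have h2 : ((e : ℝ) + 1) ^ 297 ≤ (3 * (1 + Real.log d)) ^ 297 :=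
      pow_le_pow_left₀ (by positivity) he3 297
    have h3 : (1 + Real.log d) ^ 297 ≤ (1 + Real.log d) ^ 300 :=
      pow_le_pow_right₀ (by linarith) (by norm_num)
    calc (Z : ℝ) ^ 33 = ((K : ℝ) + 2) ^ 33 * ((e : ℝ) + 1) ^ 297 := by
          rw [h1, mul_pow, ← pow_mul]
      _ ≤ ((K : ℝ) + 2) ^ 33 * (3 * (1 + Real.log d)) ^ 297 :=
          mul_le_mul_of_nonneg_left h2 (by positivity)
      _ = ((K : ℝ) + 2) ^ 33 * 3 ^ 297 * (1 + Real.log d) ^ 297 := by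
          rw [mul_pow, mul_assoc]
      _ ≤ _ := mul_le_mul_of_nonneg_left h3 (by positivity)
  obtain ⟨P, hP⟩ : ∃ P : ℝ, P = ((K : ℝ) + 2) ^ 33 * 3 ^ 297 := ⟨_, rfl⟩
  obtain ⟨Q, hQ⟩ : ∃ Q : ℝ, Q = (1 + Real.log d) ^ 300 := ⟨_, rfl⟩
  have hP0 : 0 < P := by rw [hP]; positivity
  have hQ0 : 0 ≤ Q := by rw [hQ]; positivity
  rw [← hP, ← hQ] at hZ33
  rw [← hP, ← hQ]
  have hfin : 1 ≤ P * (d * Q * absLogHeight₁ α) := by
    calc (1 : ℝ) ≤ (Z : ℝ) ^ 33 *
          ((minpoly (IntermediateField.adjoin ℚ ({ξ, x} : Set Ω)) α).natDegree *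
            absLogHeight₁ α) := key.le
      _ ≤ (P * Q) * (d * absLogHeight₁ α) :=
          mul_le_mul hZ33 (mul_le_mul_of_nonneg_right hdd hh0) (mul_nonneg (Nat.cast_nonneg _) hh0)
            (mul_nonneg hP0.le hQ0)
      _ = _ := by
          ring
  rw [inv_le_iff_one_le_mul₀' hP0]
  exact hfin


end Pool.Agent.H33.V6
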