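import Mathlib

/-!
# RadicalLehmer (MP_187c26_nt), all powers: inertia groups and subfields

`L / ℚ` Galois, `Q` a maximal ideal of `𝓞 L` above `p`, `I = Q.inertia (L ≃ₐ[ℚ] L)`, `τ : K → L`, `P = Q ∩ 𝓞 K` (by `τ`), `I_τ` the elements of `I` which are the identity on `τ K`.
`ram_top`: `v_Q(p) = #I`. PROOF: `Ideal.card_inertia_eq_ramificationIdxIn` (`Mathlib/NumberTheory/RamificationInertia/Galois.lean`, `R = ℤ` (or `𝓞 ℚ`), `S = 𝓞 L`; or `card_stabilizer_eq_card_inertia_mul_finrank`), `ramificationIdxIn_eq_ramificationIdx`, and `p ∈ Q ^ n ↔ n ≤ ramificationIdx` (`Ideal.le_pow_ramificationIdx`, `Ideal.ramificationIdx_lt`..).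
`ram_sub`: `v_Q(τ z) = v_P(z) #I_τ` and `#I = e₁ #I_τ`, `e₁ = v_P(p)`. PROOF: by `ram_top`-type statement for `L / K` (`Algebra K L` from `τ`, `IsGalois K L` by `IsGalois.tower_top_of_isScalarTower`, the group `L ≃ₐ[K] L` is the stabilizer of `τ K` in `L ≃ₐ[ℚ] L` (`AlgEquiv.restrictScalars`), so `I_τ` is the inertia group of `Q` in it and
`e(Q|P) = #I_τ`; `P 𝓞 L = Q^(e(Q|P)) J`, `J` prime to `Q`, so `z ∈ P^n ↔ τ z ∈ Q^(n e(Q|P))`; `Ideal.ramificationIdx_algebra_tower`: `e(Q|p) = e(P|p) e(Q|P)`. (`z ∈ P^n ↔ τ z ∈ Q^(n e)`: with `FinitePlace` or `emultiplicity`/`Multiset.count` in the factorisation of `span {z}`, `z ≠ 0`.)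
MODELS for such arguments: `Pool/Agent/H33/PT/Ram.lean`, `Pool/Agent/H72/AD/Ur0.lean`.
-/

set_option autoImplicit false

open NumberField

namespace Pool.Agent.H33.V6

private theorem ha_pow {S : Type} [CommRing S] [IsDedekindDomain S] (Q J : Ideal S) [hQ : Q.IsMaximal]
    (hQ0 : Q ≠ ⊥) (hJ : Q ⊔ J = ⊤) (k m : ℕ) : Q ^ k * J ≤ Q ^ m ↔ m ≤ k := by
  constructor
  · intro h
    by_contra hlt
    rw [not_le] at hlt
    have h1 : Q ^ k * J ≤ Q ^ (k + 1) := h.trans (Ideal.pow_le_pow_right hlt)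
    rw [← Ideal.dvd_iff_le, pow_succ, mul_dvd_mul_iff_left (pow_ne_zero k hQ0)] at h1
    have h2 : J ≤ Q := Ideal.dvd_iff_le.1 h1
    rw [sup_eq_left.2 h2] at hJ
    exact hQ.ne_top hJ
  · intro h
    exact Ideal.mul_le_left.trans (Ideal.pow_le_pow_right h)

private theorem ha_fac {R S : Type} [CommRing R] [CommRing S] [IsDomain R] [IsDedekindDomain S]
    [Algebra R S] (P : Ideal R) (Q : Ideal S) [Q.IsMaximal] [Q.LiesOver P] (hm : P.map (algebraMap R S) ≠ ⊥) :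
    ∃ J : Ideal S, Q ⊔ J = ⊤ ∧ P.map (algebraMap R S) = Q ^ Q.ramificationIdx R * J := by
  classical
  obtain ⟨J, hJ, h⟩ := Ideal.eq_prime_pow_mul_coprime hm Q
  refine ⟨J, hJ, ?_⟩
  rw [Ideal.IsDedekindDomain.ramificationIdx_eq_normalizedFactors_count P Q hm]
  exact h

private theorem ha_gen {R S : Type} [CommRing R] [CommRing S] [IsDedekindDomain R] [IsDedekindDomain S]
    [Algebra R S] [Module.Finite R S] (hinj : Function.Injective (algebraMap R S)) (P : Ideal R) (Q : Ideal S)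
    [P.IsMaximal] [Q.IsMaximal] [Q.LiesOver P] (hP0 : P ≠ ⊥) (z : R) (n : ℕ) :
    z ∈ P ^ n ↔ algebraMap R S z ∈ Q ^ (n * Q.ramificationIdx R) := by
  classical
  by_cases hz : z = 0
  · rw [hz, map_zero]
    exact ⟨fun _ => zero_mem _, fun _ => zero_mem _⟩
  · have hz' : Ideal.span {z} ≠ ⊥ := by
      rw [Ne, Ideal.span_singleton_eq_bot]
      exact hz
    have hm : P.map (algebraMap R S) ≠ ⊥ := by
      rw [Ne, Ideal.map_eq_bot_iff_of_injective hinj]
      exact hP0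
    have hQ0 : Q ≠ ⊥ := by
      intro h
      apply hm
      rw [eq_bot_iff, ← h]
      exact Ideal.map_le_iff_le_comap.2 (Ideal.LiesOver.over (p := P) (P := Q)).le
    obtain ⟨I, hI, h1⟩ := Ideal.eq_prime_pow_mul_coprime hz' P
    obtain ⟨J, hJ, h2⟩ := ha_fac P Q hm
    generalize Multiset.count P (UniqueFactorizationMonoid.normalizedFactors (Ideal.span {z})) = a at h1
    have he : 0 < Q.ramificationIdx R := Q.ramificationIdx_pos R
    have h3 : Ideal.span {algebraMap R S z} = Q ^ (a * Q.ramificationIdx R) * (J ^ a * I.map (algebraMap R S)) := by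
      have h4 := congrArg (Ideal.map (algebraMap R S)) h1
      rw [Ideal.map_span, Set.image_singleton, Ideal.map_mul, Ideal.map_pow, h2, mul_pow, ← pow_mul] at h4
      rw [h4, mul_comm a, mul_assoc]
    have h5 : Q ⊔ (J ^ a * I.map (algebraMap R S)) = ⊤ := by
      rw [← Ideal.isCoprime_iff_sup_eq]
      refine IsCoprime.mul_right (IsCoprime.pow_right (Ideal.isCoprime_iff_sup_eq.2 hJ)) ?_
      rw [Ideal.isCoprime_iff_sup_eq, eq_top_iff]
      have h6 : P.map (algebraMap R S) ⊔ I.map (algebraMap R S) = ⊤ := by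
        rw [← Ideal.map_sup, hI, Ideal.map_top]
      rw [← h6]
      exact sup_le_sup_right (Ideal.map_le_iff_le_comap.2 (Ideal.LiesOver.over (p := P) (P := Q)).le) _
    rw [← Ideal.span_singleton_le_iff_mem, h1, ha_pow P I hP0 hI, ← Ideal.span_singleton_le_iff_mem, h3,
      ha_pow Q _ hQ0 h5]
    exact ⟨fun h => Nat.mul_le_mul_right _ h, fun h => Nat.le_of_mul_le_mul_right h he⟩


private theorem ha_lies {M : Type} [Field M] [NumberField M] (l : ℕ) (hl : l.Prime) (Q : Ideal (𝓞 M)) [hQ : Q.IsPrime] (h : (l : 𝓞 M) ∈ Q) :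
    Q.LiesOver (Ideal.span {(l : ℤ)}) := by
  have hp : (Ideal.span {(l : ℤ)}).IsMaximal := by
    have hf : Fact l.Prime := ⟨hl⟩
    exact Int.ideal_span_isMaximal_of_prime l
  rw [Ideal.liesOver_iff]
  refine hp.eq_of_le (Ideal.IsPrime.under ℤ Q).ne_top ?_
  rw [Ideal.span_singleton_le_iff_mem]
  show algebraMap ℤ (𝓞 M) (l : ℤ) ∈ Q
  simpa using h

/-- The elements of the inertia group which are the identity on `τ K`. -/
def IH {K L : Type} [Field K] [Field L] [NumberField L] (τ : K →+* L) (Q : Ideal (𝓞 L)) :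
    Subgroup (L ≃ₐ[ℚ] L) where
  carrier := {σ | σ ∈ Q.inertia (L ≃ₐ[ℚ] L) ∧ ∀ z : K, σ (τ z) = τ z}
  mul_mem' := by
    rintro a c ⟨h1, h2⟩ ⟨h3, h4⟩
    refine ⟨mul_mem h1 h3, fun z => ?_⟩
    rw [AlgEquiv.mul_apply, h4, h2]
  one_mem' := ⟨one_mem _, fun z => rfl⟩
  inv_mem' := by
    rintro a ⟨h1, h2⟩
    refine ⟨inv_mem h1, fun z => ?_⟩
    have h3 := congrArg (a⁻¹ : L ≃ₐ[ℚ] L) (h2 z)
    rw [← AlgEquiv.mul_apply, inv_mul_cancel, AlgEquiv.one_apply] at h3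
    exact h3.symm

private theorem ha_card {L : Type} [Field L] [NumberField L] [IsGalois ℚ L] (p : ℕ) (hp : p.Prime)
    (Q : Ideal (𝓞 L)) (hQ : Q.IsMaximal) (hpQ : (p : 𝓞 L) ∈ Q) :
    Nat.card (Q.inertia (L ≃ₐ[ℚ] L)) = Q.ramificationIdx ℤ := by
  have i1 := ha_lies p hp Q hpQ
  have hmax : (Ideal.span {(p : ℤ)}).IsMaximal := by
    have hf : Fact p.Prime := ⟨hp⟩
    exact Int.ideal_span_isMaximal_of_prime p
  rw [Ideal.card_inertia_eq_ramificationIdxIn (R := ℤ) (S := 𝓞 L) (G := L ≃ₐ[ℚ] L) (Ideal.span {(p : ℤ)}) Q]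
  exact Ideal.ramificationIdxIn_eq_ramificationIdx (Ideal.span {(p : ℤ)}) Q (L ≃ₐ[ℚ] L)

theorem ram_top {L : Type} [Field L] [NumberField L] [IsGalois ℚ L] (p : ℕ) (hp : p.Prime)
    (Q : Ideal (𝓞 L)) (hQ : Q.IsMaximal) (hpQ : (p : 𝓞 L) ∈ Q) (n : ℕ) :
    (p : 𝓞 L) ∈ Q ^ n ↔ n ≤ Nat.card (Q.inertia (L ≃ₐ[ℚ] L)) := by
  have i1 := ha_lies p hp Q hpQ
  rw [ha_card p hp Q hQ hpQ]
  have hm0 : (p : 𝓞 L) ≠ 0 := by exact_mod_cast hp.ne_zero
  have hmap : (Ideal.span {(p : ℤ)}).map (algebraMap ℤ (𝓞 L)) = Ideal.span {(p : 𝓞 L)} := by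
    rw [Ideal.map_span, Set.image_singleton]
    simp
  have hm : (Ideal.span {(p : ℤ)}).map (algebraMap ℤ (𝓞 L)) ≠ ⊥ := by
    rw [hmap, Ne, Ideal.span_singleton_eq_bot]
    exact hm0
  have hQ0 : Q ≠ ⊥ := by
    rintro rfl
    exact hm0 ((Submodule.mem_bot _).1 hpQ)
  obtain ⟨J, hJ, h⟩ := ha_fac (Ideal.span {(p : ℤ)}) Q hm
  rw [hmap] at h
  rw [← Ideal.span_singleton_le_iff_mem, h]
  exact ha_pow Q J hQ0 hJ _ _

theorem ram_sub {K L : Type} [Field K] [NumberField K] [Field L] [NumberField L] [IsGalois ℚ L]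
    (p : ℕ) (hp : p.Prime) (Q : Ideal (𝓞 L)) (hQ : Q.IsMaximal) (hpQ : (p : 𝓞 L) ∈ Q)
    (τ : K →+* L) :
    (∃ e₁ : ℕ, 1 ≤ e₁ ∧ Nat.card (Q.inertia (L ≃ₐ[ℚ] L)) = e₁ * Nat.card (IH τ Q)) ∧
    ∀ (z : 𝓞 K) (n : ℕ), z ∈ (Q.comap (RingOfIntegers.mapRingHom τ)) ^ n ↔
      RingOfIntegers.mapRingHom τ z ∈ Q ^ (n * Nat.card (IH τ Q)) := by
  letI : Algebra K L := τ.toAlgebra
  have hmapτ : algebraMap (𝓞 K) (𝓞 L) = RingOfIntegers.mapRingHom τ := rfl
  have hτ : ∀ z : K, algebraMap K L z = τ z := fun z => rfl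
  have : IsScalarTower ℚ K L := inferInstance
  have : IsGalois K L := IsGalois.tower_top_of_isGalois ℚ K L
  have hinj : Function.Injective (algebraMap (𝓞 K) (𝓞 L)) := FaithfulSMul.algebraMap_injective _ _
  have hlies : Q.LiesOver (Q.comap (RingOfIntegers.mapRingHom τ)) := ⟨rfl⟩
  have hPmem : (p : 𝓞 K) ∈ Q.comap (RingOfIntegers.mapRingHom τ) := by
    rw [Ideal.mem_comap, map_natCast]
    exact hpQ
  have hPprime : (Q.comap (RingOfIntegers.mapRingHom τ)).IsPrime := Ideal.IsPrime.comap _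
  have hP0 : Q.comap (RingOfIntegers.mapRingHom τ) ≠ ⊥ := by
    intro h
    rw [h] at hPmem
    have h0 : (p : 𝓞 K) ≠ 0 := by exact_mod_cast hp.ne_zero
    exact h0 ((Submodule.mem_bot _).1 hPmem)
  have hPmax : (Q.comap (RingOfIntegers.mapRingHom τ)).IsMaximal := hPprime.isMaximal hP0
  have hcardK : Nat.card (Q.inertia (L ≃ₐ[K] L)) = Q.ramificationIdx (𝓞 K) := by
    rw [Ideal.card_inertia_eq_ramificationIdxIn (R := 𝓞 K) (S := 𝓞 L) (G := L ≃ₐ[K] L)
      (Q.comap (RingOfIntegers.mapRingHom τ)) Q]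
    exact Ideal.ramificationIdxIn_eq_ramificationIdx (Q.comap (RingOfIntegers.mapRingHom τ)) Q (L ≃ₐ[K] L)
  have hbij : Nat.card (IH τ Q) = Nat.card (Q.inertia (L ≃ₐ[K] L)) := by
    refine (Nat.card_congr (Equiv.ofBijective
      (fun σ : Q.inertia (L ≃ₐ[K] L) => (⟨σ.1.restrictScalars ℚ, ?_, ?_⟩ : IH τ Q)) ⟨?_, ?_⟩)).symm
    · intro x
      exact σ.2 x
    · intro z
      exact σ.1.commutes z
    · intro σ σ' h
      have h1 := congrArg (fun x : IH τ Q => (x.1 : L ≃ₐ[ℚ] L)) h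
      apply Subtype.ext
      apply AlgEquiv.ext
      intro x
      exact congrArg (fun f : L ≃ₐ[ℚ] L => f x) h1
    · rintro ⟨σ, h1, h2⟩
      refine ⟨⟨AlgEquiv.ofRingEquiv (f := σ.toRingEquiv) h2, ?_⟩, ?_⟩
      · intro x
        exact h1 x
      · apply Subtype.ext
        apply AlgEquiv.ext
        intro x
        rfl
  rw [hbij, hcardK]
  constructor
  · refine ⟨(Q.comap (RingOfIntegers.mapRingHom τ)).ramificationIdx ℤ, ?_, ?_⟩
    · have i2 := ha_lies p hp (Q.comap (RingOfIntegers.mapRingHom τ)) hPmem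
      exact Ideal.ramificationIdx_pos _ ℤ
    · rw [ha_card p hp Q hQ hpQ]
      exact Ideal.ramificationIdx_tower _ Q
  · intro z n
    exact ha_gen hinj (Q.comap (RingOfIntegers.mapRingHom τ)) Q hP0 z n

/-- Above every prime there is one: a Galois number field `L`, `τ : K → L` and `Q` with `Q ∩ 𝓞 K = P`. -/
theorem above {K : Type} [Field K] [NumberField K] (P : Ideal (𝓞 K)) (hP : P.IsMaximal) :
    ∃ (L : Type) (_ : Field L) (_ : NumberField L) (_ : IsGalois ℚ L) (τ : K →+* L)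
      (Q : Ideal (𝓞 L)), Q.IsMaximal ∧ Q.comap (RingOfIntegers.mapRingHom τ) = P := by
  have halg : Algebra.IsAlgebraic ℚ K := Algebra.IsAlgebraic.of_finite ℚ K
  have h : IsNormalClosure ℚ K (IntermediateField.normalClosure ℚ K (AlgebraicClosure K)) :=
    Algebra.IsAlgebraic.isNormalClosure_normalClosure (fun x => IsAlgClosed.splits _)
  have hN : Normal ℚ (IntermediateField.normalClosure ℚ K (AlgebraicClosure K)) := h.normal
  have hfd : FiniteDimensional ℚ (IntermediateField.normalClosure ℚ K (AlgebraicClosure K)) := inferInstance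
  have hnf : NumberField (IntermediateField.normalClosure ℚ K (AlgebraicClosure K)) := {}
  have hg : IsGalois ℚ (IntermediateField.normalClosure ℚ K (AlgebraicClosure K)) := {}
  obtain ⟨f⟩ : Nonempty (K →ₐ[ℚ] IntermediateField.normalClosure ℚ K (AlgebraicClosure K)) := by
    have h1 : Nonempty (K →ₐ[ℚ] AlgebraicClosure K) := ⟨IsScalarTower.toAlgHom ℚ K (AlgebraicClosure K)⟩
    exact (normalClosure.algHomEquiv ℚ K (AlgebraicClosure K)).nonempty_congr.2 h1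
  refine ⟨IntermediateField.normalClosure ℚ K (AlgebraicClosure K), inferInstance, hnf, hg, f.toRingHom, ?_⟩
  letI : Algebra K (IntermediateField.normalClosure ℚ K (AlgebraicClosure K)) := f.toRingHom.toAlgebra
  have hinj : Function.Injective (algebraMap (𝓞 K) (𝓞 (IntermediateField.normalClosure ℚ K (AlgebraicClosure K)))) :=
    FaithfulSMul.algebraMap_injective _ _
  obtain ⟨Q, hQ, hcomap⟩ := Ideal.exists_ideal_over_maximal_of_isIntegral
    (R := 𝓞 K) (S := 𝓞 (IntermediateField.normalClosure ℚ K (AlgebraicClosure K))) P (by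
      rw [(RingHom.injective_iff_ker_eq_bot _).1 hinj]
      exact bot_le)
  exact ⟨Q, hQ, hcomap⟩

end Pool.Agent.H33.V6
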