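import Pool.Agent.H33.V6.Ha

/-!
# RadicalLehmer (MP_187c26_nt), all powers: roots of unity

`L / ℚ` Galois, `Q` above `p`. `ru_val`: `v_Q(ζ - 1) = #I / φ(p^s)` for a primitive `p^s`-th root of unity `ζ`, `s ≥ 1`. PROOF: `∏_(i < p^s, p ∤ i) (1 - ζ^i) = p` (`Polynomial.cyclotomic_prime_pow_eq..`, `eval_one_cyclotomic_prime_pow`, `Polynomial.cyclotomic` as a product over primitive roots), every `1 - ζ^i` is a unit times
`1 - ζ` (`IsPrimitiveRoot.associated_sub_one..` or: `(1 - ζ^i)/(1 - ζ)` and its inverse are integers); Mathlib: `IsPrimitiveRoot.associated_norm..`, `IsCyclotomicExtension` files (`NumberTheory/NumberField/Cyclotomic/Ideal.lean`). So `p = u (ζ - 1)^φ`, and `ram_top`: `#I = φ c`, where `c = v_Q(ζ - 1)`.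
`ru_order`: `ζ^M = 1`, `ζ - 1 ∈ Q`, `p ∈ Q`: the order of `ζ` is a power of `p`. PROOF: order `n = p^s n'`, `p ∤ n'`, `η := ζ^(p^s)` is primitive of order `n'` and `η - 1 ∈ Q`; if `n' > 1` then `∏_(0 < i < n') (1 - η^i) = n'` is in `Q` and `p ∈ Q`, coprime: contradiction.
`ru_fix`: `ζ` primitive of order `p^s` and fixed by the inertia group: `p^s ≤ 2`. PROOF: `K := ℚ⟮ζ⟯`, `τ` the inclusion: `IH τ Q = I`, so `e₁ = 1` in `ram_sub`: `p ∉ P^2`; but `p = u (ζ - 1)^(φ(p^s))` in `𝓞 K`, `ζ - 1 ∈ P` (if `s ≥ 1`), so `φ(p^s) ≤ 1`.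
-/

set_option autoImplicit false

open NumberField

namespace Pool.Agent.H33.V6

variable {L : Type} [Field L] [NumberField L]

private theorem hb_assoc {R : Type} [CommRing R] [IsDomain R] (p : ℕ) (hp : p.Prime) (s : ℕ)
    (hs : 1 ≤ s) (ζ : R) (hζ : IsPrimitiveRoot ζ (p ^ s)) :
    Associated (p : R) ((ζ - 1) ^ Nat.totient (p ^ s)) := by
  classical
  have : Fact p.Prime := ⟨hp⟩
  obtain ⟨k, rfl⟩ : ∃ k, s = k + 1 := ⟨s - 1, by omega⟩
  have h1 := Polynomial.eval_one_cyclotomic_prime_pow (R := R) (p := p) k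
  rw [Polynomial.cyclotomic_eq_prod_X_sub_primitiveRoots hζ, Polynomial.eval_prod] at h1
  simp only [Polynomial.eval_sub, Polynomial.eval_X, Polynomial.eval_C] at h1
  have h2 : (ζ - 1) ^ Nat.totient (p ^ (k + 1)) =
      ∏ μ ∈ primitiveRoots (p ^ (k + 1)) R, (ζ - 1) := by
    rw [Finset.prod_const, hζ.card_primitiveRoots]
  rw [h2, ← h1]
  refine Associated.prod _ _ _ fun μ hμ => ?_
  have hpos : 0 < p ^ (k + 1) := pow_pos hp.pos _
  rw [mem_primitiveRoots hpos] at hμ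
  have : NeZero (p ^ (k + 1)) := ⟨hpos.ne'⟩
  obtain ⟨i, hi, hic, hie⟩ := hζ.isPrimitiveRoot_iff.1 hμ
  have h3 := hζ.associated_sub_one_pow_sub_one_of_coprime hic
  rw [hie] at h3
  have h4 : Associated (1 - μ) (μ - 1) := by
    refine ⟨-1, ?_⟩
    push_cast
    ring
  exact h4.trans h3.symm

private theorem hb_mem {R : Type} [CommRing R] {a b : R} (h : Associated a b) (I : Ideal R) :
    a ∈ I ↔ b ∈ I :=
  ⟨fun h1 => Ideal.mem_of_dvd I h.dvd h1, fun h1 => Ideal.mem_of_dvd I h.symm.dvd h1⟩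

private theorem hb_mult (Q : Ideal (𝓞 L)) (hQ : Q.IsMaximal) (hQ0 : Q ≠ ⊥) (a : 𝓞 L) (ha : a ≠ 0) :
    ∃ c : ℕ, ∀ m n : ℕ, a ^ m ∈ Q ^ n ↔ n ≤ m * c := by
  have hpr : Prime Q := Ideal.prime_of_isPrime hQ0 hQ.isPrime
  have hne : Ideal.span {a} ≠ 0 := by
    rw [Ne, Ideal.zero_eq_bot, Ideal.span_singleton_eq_bot]
    exact ha
  have hfin : FiniteMultiplicity Q (Ideal.span {a}) :=
    FiniteMultiplicity.of_prime_left hpr hne
  refine ⟨multiplicity Q (Ideal.span {a}), fun m n => ?_⟩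
  have h1 : a ^ m ∈ Q ^ n ↔ Q ^ n ∣ (Ideal.span {a}) ^ m := by
    rw [Ideal.span_singleton_pow, Ideal.dvd_iff_le, Ideal.span_singleton_le_iff_mem]
  rw [h1, pow_dvd_iff_le_emultiplicity, emultiplicity_pow hpr, hfin.emultiplicity_eq_multiplicity]
  exact_mod_cast Iff.rfl

theorem ru_val [IsGalois ℚ L] (p : ℕ) (hp : p.Prime) (Q : Ideal (𝓞 L)) (hQ : Q.IsMaximal)
    (hpQ : (p : 𝓞 L) ∈ Q) (s : ℕ) (hs : 1 ≤ s) (ζ : 𝓞 L) (hζ : IsPrimitiveRoot ζ (p ^ s)) :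
    ∃ c : ℕ, 1 ≤ c ∧ c * Nat.totient (p ^ s) = Nat.card (Q.inertia (L ≃ₐ[ℚ] L)) ∧
      ∀ n : ℕ, ζ - 1 ∈ Q ^ n ↔ n ≤ c := by
  have hp0 : (p : 𝓞 L) ≠ 0 := Nat.cast_ne_zero.2 hp.ne_zero
  have hQ0 : Q ≠ ⊥ := by
    rintro rfl
    exact hp0 ((Submodule.mem_bot _).1 hpQ)
  have hass := hb_assoc p hp s hs ζ hζ
  have ha : ζ - 1 ≠ 0 := by
    intro h
    rw [h, zero_pow (Nat.totient_pos.2 (pow_pos hp.pos _)).ne'] at hass
    exact hp0 ((associated_zero_iff_eq_zero _).1 hass)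
  obtain ⟨c, hc⟩ := hb_mult Q hQ hQ0 (ζ - 1) ha
  have htop := ram_top p hp Q hQ hpQ
  have hiff : ∀ n : ℕ, n ≤ Nat.card (Q.inertia (L ≃ₐ[ℚ] L)) ↔ n ≤ Nat.totient (p ^ s) * c := by
    intro n
    rw [← htop n, ← hc]
    exact hb_mem hass _
  have heq : Nat.card (Q.inertia (L ≃ₐ[ℚ] L)) = Nat.totient (p ^ s) * c :=
    le_antisymm ((hiff _).1 le_rfl) ((hiff _).2 le_rfl)
  have h1 : 1 ≤ Nat.card (Q.inertia (L ≃ₐ[ℚ] L)) := (htop 1).1 (by rw [pow_one]; exact hpQ)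
  refine ⟨c, ?_, by rw [heq, mul_comm], fun n => ?_⟩
  · rw [heq] at h1
    rcases Nat.eq_zero_or_pos c with h | h
    · rw [h, mul_zero] at h1
      omega
    · exact h
  · have := hc 1 n
    rwa [pow_one, one_mul] at this

theorem ru_order (p : ℕ) (hp : p.Prime) (Q : Ideal (𝓞 L)) (hQ : Q.IsMaximal)
    (hpQ : (p : 𝓞 L) ∈ Q) (M : ℕ) (hM : 1 ≤ M) (ζ : 𝓞 L) (h1 : ζ ^ M = 1) (h2 : ζ - 1 ∈ Q) :
    ∃ s : ℕ, IsPrimitiveRoot ζ (p ^ s) := by
  have hord : 0 < orderOf ζ := orderOf_pos_iff.2 (isOfFinOrder_iff_pow_eq_one.2 ⟨M, hM, h1⟩)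
  have hprim := IsPrimitiveRoot.orderOf ζ
  have key : orderOf ζ = p ^ (orderOf ζ).primeFactorsList.length := by
    refine Nat.eq_prime_pow_of_unique_prime_dvd hord.ne' ?_
    intro q hq hqd
    by_contra hqp
    obtain ⟨b, hb⟩ := hqd
    have hθ : IsPrimitiveRoot (ζ ^ b) (q ^ 1) := by
      rw [pow_one]
      exact hprim.pow hord (by rw [hb, mul_comm])
    have hass := hb_assoc q hq 1 le_rfl (ζ ^ b) hθ
    have h3 : ζ ^ b - 1 ∈ Q := by
      have h4 : ζ - 1 ∣ ζ ^ b - 1 := by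
        have := sub_dvd_pow_sub_pow ζ 1 b
        rwa [one_pow] at this
      exact Ideal.mem_of_dvd Q h4 h2
    have h5 : (ζ ^ b - 1) ^ Nat.totient (q ^ 1) ∈ Q :=
      Ideal.pow_mem_of_mem Q h3 _ (Nat.totient_pos.2 (pow_pos hq.pos _))
    have h6 : (q : 𝓞 L) ∈ Q := (hb_mem hass Q).2 h5
    have hco : Nat.Coprime p q := (Nat.coprime_primes hp hq).2 (fun h => hqp h.symm)
    have h7 : (1 : 𝓞 L) ∈ Q := by
      obtain ⟨u, v, huv⟩ := Nat.isCoprime_iff_coprime.2 hco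
      have h8 : ((u * (p : ℤ) + v * (q : ℤ) : ℤ) : 𝓞 L) = 1 := by
        rw [huv, Int.cast_one]
      rw [← h8]
      push_cast
      exact Q.add_mem (Q.mul_mem_left _ hpQ) (Q.mul_mem_left _ h6)
    exact hQ.ne_top ((Ideal.eq_top_iff_one Q).2 h7)
  exact ⟨_, key ▸ hprim⟩

theorem ru_fix [IsGalois ℚ L] (p : ℕ) (hp : p.Prime) (Q : Ideal (𝓞 L)) (hQ : Q.IsMaximal)
    (hpQ : (p : 𝓞 L) ∈ Q) (s : ℕ) (ζ : 𝓞 L) (hζ : IsPrimitiveRoot ζ (p ^ s))
    (hfix : ∀ σ ∈ Q.inertia (L ≃ₐ[ℚ] L), σ (ζ : L) = (ζ : L)) : ζ ^ 2 = 1 := by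
  rcases Nat.eq_zero_or_pos s with rfl | hs
  · rw [pow_zero] at hζ
    rw [IsPrimitiveRoot.one_right_iff] at hζ
    rw [hζ, one_pow]
  obtain ⟨c, hc1, hc2, hc3⟩ := ru_val p hp Q hQ hpQ s hs ζ hζ
  set K : IntermediateField ℚ L := IntermediateField.adjoin ℚ {(ζ : L)} with hK
  have hKf : K ≤ IntermediateField.fixedField (Q.inertia (L ≃ₐ[ℚ] L)) := by
    rw [hK, IntermediateField.adjoin_simple_le_iff, IntermediateField.mem_fixedField_iff]
    exact hfix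
  have hIH : IH (algebraMap K L) Q = Q.inertia (L ≃ₐ[ℚ] L) := by
    ext σ
    constructor
    · intro h
      exact h.1
    · intro h
      refine ⟨h, fun z => ?_⟩
      exact (IntermediateField.mem_fixedField_iff _ _).1 (hKf z.2) σ h
  have hmem : (ζ : L) ∈ K := IntermediateField.mem_adjoin_simple_self ℚ _
  have hint : IsIntegral ℤ (⟨(ζ : L), hmem⟩ : K) := by
    have h1 : IsIntegral ℤ (ζ : L) := ζ.2
    have h2 : algebraMap K L ⟨(ζ : L), hmem⟩ = (ζ : L) := rfl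
    rw [← h2] at h1
    exact (isIntegral_algebraMap_iff (algebraMap K L).injective).1 h1
  obtain ⟨_, hsub⟩ := ram_sub p hp Q hQ hpQ (algebraMap K L)
  obtain ⟨z, hz⟩ : ∃ z : 𝓞 K, RingOfIntegers.mapRingHom (algebraMap K L) z = ζ :=
    ⟨⟨⟨(ζ : L), hmem⟩, hint⟩, by ext; rfl⟩
  have h3 := hsub (z - 1) 1
  have h4 : RingOfIntegers.mapRingHom (algebraMap K L) (z - 1) = ζ - 1 := by
    rw [map_sub, map_one, hz]
  rw [h4, pow_one, Ideal.mem_comap, h4, one_mul, hIH] at h3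
  have h5 : ζ - 1 ∈ Q := by
    have := (hc3 1).2 hc1
    rwa [pow_one] at this
  have h6 : Nat.card (Q.inertia (L ≃ₐ[ℚ] L)) ≤ c := (hc3 _).1 (h3.1 h5)
  have h7 : Nat.totient (p ^ s) = 1 := by
    have h8 : 0 < Nat.totient (p ^ s) := Nat.totient_pos.2 (pow_pos hp.pos _)
    rw [← hc2] at h6
    have h9 : Nat.totient (p ^ s) ≤ 1 := by
      by_contra h
      push Not at h
      nlinarith
    omega
  have h8 := hζ.pow_eq_one
  rcases Nat.totient_eq_one_iff.1 h7 with h | h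
  · rw [h, pow_one] at h8
    rw [h8, one_pow]
  · rw [h] at h8
    exact h8

end Pool.Agent.H33.V6
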