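import Pool.Agent.H33.V6.Hb

/-!
# RadicalLehmer (MP_187c26_nt), all powers: ramified primes

`y^M = b`, `M = p^j m'`, `p ∤ m' b`, `K = ℚ(y)`, `P` a prime of `K` above `p` with `p ∈ P^2`. Then `y^(m') - b ∉ P^2`.
PROOF. `above`: `L`, `τ`, `Q` (`p ∈ Q`). `I` the inertia group, `e₂ = #I_τ`, `#I = e₁ e₂` (`ram_sub`), `p ∈ P^2`: `p ∈ Q^(2 e₂)`, so `2 e₂ ≤ e₁ e₂` (`ram_top`), `e₁ ≥ 2`. `Y := τ y ∈ 𝓞 L`, `Y ∉ Q` (`Y^M = b`, `p ∤ b`: `b ∈ Q` and `p ∈ Q` give `1 ∈ Q`).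
For `σ ∈ I`: `σ Y = ζ_σ Y`, `ζ_σ ∈ 𝓞 L` (`ζ_σ = σ Y / Y`, `ζ_σ^M = 1`, so integral), `(ζ_σ - 1) Y = σ Y - Y ∈ Q`, `Y ∉ Q`: `ζ_σ - 1 ∈ Q`, so the order of `ζ_σ` is `p^(s_σ)` (`ru_order`). `ζ_σ = ζ_σ'` iff `σ⁻¹ σ'` fixes `Y`, iff it is the identity on `τ K` (`K = ℚ(y)`), so the fibres of `σ ↦ ζ_σ` on `I` are cosets of `I_τ` and the set
`C = {ζ_σ}` has `e₁` elements. Let `s` be the maximum of the `s_σ`: `C` lies in the `p^s`-th roots of unity: `e₁ ≤ p^s`, so `s ≥ 1`. Choose `σ ∈ I` with `ζ := ζ_σ^(m')` primitive of order `p^s` (`p ∤ m'`), `ru_val`: `v_Q(ζ - 1) = c`, `c φ(p^s) = e₁ e₂`.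
Suppose `z = y^(m') - b ∈ P^2`, `Z := τ z ∈ Q^(2 e₂)` (`ram_sub`), `σ Z ∈ Q^(2 e₂)` (`σ Q = Q` as `σ ∈ I`: `σ w = w + (σ w - w)`), `σ Z - Z = Y^(m') (ζ - 1)`, `Y ∉ Q`: `ζ - 1 ∈ Q^(2 e₂)`, `2 e₂ ≤ c`, `2 e₂ φ(p^s) ≤ e₁ e₂ ≤ p^s e₂`: `2 (p - 1) ≤ p`, so `p = 2` and `2 e₂ = c` (`2 e₂ 2^(s-1) ≤ c 2^(s-1) = e₁ e₂ ≤ 2^s e₂`).
`p = 2`: `Q^c = span {ζ - 1} ⊔ Q^(c+1)` (`v_Q(ζ - 1) = c`), so `Z = a (ζ - 1) + w`, `w ∈ Q^(c+1)`, `σ Z - Z = (σ a - a) σ(ζ - 1) + a (σ ζ - ζ) + (σ w - w)`; the first term is in `Q Q^c`, the last in `Q^(c+1)`; `σ ζ = ζ^χ` with `χ` odd (`σ ζ` is a primitive `2^s`-th root), so `σ ζ - ζ = ζ (ζ^(χ-1) - 1) = ζ (ζ - 1)(1 + ζ + .. + ζ^(χ-2))` and the last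
factor is `≡ χ - 1 ≡ 0` modulo `Q` (`2 ∈ Q`, `ζ ≡ 1`). So `σ Z - Z ∈ Q^(c+1)`, but `σ Z - Z = Y^(m') (ζ - 1) ∉ Q^(c+1)`. Contradiction.
-/

set_option autoImplicit false

open NumberField IntermediateField

namespace Pool.Agent.H33.V6

/-- `σ` in the inertia group maps `Q ^ n` into itself. -/
private theorem hc_map {L : Type} [Field L] [NumberField L] (Q : Ideal (𝓞 L))
    (σ : L ≃ₐ[ℚ] L) (hσ : σ ∈ Q.inertia (L ≃ₐ[ℚ] L)) (n : ℕ) (w : 𝓞 L) (hw : w ∈ Q ^ n) :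
    σ • w ∈ Q ^ n := by
  have h1 : Q ≤ Q.comap (MulSemiringAction.toRingHom (L ≃ₐ[ℚ] L) (𝓞 L) σ) := by
    intro x hx
    rw [Ideal.mem_comap]
    have h2 : σ • x - x ∈ Q := hσ x
    have h3 := Q.add_mem h2 hx
    rwa [sub_add_cancel] at h3
  have h2 := (Ideal.pow_right_mono h1 n).trans
    (Ideal.le_comap_pow (MulSemiringAction.toRingHom (L ≃ₐ[ℚ] L) (𝓞 L) σ) (K := Q) n)
  exact h2 hw

/-- the quotient `σ Y / Y` is an integral root of unity -/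
private theorem hc_zeta {L : Type} [Field L] [NumberField L] (b M : ℕ) (hM : 1 ≤ M) (Y : 𝓞 L)
    (hY0 : Y ≠ 0) (hY : Y ^ M = (b : 𝓞 L)) (σ : L ≃ₐ[ℚ] L) :
    ∃ ζ : 𝓞 L, σ • Y = ζ * Y ∧ ζ ^ M = 1 := by
  have hY0' : (Y : L) ≠ 0 := by
    intro h
    exact hY0 (RingOfIntegers.ext h)
  have hYL : (Y : L) ^ M = (b : L) := by
    have h1 := congrArg (fun z : 𝓞 L => (z : L)) hY
    push_cast at h1
    exact h1
  have h1 : (σ (Y : L) / (Y : L)) ^ M = 1 := by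
    rw [div_pow, ← map_pow, hYL, map_natCast, div_self]
    rw [← hYL]
    exact pow_ne_zero _ hY0'
  have h2 : IsIntegral ℤ (σ (Y : L) / (Y : L)) := by
    refine IsIntegral.of_pow hM ?_
    rw [h1]
    exact isIntegral_one
  refine ⟨⟨σ (Y : L) / (Y : L), h2⟩, ?_, ?_⟩
  · apply RingOfIntegers.ext
    change σ (Y : L) = σ (Y : L) / (Y : L) * (Y : L)
    rw [div_mul_cancel₀ _ hY0']
  · apply RingOfIntegers.ext
    exact h1

private theorem hc_hom {K L : Type} [Field K] [NumberField K] [Field L] [NumberField L]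
    (y : K) (htop : ℚ⟮y⟯ = ⊤) (τ : K →+* L) (σ : L ≃ₐ[ℚ] L) (h : σ (τ y) = τ y) (z : K) :
    σ (τ z) = τ z := by
  have hz : z ∈ ℚ⟮y⟯ := by rw [htop]; exact IntermediateField.mem_top
  refine IntermediateField.adjoin_induction ℚ
    (p := fun z _ => σ (τ z) = τ z) ?_ ?_ ?_ ?_ ?_ hz
  · intro x hx
    rw [Set.mem_singleton_iff] at hx
    rw [hx, h]
  · intro q
    have h1 : τ (algebraMap ℚ K q) = algebraMap ℚ L q := by
      rw [eq_ratCast, map_ratCast, eq_ratCast]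
    rw [h1, AlgEquiv.commutes]
  · intro x x' _ _ h1 h2
    rw [map_add, map_add, h1, h2]
  · intro x _ h1
    rw [map_inv₀, map_inv₀, h1]
  · intro x x' _ _ h1 h2
    rw [map_mul, map_mul, h1, h2]

/-- the case `p = 2` -/
private theorem hc_two {L : Type} [Field L] [NumberField L] (Q : Ideal (𝓞 L)) (hQ : Q.IsMaximal)
    (hQ0 : Q ≠ ⊥) (h2Q : (2 : 𝓞 L) ∈ Q) (σ : L ≃ₐ[ℚ] L) (hσ : σ ∈ Q.inertia (L ≃ₐ[ℚ] L))
    (s : ℕ) (hs : 1 ≤ s) (ζ : 𝓞 L) (hζ : IsPrimitiveRoot ζ (2 ^ s)) (c : ℕ) (hc1 : 1 ≤ c)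
    (hc : ∀ n : ℕ, ζ - 1 ∈ Q ^ n ↔ n ≤ c) (Z : 𝓞 L) (hZ : Z ∈ Q ^ c) :
    σ • Z - Z ∈ Q ^ (c + 1) := by
  have hcm : ζ - 1 ∈ Q ^ c := (hc c).2 le_rfl
  have hcn : ζ - 1 ∉ Q ^ (c + 1) := fun h => by
    have := (hc _).1 h
    omega
  have hpr : Q.IsPrime := hQ.isPrime
  obtain ⟨d, w, hw, hZe⟩ := Ideal.exists_mul_add_mem_pow_succ hQ0 (ζ - 1) Z hcm hcn hZ
  have h1 : σ • Z - Z = (σ • (ζ - 1)) * (σ • d - d) + (σ • ζ - ζ) * d + (σ • w - w) := by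
    rw [← hZe, smul_add, smul_mul', smul_sub, smul_one]
    ring
  rw [h1]
  refine Ideal.add_mem _ (Ideal.add_mem _ ?_ ?_) ?_
  · rw [pow_succ]
    exact Ideal.mul_mem_mul (hc_map Q σ hσ c _ hcm) (hσ d)
  · refine Ideal.mul_mem_right _ _ ?_
    have h2 : IsPrimitiveRoot (σ • ζ) (2 ^ s) := by
      have h3 : Function.Injective (MulSemiringAction.toRingHom (L ≃ₐ[ℚ] L) (𝓞 L) σ) :=
        MulAction.injective σ
      exact hζ.map_of_injective h3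
    have : NeZero (2 ^ s) := ⟨(pow_pos (by norm_num) _).ne'⟩
    obtain ⟨i, hi, hic, hie⟩ := hζ.isPrimitiveRoot_iff.1 h2
    have hodd : Odd i := by
      rw [← Nat.coprime_two_right]
      exact Nat.Coprime.coprime_dvd_right (dvd_pow_self 2 (by omega)) hic
    obtain ⟨r, hr⟩ := hodd
    have h4 : σ • ζ - ζ = ζ * ((ζ ^ 2) ^ r - 1) := by
      rw [← hie, hr, ← pow_mul, pow_succ]
      ring
    rw [h4]
    refine Ideal.mul_mem_left _ _ ?_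
    have h5 : ζ ^ 2 - 1 ∣ (ζ ^ 2) ^ r - 1 := by
      have := sub_dvd_pow_sub_pow (ζ ^ 2) 1 r
      rwa [one_pow] at this
    refine Ideal.mem_of_dvd _ h5 ?_
    have h6 : ζ ^ 2 - 1 = (ζ - 1) * ((ζ - 1) + 2) := by ring
    rw [h6, pow_succ]
    refine Ideal.mul_mem_mul hcm (Q.add_mem ?_ h2Q)
    have := (hc 1).2 hc1
    rwa [pow_one] at this
  · exact Ideal.sub_mem _ (hc_map Q σ hσ _ _ hw) hw

/-- counting: the values `ζ_σ` lie in the `N`-th roots of unity -/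
private theorem hc_count {L : Type} [Field L] [NumberField L] (H J : Subgroup (L ≃ₐ[ℚ] L))
    (Y : 𝓞 L) (N : ℕ) (hN : 1 ≤ N)
    (hz : ∀ σ ∈ H, ∃ ζ : 𝓞 L, σ • Y = ζ * Y ∧ ζ ^ N = 1)
    (hJ : ∀ σ ∈ H, σ • Y = Y → σ ∈ J) : Nat.card H ≤ Nat.card J * N := by
  classical
  have : Fintype (L ≃ₐ[ℚ] L) := Fintype.ofFinite _
  choose f hf using hz
  let g : H → 𝓞 L := fun σ => f σ.1 σ.2
  have hg1 : ∀ σ : H, σ.1 • Y = g σ * Y := fun σ => (hf σ.1 σ.2).1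
  have hg2 : ∀ σ : H, g σ ^ N = 1 := fun σ => (hf σ.1 σ.2).2
  have h1 : (Finset.univ : Finset H).card ≤
      Nat.card J * (Polynomial.nthRootsFinset N (1 : 𝓞 L)).card := by
    refine Finset.card_le_mul_card_image_of_maps_to (f := g) ?_ _ ?_
    · intro σ _
      rw [Polynomial.mem_nthRootsFinset hN]
      exact hg2 σ
    · intro ζ _
      rcases Finset.eq_empty_or_nonempty ({a ∈ (Finset.univ : Finset H) | g a = ζ}) with he | ⟨a, ha⟩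
      · rw [he, Finset.card_empty]
        exact Nat.zero_le _
      · rw [Finset.mem_filter] at ha
        have hmem : ∀ c ∈ ({a ∈ (Finset.univ : Finset H) | g a = ζ} : Finset H),
            (a.1)⁻¹ * c.1 ∈ J := by
          intro c hc
          rw [Finset.mem_filter] at hc
          refine hJ _ (H.mul_mem (H.inv_mem a.2) c.2) ?_
          rw [mul_smul, hg1 c, hc.2, ← ha.2, ← hg1 a, inv_smul_smul]
        have h2 : ({a ∈ (Finset.univ : Finset H) | g a = ζ} : Finset H).card ≤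
            (Finset.univ : Finset J).card := by
          refine Finset.card_le_card_of_injOn
            (fun c => if h : (a.1)⁻¹ * c.1 ∈ J then (⟨(a.1)⁻¹ * c.1, h⟩ : J) else 1) ?_ ?_
          · intro c _
            exact Finset.mem_coe.2 (Finset.mem_univ _)
          · intro c hc c' hc' hcc
            have e1 := hmem c (Finset.mem_coe.1 hc)
            have e2 := hmem c' (Finset.mem_coe.1 hc')
            simp only [dif_pos e1, dif_pos e2] at hcc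
            have e3 := congrArg Subtype.val hcc
            simp only at e3
            exact Subtype.ext (mul_left_cancel e3)
        rwa [Finset.card_univ, ← Nat.card_eq_fintype_card] at h2
  have h2 : (Polynomial.nthRootsFinset N (1 : 𝓞 L)).card ≤ N := by
    refine le_trans (Multiset.toFinset_card_le _) ?_
    exact Polynomial.card_nthRoots N 1
  rw [Finset.card_univ, ← Nat.card_eq_fintype_card] at h1
  exact h1.trans (Nat.mul_le_mul_left _ h2)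

theorem in1 (p : ℕ) (hp : p.Prime) (b M j m' : ℕ) (hM : M = p ^ j * m') (hm' : ¬ p ∣ m')
    (hpb : ¬ p ∣ b) (K : Type) [Field K] [NumberField K] (y : 𝓞 K) (hy : y ^ M = (b : 𝓞 K))
    (htop : ℚ⟮(y : K)⟯ = ⊤) (P : Ideal (𝓞 K)) (hP : P.IsMaximal) (hp2 : (p : 𝓞 K) ∈ P ^ 2) :
    y ^ m' - (b : 𝓞 K) ∉ P ^ 2 := by
  intro hz
  have hm0 : m' ≠ 0 := by
    rintro rfl
    exact hm' (dvd_zero p)
  have hM1 : 1 ≤ M := by
    rw [hM]
    exact Nat.mul_pos (pow_pos hp.pos _) (Nat.pos_of_ne_zero hm0)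
  obtain ⟨L, _, _, _, τ, Q, hQ, hPQ⟩ := above P hP
  have hQp : Q.IsPrime := hQ.isPrime
  have hpQ : (p : 𝓞 L) ∈ Q := by
    have h1 : (p : 𝓞 K) ∈ P := Ideal.pow_le_self (by norm_num) hp2
    rw [← hPQ, Ideal.mem_comap, map_natCast] at h1
    exact h1
  have hQ0 : Q ≠ ⊥ := by
    rintro rfl
    exact (Nat.cast_ne_zero.2 hp.ne_zero) ((Submodule.mem_bot _).1 hpQ)
  obtain ⟨⟨e₁, he1, hcard⟩, hsub⟩ := ram_sub p hp Q hQ hpQ τ
  rw [hPQ] at hsub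
  set e₂ := Nat.card (IH τ Q) with he₂
  have he2 : 1 ≤ e₂ := Nat.card_pos
  set T := RingOfIntegers.mapRingHom τ with hT
  set Y : 𝓞 L := T y with hYdef
  have hYM : Y ^ M = (b : 𝓞 L) := by
    rw [hYdef, ← map_pow, hy, map_natCast]
  have hco : (b : 𝓞 L) ∉ Q := by
    intro hb
    have hcop : Nat.Coprime p b := (Nat.Prime.coprime_iff_not_dvd hp).2 hpb
    obtain ⟨u, v, huv⟩ := Nat.isCoprime_iff_coprime.2 hcop
    have h8 : ((u * (p : ℤ) + v * (b : ℤ) : ℤ) : 𝓞 L) = 1 := by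
      rw [huv, Int.cast_one]
    have h7 : (1 : 𝓞 L) ∈ Q := by
      rw [← h8]
      push_cast
      exact Q.add_mem (Q.mul_mem_left _ hpQ) (Q.mul_mem_left _ hb)
    exact hQ.ne_top ((Ideal.eq_top_iff_one Q).2 h7)
  have hYQ : Y ∉ Q := by
    intro h
    refine hco ?_
    rw [← hYM]
    exact Ideal.pow_mem_of_mem Q h M hM1
  have hY0 : Y ≠ 0 := by
    rintro h
    rw [h] at hYQ
    exact hYQ Q.zero_mem
  -- the roots of unity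
  have hzeta : ∀ σ ∈ Q.inertia (L ≃ₐ[ℚ] L), ∃ ζ : 𝓞 L, σ • Y = ζ * Y ∧
      ∃ t : ℕ, t ≤ j ∧ IsPrimitiveRoot ζ (p ^ t) := by
    intro σ hσ
    obtain ⟨ζ, h1, h2⟩ := hc_zeta b M hM1 Y hY0 hYM σ
    have h3 : (ζ - 1) * Y ∈ Q := by
      have h4 : σ • Y - Y ∈ Q := hσ Y
      rw [h1] at h4
      rwa [sub_mul, one_mul]
    have h4 : ζ - 1 ∈ Q := (hQp.mem_or_mem h3).resolve_right hYQ
    obtain ⟨t, ht⟩ := ru_order p hp Q hQ hpQ M hM1 ζ h2 h4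
    refine ⟨ζ, h1, t, ?_, ht⟩
    have h5 : p ^ t ∣ M := ht.dvd_of_pow_eq_one M h2
    rw [hM] at h5
    have h6 : Nat.Coprime (p ^ t) m' :=
      Nat.Coprime.pow_left _ ((Nat.Prime.coprime_iff_not_dvd hp).2 hm')
    have h7 := h6.dvd_of_dvd_mul_right h5
    exact (Nat.pow_dvd_pow_iff_le_right hp.one_lt).1 h7
  have hex : ∃ s : ℕ, ∀ σ ∈ Q.inertia (L ≃ₐ[ℚ] L), ∃ ζ : 𝓞 L, σ • Y = ζ * Y ∧ ζ ^ p ^ s = 1 := by
    refine ⟨j, fun σ hσ => ?_⟩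
    obtain ⟨ζ, h1, t, ht, h2⟩ := hzeta σ hσ
    refine ⟨ζ, h1, ?_⟩
    rw [h2.pow_eq_one_iff_dvd]
    exact pow_dvd_pow p ht
  classical
  obtain ⟨s, hs1, hs2⟩ : ∃ s : ℕ, (∀ σ ∈ Q.inertia (L ≃ₐ[ℚ] L),
      ∃ ζ : 𝓞 L, σ • Y = ζ * Y ∧ ζ ^ p ^ s = 1) ∧ ∀ s' < s, ¬ (∀ σ ∈ Q.inertia (L ≃ₐ[ℚ] L),
      ∃ ζ : 𝓞 L, σ • Y = ζ * Y ∧ ζ ^ p ^ s' = 1) :=
    ⟨Nat.find hex, Nat.find_spec hex, fun s' hs' => Nat.find_min hex hs'⟩
  have hIH : ∀ σ ∈ Q.inertia (L ≃ₐ[ℚ] L), σ • Y = Y → σ ∈ IH τ Q := by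
    intro σ hσ h
    refine ⟨hσ, hc_hom (y : K) htop τ σ ?_⟩
    have h1 := congrArg (fun z : 𝓞 L => (z : L)) h
    exact h1
  have hcnt := hc_count (Q.inertia (L ≃ₐ[ℚ] L)) (IH τ Q) Y (p ^ s)
    (pow_pos hp.pos _) hs1 hIH
  rw [hcard, ← he₂] at hcnt
  have he1s : e₁ ≤ p ^ s := by
    have h1 : e₂ * e₁ ≤ e₂ * p ^ s := by
      rw [mul_comm e₂ e₁]
      exact hcnt
    exact Nat.le_of_mul_le_mul_left h1 he2
  -- `2 ≤ e₁`
  have h2e : 2 * e₂ ≤ e₁ * e₂ := by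
    have h1 := (hsub (p : 𝓞 K) 2).1 hp2
    rw [map_natCast, ram_top p hp Q hQ hpQ, hcard] at h1
    exact h1
  have h2e1 : 2 ≤ e₁ := Nat.le_of_mul_le_mul_right h2e he2
  have hs0 : 1 ≤ s := by
    rcases Nat.eq_zero_or_pos s with h | h
    · rw [h, pow_zero] at he1s
      omega
    · exact h
  obtain ⟨σ, hσ, ζ₀, hζY, hζp⟩ : ∃ σ ∈ Q.inertia (L ≃ₐ[ℚ] L), ∃ ζ : 𝓞 L, σ • Y = ζ * Y ∧
      IsPrimitiveRoot ζ (p ^ s) := by
    by_contra hcon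
    push Not at hcon
    refine hs2 (s - 1) (by omega) fun σ hσ => ?_
    obtain ⟨ζ, h1, t, ht, h2⟩ := hzeta σ hσ
    refine ⟨ζ, h1, ?_⟩
    obtain ⟨ζ', h1', h2'⟩ := hs1 σ hσ
    have h3 : ζ' = ζ := by
      have h4 : ζ' * Y = ζ * Y := by rw [← h1', h1]
      exact mul_right_cancel₀ hY0 h4
    rw [h3] at h2'
    have h5 : t ≤ s := by
      rw [h2.pow_eq_one_iff_dvd] at h2'
      exact (Nat.pow_dvd_pow_iff_le_right hp.one_lt).1 h2'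
    have h6 : t ≠ s := by
      rintro rfl
      exact hcon σ hσ ζ h1 h2
    rw [h2.pow_eq_one_iff_dvd]
    exact pow_dvd_pow p (by omega)
  have hcopm : Nat.Coprime m' (p ^ s) :=
    (Nat.Coprime.pow_left _ ((Nat.Prime.coprime_iff_not_dvd hp).2 hm')).symm
  set ζ : 𝓞 L := ζ₀ ^ m' with hζdef
  have hζ : IsPrimitiveRoot ζ (p ^ s) := hζp.pow_of_coprime m' hcopm
  obtain ⟨c, hc1, hc2, hc3⟩ := ru_val p hp Q hQ hpQ s hs0 ζ hζ
  have hZ : T (y ^ m' - (b : 𝓞 K)) ∈ Q ^ (2 * e₂) := (hsub _ 2).1 hz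
  have hZe : T (y ^ m' - (b : 𝓞 K)) = Y ^ m' - (b : 𝓞 L) := by
    rw [map_sub, map_pow, map_natCast]
  rw [hZe] at hZ
  set Z : 𝓞 L := Y ^ m' - (b : 𝓞 L) with hZdef
  have hsb : σ • (b : 𝓞 L) = (b : 𝓞 L) := by
    have := map_natCast (MulSemiringAction.toRingHom (L ≃ₐ[ℚ] L) (𝓞 L) σ) b
    exact this
  have hdiff : σ • Z - Z = (ζ - 1) * Y ^ m' := by
    rw [hZdef, smul_sub, hsb, smul_pow', hζY, mul_pow, ← hζdef]
    ring
  have hYm : Y ^ m' ∉ Q := fun h => hYQ (hQp.mem_of_pow_mem _ h)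
  have hkey : ∀ n : ℕ, σ • Z - Z ∈ Q ^ n → n ≤ c := by
    intro n hn
    rw [hdiff, mul_comm] at hn
    exact (hc3 n).1 ((Ideal.IsMaximal.mul_mem_pow Q hn).resolve_left hYm)
  have h2c : 2 * e₂ ≤ c := hkey _ (Ideal.sub_mem _ (hc_map Q σ hσ _ _ hZ) hZ)
  -- `c φ(p^s) = e₁ e₂ ≤ p^s e₂`
  have hφ : Nat.totient (p ^ s) = p ^ (s - 1) * (p - 1) := Nat.totient_prime_pow hp hs0
  rw [hφ, hcard] at hc2
  have hps : p ^ s = p ^ (s - 1) * p := by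
    rw [← pow_succ]
    have : s - 1 + 1 = s := by omega
    rw [this]
  have h3 : c * (p - 1) ≤ p * e₂ := by
    have h4 : p ^ (s - 1) * (c * (p - 1)) ≤ p ^ (s - 1) * (p * e₂) := by
      calc p ^ (s - 1) * (c * (p - 1)) = c * (p ^ (s - 1) * (p - 1)) := by ring
        _ = e₁ * e₂ := hc2
        _ ≤ p ^ s * e₂ := Nat.mul_le_mul_right _ he1s
        _ = p ^ (s - 1) * (p * e₂) := by rw [hps]; ring
    exact Nat.le_of_mul_le_mul_left h4 (pow_pos hp.pos _)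
  have h4 : 2 * (p - 1) ≤ p := by
    have h5 : e₂ * (2 * (p - 1)) ≤ e₂ * p := by
      calc e₂ * (2 * (p - 1)) = 2 * e₂ * (p - 1) := by ring
        _ ≤ c * (p - 1) := Nat.mul_le_mul_right _ h2c
        _ ≤ p * e₂ := h3
        _ = e₂ * p := mul_comm _ _
    exact Nat.le_of_mul_le_mul_left h5 he2
  have hp2' : p = 2 := by
    have := hp.two_le
    omega
  subst hp2'
  have hce : c = 2 * e₂ := by omega
  rw [← hce] at hZ
  have h5 := hc_two Q hQ hQ0 (by simpa using hpQ) σ hσ s hs0 ζ hζ c hc1 hc3 Z hZ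
  have h6 := hkey _ h5
  omega

end Pool.Agent.H33.V6
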