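import Pool.Agent.H33.V6.Hb

/-!
# RadicalLehmer (MP_187c26_nt), all powers: the number of unramified embeddings

`Fx τ Q`: the inertia group of `Q` is the identity on `τ K`. `in2b`: `y^M = b`, `M = p^j m'`, `p ∤ m' b`, `K = ℚ(y)`: at most `2 m'` embeddings `τ : K → L` satisfy `Fx τ Q`.
PROOF of `in2b`: `τ ↦ τ y` is injective (`K = ℚ(y)`). Fix one such `τ₀` (if there is none: `0`), `Y = τ₀ y`; `τ y = ζ Y`, `ζ ∈ 𝓞 L`, `ζ^M = 1` (`Y ≠ 0` as `p ∤ b`), and `ζ` is fixed by `I`. `η := ζ^(m')`: `η^(p^j) = 1`, so `η` is primitive of order `p^s` for some `s` (`IsPrimitiveRoot.orderOf`, `Nat.dvd_prime_pow`), fixed by `I`, `ru_fix`: `η^2 = 1`,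
`ζ^(2 m') = 1`: at most `2 m'` such `ζ` (`Polynomial.card_nthRoots`, `m' ≥ 1` as `¬ p ∣ m'`).
-/

set_option autoImplicit false

open NumberField IntermediateField

namespace Pool.Agent.H33.V6

/-- The inertia group of `Q` is the identity on `τ K`. -/
def Fx {K L : Type} [Field K] [Field L] [NumberField L] (τ : K →+* L) (Q : Ideal (𝓞 L)) : Prop :=
  ∀ σ ∈ Q.inertia (L ≃ₐ[ℚ] L), ∀ z : K, σ (τ z) = τ z

private theorem hom_ext_gen {K L : Type} [Field K] [NumberField K] [Field L] [NumberField L]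
    (y : K) (htop : ℚ⟮y⟯ = ⊤) (τ τ' : K →+* L) (h : τ y = τ' y) : τ = τ' := by
  ext z
  have hz : z ∈ ℚ⟮y⟯ := by rw [htop]; exact IntermediateField.mem_top
  refine IntermediateField.adjoin_induction ℚ
    (p := fun z _ => τ z = τ' z) ?_ ?_ ?_ ?_ ?_ hz
  · intro x hx
    rw [Set.mem_singleton_iff] at hx
    rw [hx, h]
  · intro q
    have h1 : τ (algebraMap ℚ K q) = (q : L) := by
      rw [eq_ratCast, map_ratCast]
    have h2 : τ' (algebraMap ℚ K q) = (q : L) := by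
      rw [eq_ratCast, map_ratCast]
    rw [h1, h2]
  · intro x x' _ _ h1 h2
    rw [map_add, map_add, h1, h2]
  · intro x _ h1
    rw [map_inv₀, map_inv₀, h1]
  · intro x x' _ _ h1 h2
    rw [map_mul, map_mul, h1, h2]

theorem in2b (p : ℕ) (hp : p.Prime) (b M j m' : ℕ) (hM : M = p ^ j * m') (hm' : ¬ p ∣ m')
    (hpb : ¬ p ∣ b) (K : Type) [Field K] [NumberField K] (y : 𝓞 K) (hy : y ^ M = (b : 𝓞 K))
    (htop : ℚ⟮(y : K)⟯ = ⊤) (L : Type) [Field L] [NumberField L] [IsGalois ℚ L]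
    (Q : Ideal (𝓞 L)) (hQ : Q.IsMaximal) (hpQ : (p : 𝓞 L) ∈ Q) :
    Nat.card {τ : K →+* L // Fx τ Q} ≤ 2 * m' := by
  classical
  have hm0 : m' ≠ 0 := by
    rintro rfl
    exact hm' (dvd_zero p)
  have hb0 : b ≠ 0 := by
    rintro rfl
    exact hpb (dvd_zero p)
  rcases isEmpty_or_nonempty {τ : K →+* L // Fx τ Q} with he | ⟨⟨τ₀, h₀⟩⟩
  · rw [Nat.card_of_isEmpty]
    exact Nat.zero_le _
  have hyK : (y : K) ^ M = (b : K) := by
    have h1 := congrArg (fun z : 𝓞 K => (z : K)) hy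
    push_cast at h1
    exact h1
  have hpow : ∀ τ : K →+* L, (τ (y : K)) ^ M = (b : L) := by
    intro τ
    rw [← map_pow, hyK, map_natCast]
  have hbL : (b : L) ≠ 0 := Nat.cast_ne_zero.mpr hb0
  have hMpos : M ≠ 0 := by
    rw [hM]
    exact Nat.mul_ne_zero (pow_ne_zero _ hp.ne_zero) hm0
  have hne : ∀ τ : K →+* L, τ (y : K) ≠ 0 := by
    intro τ h
    have h1 := hpow τ
    rw [h, zero_pow hMpos] at h1
    exact hbL h1.symm
  have key : ∀ τ : K →+* L, Fx τ Q → (τ (y : K) / τ₀ (y : K)) ^ (2 * m') = 1 := by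
    intro τ hτ
    have hζM : (τ (y : K) / τ₀ (y : K)) ^ M = 1 := by
      rw [div_pow, hpow, hpow, div_self hbL]
    have hη : ((τ (y : K) / τ₀ (y : K)) ^ m') ^ (p ^ j) = 1 := by
      rw [← pow_mul, mul_comm m' (p ^ j), ← hM]
      exact hζM
    have hint : IsIntegral ℤ ((τ (y : K) / τ₀ (y : K)) ^ m') := by
      refine IsIntegral.of_pow (pow_pos hp.pos j) ?_
      rw [hη]
      exact isIntegral_one
    obtain ⟨η, hηdef⟩ : ∃ η : 𝓞 L, (η : L) = (τ (y : K) / τ₀ (y : K)) ^ m' :=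
      ⟨⟨_, hint⟩, rfl⟩
    have hη1 : η ^ (p ^ j) = 1 := by
      apply RingOfIntegers.ext
      push_cast
      exact (congrArg (fun z : L => z ^ p ^ j) hηdef).trans hη
    obtain ⟨s, -, hs⟩ := (Nat.dvd_prime_pow hp).mp (orderOf_dvd_of_pow_eq_one hη1)
    have hprim : IsPrimitiveRoot η (p ^ s) := by
      rw [← hs]
      exact IsPrimitiveRoot.orderOf η
    have h2 := ru_fix p hp Q hQ hpQ s η hprim (by
      intro σ hσ
      rw [hηdef, map_pow, map_div₀, hτ σ hσ, h₀ σ hσ])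
    have h3 := congrArg (fun z : 𝓞 L => (z : L)) h2
    push_cast at h3
    have h4 : ((τ (y : K) / τ₀ (y : K)) ^ m') ^ 2 = 1 :=
      (congrArg (fun z : L => z ^ 2) hηdef).symm.trans h3
    rw [← pow_mul, mul_comm m' 2] at h4
    exact h4
  let f : {τ : K →+* L // Fx τ Q} → ((Polynomial.nthRoots (2 * m') (1 : L)).toFinset : Set L) :=
    fun τ => ⟨τ.1 (y : K) / τ₀ (y : K), by
      rw [Finset.mem_coe, Multiset.mem_toFinset,
        Polynomial.mem_nthRoots (Nat.pos_of_ne_zero (Nat.mul_ne_zero two_ne_zero hm0))]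
      exact key τ.1 τ.2⟩
  have hf : Function.Injective f := by
    intro τ τ' h
    have h1 : τ.1 (y : K) / τ₀ (y : K) = τ'.1 (y : K) / τ₀ (y : K) := congrArg Subtype.val h
    have h2 : τ.1 (y : K) = τ'.1 (y : K) := by
      rw [div_eq_div_iff (hne τ₀) (hne τ₀)] at h1
      exact mul_right_cancel₀ (hne τ₀) h1
    exact Subtype.ext (hom_ext_gen (y : K) htop τ.1 τ'.1 h2)
  calc Nat.card {τ : K →+* L // Fx τ Q}
      ≤ Nat.card ((Polynomial.nthRoots (2 * m') (1 : L)).toFinset : Set L) :=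
        Nat.card_le_card_of_injective f hf
    _ = (Polynomial.nthRoots (2 * m') (1 : L)).toFinset.card := by
        exact Nat.card_eq_card_toFinset _ |>.trans (by rw [Finset.toFinset_coe])
    _ ≤ Multiset.card (Polynomial.nthRoots (2 * m') (1 : L)) := Multiset.toFinset_card_le _
    _ ≤ 2 * m' := Polynomial.card_nthRoots _ _

end Pool.Agent.H33.V6
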