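import Pool.Agent.H33.V6.Js
import Pool.Agent.H36.LH.JsB

/-!
# RadicalLehmer, version 6 (MP_187c26_nt): the structure of polynomials vanishing to order `T`

MODEL: `jet_dec` in `Pool/Agent/H36/LH/JsB.lean` (copy with its private lemmas and change). Imports may be sorried (`jet_RC`, `gauss_p`).
The integer `δ` is used in the model only in `lift1` (`δ y = v(x)` for `y ∈ A⟮x⟯` with `PI p y`) and as the multiplier. Replace `lift1` by: `f ∈ Cd A x`, `y ∈ A⟮x⟯`, `PI p y`: there is `v ∈ A[X]` with coefficients `PI p` and `v(x) = f y` (multiply by `s`, divide by `s`).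
`G` := the polynomial with integral coefficients and `G(x) = f` (the definition of `Cd` for `y = 1`). `F` := the lift of `γ minpoly`, `F(x, Y) = f γ minpoly`, `H_i` the lift of `γ^(-(T - i)) h`, and `(C G)^(T - i + 1) R - F^(T - i) H_i` vanishes at `(x, Y)`, so it is `tb R'`. `C G` has `natDegree` `0` in `Y`, `PP p (C G)`.
In the step `jet_RC` gives `f^N bu .. (i, k) = i! b^i a^k (..)`, and `bu .. (i, k) = 0` by `h0`.
-/

set_option autoImplicit false

open Polynomial NumberField IntermediateField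
open scoped Polynomial.Bivariate

namespace Pool.Agent.H33.V6

open Pool.Agent.H36.LE Pool.Agent.H36.LF Pool.Agent.H36.LH

set_option linter.unusedSectionVars false

section

variable {A E : Type} [Field A] [NumberField A] [Field E] [NumberField E] [Algebra A E]

private theorem av (x a : E) (P : A[X][Y]) : aevalAeval (R := A) x a P =
    (P.map ((aeval x : A[X] →ₐ[A] E) : A[X] →+* E)).eval a := by
  induction P using Polynomial.induction_on' with
  | add P Q hP hQ => rw [map_add, hP, hQ, Polynomial.map_add, eval_add]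
  | monomial n q =>
    rw [← C_mul_X_pow_eq_monomial, map_mul, map_pow, aevalAeval_C, aevalAeval_Y]
    simp

private theorem pi_zero {K : Type} [Field K] {p : ℕ} (hp : p.Prime) : PI p (0 : K) :=
  pi_int hp isIntegral_zero

private theorem pi_sum {K ι : Type} [Field K] {p : ℕ} (hp : p.Prime) (t : Finset ι) (f : ι → K)
    (h : ∀ i ∈ t, PI p (f i)) : PI p (∑ i ∈ t, f i) := by
  classical
  induction t using Finset.induction_on with
  | empty => simpa using pi_zero hp
  | insert a t ha ih =>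
    rw [Finset.sum_insert ha]
    exact pi_add hp (h a (Finset.mem_insert_self _ _))
      (ih fun i hi => h i (Finset.mem_insert_of_mem hi))

private theorem pi_nat {K : Type} [Field K] {p : ℕ} (hp : p.Prime) (n : ℕ) : PI p (n : K) :=
  pi_int hp (by simpa using isIntegral_algebraMap (R := ℤ) (A := K) (x := (n : ℤ)))

private theorem pi_neg {K : Type} [Field K] {p : ℕ} {y : K} (hy : PI p y) : PI p (-y) := by
  obtain ⟨s, hs, h⟩ := hy
  refine ⟨s, hs, ?_⟩
  rw [mul_neg]
  exact h.neg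

private theorem pi_pow {K : Type} [Field K] {p : ℕ} (hp : p.Prime) {y : K} (hy : PI p y) (n : ℕ) :
    PI p (y ^ n) := by
  induction n with
  | zero => rw [pow_zero]; exact pi_int hp isIntegral_one
  | succ n ih => rw [pow_succ]; exact pi_mul hp ih hy

private theorem pp_mul {p : ℕ} (hp : p.Prime) {P Q : A[X][Y]} (hP : PP p P) (hQ : PP p Q) :
    PP p (P * Q) := by
  intro i j
  rw [coeff_mul, finsetSum_coeff]
  refine pi_sum hp _ _ fun u _ => ?_
  rw [coeff_mul]
  exact pi_sum hp _ _ fun w _ => pi_mul hp (hP _ _) (hQ _ _)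

private theorem pp_add {p : ℕ} (hp : p.Prime) {P Q : A[X][Y]} (hP : PP p P) (hQ : PP p Q) :
    PP p (P + Q) := by
  intro i j
  rw [coeff_add, coeff_add]
  exact pi_add hp (hP _ _) (hQ _ _)

private theorem pp_neg {p : ℕ} {P : A[X][Y]} (hP : PP p P) : PP p (-P) := by
  intro i j
  rw [coeff_neg, coeff_neg]
  exact pi_neg (hP _ _)

private theorem pp_nat {p : ℕ} (hp : p.Prime) (n : ℕ) : PP p ((n : ℕ) : A[X][Y]) := by
  intro i j
  have h : ((n : ℕ) : A[X][Y]) = C (C (n : A)) := by simp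
  rw [h, coeff_C]
  split_ifs with h1
  · rw [coeff_C]
    split_ifs with h2
    · exact pi_nat hp n
    · exact pi_zero hp
  · rw [coeff_zero]
    exact pi_zero hp

private theorem pp_C {p : ℕ} (hp : p.Prime) {G : A[X]} (hG : ∀ j, IsIntegral ℤ (G.coeff j)) :
    PP p (C G : A[X][Y]) := by
  intro i j
  rw [coeff_C]
  split_ifs with h1
  · exact pi_int hp (hG _)
  · rw [coeff_zero]
    exact pi_zero hp

private theorem pp_pow {p : ℕ} (hp : p.Prime) {P : A[X][Y]} (hP : PP p P) (n : ℕ) :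
    PP p (P ^ n) := by
  induction n with
  | zero => rw [pow_zero]; exact_mod_cast pp_nat hp 1
  | succ n ih => rw [pow_succ]; exact pp_mul hp ih hP

private theorem pp_zero {p : ℕ} (hp : p.Prime) : PP p (0 : A[X][Y]) := by
  intro i j
  rw [coeff_zero, coeff_zero]
  exact pi_zero hp

/-- `minpoly ^ K` divides. -/
private theorem mp_dvd {F : Type} [Field F] [CharZero F] [Algebra F E] (a : E) (ha : IsIntegral F a) (K : ℕ) :
    ∀ P : F[X], (X - C a) ^ K ∣ P.map (algebraMap F E) → (minpoly F a) ^ K ∣ P := by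
  induction K with
  | zero => intro P _; rw [pow_zero]; exact one_dvd _
  | succ K ih =>
    intro P hP
    have h1 : (X - C a) ∣ P.map (algebraMap F E) := (dvd_pow_self _ (Nat.succ_ne_zero K)).trans hP
    have h2 : aeval a P = 0 := by
      rw [dvd_iff_isRoot, IsRoot.def, eval_map_algebraMap] at h1
      exact h1
    obtain ⟨P1, hP1⟩ := minpoly.dvd F a h2
    have h3 : (X - C a) ∣ (minpoly F a).map (algebraMap F E) := by
      rw [dvd_iff_isRoot, IsRoot.def, eval_map_algebraMap]
      exact minpoly.aeval F a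
    obtain ⟨f1, hf1⟩ := h3
    have hsep : ((minpoly F a).map (algebraMap F E)).Separable :=
      (minpoly.irreducible ha).separable.map
    have h4 : ¬ (X - C a) ∣ f1 := by
      intro h5
      obtain ⟨f2, hf2⟩ := h5
      rw [hf1, hf2] at hsep
      have h6 := hsep.squarefree (X - C a) ⟨f2, by ring⟩
      exact (irreducible_X_sub_C a).not_isUnit h6
    have h5 : IsCoprime ((X - C a) ^ K) f1 :=
      ((irreducible_X_sub_C a).coprime_iff_not_dvd.2 h4).pow_left
    rw [hP1, Polynomial.map_mul, hf1, pow_succ', mul_assoc] at hP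
    have h6 : (X - C a) ^ K ∣ f1 * P1.map (algebraMap F E) :=
      (mul_dvd_mul_iff_left (X_sub_C_ne_zero a)).1 hP
    have h7 := ih P1 (h5.dvd_of_dvd_mul_left h6)
    rw [hP1, pow_succ']
    exact mul_dvd_mul_left _ h7

private theorem hs_dvd (r : E[X]) (a : E) (K : ℕ) (h : ∀ k < K, (hasseDeriv k r).eval a = 0) :
    (X - C a) ^ K ∣ r := by
  rw [X_sub_C_pow_dvd_iff, X_pow_dvd_iff]
  intro k hk
  rw [← taylor_apply, taylor_coeff]
  exact h k hk

private theorem lift1 {x f : E} (hf : f ∈ Cd A x) {p : ℕ} (y : A⟮x⟯) (hy : PI p y) :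
    ∃ v : A[X], (∀ i, PI p (v.coeff i)) ∧ aeval x v = f * (y : E) := by
  obtain ⟨s, hs, h⟩ := hy
  have hs0 : (s : A) ≠ 0 := by
    intro h0
    rw [Nat.cast_eq_zero] at h0
    exact hs (h0 ▸ dvd_zero p)
  have hs1 : (s : E) ≠ 0 := by
    intro h0
    rw [Nat.cast_eq_zero] at h0
    exact hs (h0 ▸ dvd_zero p)
  obtain ⟨v, hv, hv2⟩ := hf.2 ((s : E) * (y : E)) (mul_mem (_root_.natCast_mem _ s) y.2) (by
    have h1 := h.map (A⟮x⟯.val.restrictScalars ℤ)
    simpa using h1)
  refine ⟨C ((s : A)⁻¹) * v, fun i => ⟨s, hs, ?_⟩, ?_⟩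
  · rw [coeff_C_mul, mul_inv_cancel_left₀ hs0]
    exact hv i
  · rw [map_mul, aeval_C, hv2, map_inv₀, map_natCast]
    field_simp

private theorem lift2 {x f : E} (hf : f ∈ Cd A x) {p : ℕ} (hp : p.Prime) (h : A⟮x⟯[X])
    (hh : ∀ i, PI p (h.coeff i)) :
    ∃ H : A[X][Y], PP p H ∧ H.natDegree ≤ h.natDegree ∧ (h = 0 → H = 0) ∧
      H.map ((aeval x : A[X] →ₐ[A] E) : A[X] →+* E) = C f * h.map (algebraMap A⟮x⟯ E) := by
  choose v hv1 hv2 using fun i => lift1 hf (h.coeff i) (hh i)
  have hc : ∀ j, (∑ i ∈ h.support, monomial i (v i) : A[X][Y]).coeff j =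
      if j ∈ h.support then v j else 0 := by
    intro j
    rw [finsetSum_coeff]
    simp only [coeff_monomial]
    rw [Finset.sum_ite_eq']
  refine ⟨∑ i ∈ h.support, monomial i (v i), ?_, ?_, ?_, ?_⟩
  · intro i j
    rw [hc]
    split_ifs
    · exact hv1 j i
    · rw [coeff_zero]
      exact pi_zero hp
  · refine natDegree_sum_le_of_forall_le _ _ fun i hi => ?_
    exact (natDegree_monomial_le _).trans (le_natDegree_of_mem_supp i hi)
  · intro h0
    rw [h0]
    simp
  · ext j
    rw [coeff_map, hc, coeff_C_mul, coeff_map]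
    by_cases hj : j ∈ h.support
    · rw [if_pos hj]
      exact hv2 j
    · rw [if_neg hj, map_zero]
      rw [notMem_support_iff] at hj
      rw [hj, map_zero, mul_zero]

private theorem minp {b m d : ℕ} {ι : ℝ} {x : E} (hx : RdA A b m d ι x) :
    minpoly A x = X ^ m - C (b : A) := by
  have hm : m ≠ 0 := by have := hx.m1; omega
  have hi : IsIntegral A x := by
    refine ⟨X ^ m - C (b : A), monic_X_pow_sub_C _ hm, ?_⟩
    rw [eval₂_sub, eval₂_X_pow, eval₂_C, hx.pow, map_natCast, sub_self]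
  have h1 : (minpoly A x).natDegree = m := by
    rw [← IntermediateField.adjoin.finrank hi, hx.deg]
  have h2 : minpoly A x ∣ X ^ m - C (b : A) := by
    apply minpoly.dvd
    rw [map_sub, map_pow, aeval_X, aeval_C, hx.pow, map_natCast, sub_self]
  exact (eq_of_monic_of_dvd_of_natDegree_le (minpoly.monic hi) (monic_X_pow_sub_C _ hm) h2
    (by rw [natDegree_X_pow_sub_C, h1])).symm

private theorem div1 {b m d : ℕ} {ι : ℝ} {x : E} (hx : RdA A b m d ι x) {p : ℕ} (hp : p.Prime)
    (v : A[X]) (hv : ∀ i, PI p (v.coeff i)) (h0 : aeval x v = 0) :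
    ∃ w : A[X], (∀ i, PI p (w.coeff i)) ∧ v = (X ^ m - C (b : A)) * w ∧ (v = 0 → w = 0) := by
  have hm : m ≠ 0 := by have := hx.m1; omega
  obtain ⟨w, hw⟩ := minpoly.dvd A x h0
  rw [minp hx] at hw
  refine ⟨w, ?_, hw, ?_⟩
  · have key : ∀ n i : ℕ, w.natDegree < i + n → PI p (w.coeff i) := by
      intro n
      induction n with
      | zero =>
        intro i hi
        rw [coeff_eq_zero_of_natDegree_lt (by omega)]
        exact pi_zero hp
      | succ n ih =>
        intro i hi
        have h1 : v.coeff (i + m) = w.coeff i - (b : A) * w.coeff (i + m) := by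
          rw [hw, sub_mul, coeff_sub, coeff_X_pow_mul, coeff_C_mul]
        have h2 : w.coeff i = v.coeff (i + m) + (b : A) * w.coeff (i + m) := by
          rw [h1]; ring
        rw [h2]
        exact pi_add hp (hv _) (pi_mul hp (pi_nat hp b) (ih _ (by omega)))
    intro i
    exact key (w.natDegree + 1) i (by omega)
  · intro hv0
    rw [hv0] at hw
    exact (mul_eq_zero.1 hw.symm).resolve_left (monic_X_pow_sub_C _ hm).ne_zero

private theorem div2 {b m d : ℕ} {ι : ℝ} {x : E} (hx : RdA A b m d ι x) {p : ℕ} (hp : p.Prime)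
    (D : A[X][Y]) (hD : PP p D) (h0 : D.map ((aeval x : A[X] →ₐ[A] E) : A[X] →+* E) = 0) :
    ∃ R : A[X][Y], PP p R ∧ D = tb A b m * R ∧ R.natDegree ≤ D.natDegree := by
  have h1 : ∀ j, aeval x (D.coeff j) = 0 := by
    intro j
    have h2 := congrArg (fun P : E[X] => P.coeff j) h0
    simp only [coeff_map, coeff_zero] at h2
    exact h2
  choose w hw1 hw2 hw3 using fun j => div1 hx hp (D.coeff j) (fun i => hD i j) (h1 j)
  have hc : ∀ j, (∑ i ∈ D.support, monomial i (w i) : A[X][Y]).coeff j = w j := by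
    intro j
    rw [finsetSum_coeff]
    simp only [coeff_monomial]
    rw [Finset.sum_ite_eq']
    split_ifs with hj
    · rfl
    · rw [notMem_support_iff] at hj
      exact (hw3 j hj).symm
  refine ⟨∑ i ∈ D.support, monomial i (w i), ?_, ?_, ?_⟩
  · intro i j
    rw [hc]
    exact hw1 j i
  · ext1 j
    unfold tb
    rw [coeff_C_mul, hc]
    exact hw2 j
  · refine natDegree_sum_le_of_forall_le _ _ fun i hi => ?_
    exact (natDegree_monomial_le _).trans (le_natDegree_of_mem_supp i hi)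

private theorem pi_ev {b m d : ℕ} {ι : ℝ} {x : E} (hx : RdA A b m d ι x) {p : ℕ} (hp : p.Prime)
    (v : A[X]) (hv : ∀ i, PI p (v.coeff i)) :
    PI p (aeval (IntermediateField.AdjoinSimple.gen A x) v : A⟮x⟯) := by
  have hm : m ≠ 0 := by have := hx.m1; omega
  have hxi : IsIntegral ℤ x := by
    refine ⟨X ^ m - C (b : ℤ), monic_X_pow_sub_C _ hm, ?_⟩
    rw [eval₂_sub, eval₂_X_pow, eval₂_C, hx.pow]
    simp
  have hgi : IsIntegral ℤ (IntermediateField.AdjoinSimple.gen A x) := by
    refine (isIntegral_algHom_iff (A⟮x⟯.val.restrictScalars ℤ) A⟮x⟯.val.injective).1 ?_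
    change IsIntegral ℤ ((IntermediateField.AdjoinSimple.gen A x : A⟮x⟯) : E)
    rw [IntermediateField.AdjoinSimple.coe_gen]
    exact hxi
  rw [aeval_eq_sum_range]
  refine pi_sum hp _ _ fun i _ => ?_
  rw [Algebra.smul_def]
  refine pi_mul hp ?_ (pi_pow hp (pi_int hp hgi) i)
  obtain ⟨s, hs, h⟩ := hv i
  refine ⟨s, hs, ?_⟩
  have h1 := h.map ((Algebra.ofId A A⟮x⟯).restrictScalars ℤ)
  simpa [Algebra.ofId_apply] using h1

private theorem ev_comp (x : E) : (algebraMap A⟮x⟯ E).comp
    ((aeval (IntermediateField.AdjoinSimple.gen A x) : A[X] →ₐ[A] A⟮x⟯) : A[X] →+* A⟮x⟯) =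
    ((aeval x : A[X] →ₐ[A] E) : A[X] →+* E) := by
  refine Polynomial.ringHom_ext (fun c => ?_) ?_
  · simp [← IsScalarTower.algebraMap_apply]
  · simp

private theorem jet_main {b m d : ℕ} {ι : ℝ} {x : E} (hx : RdA A b m d ι x) (f : E)
    (hf : f ∈ Cd A x) (G : A[X]) (hG : ∀ j, IsIntegral ℤ (G.coeff j)) (hGx : aeval x G = f) (a : E) (ha : a ≠ 0) (p : ℕ) (hp : p.Prime) (γ : A⟮x⟯) (hγ0 : γ ≠ 0)
    (hγ2 : ∀ (j : ℕ) (h : A⟮x⟯[X]), (∀ i, PI p (((minpoly A⟮x⟯ a) ^ j * h).coeff i)) →
        ∀ i, PI p ((γ ^ j)⁻¹ * h.coeff i)) (F : A[X][Y]) (hF1 : PP p F)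
    (hF2 : F.natDegree ≤ (minpoly A⟮x⟯ a).natDegree)
    (hF3 : F.map ((aeval x : A[X] →ₐ[A] E) : A[X] →+* E) =
      C f * (C γ * minpoly A⟮x⟯ a).map (algebraMap A⟮x⟯ E))
    (n L g T : ℕ) (c : Fin n × Fin L → A) (hc : c ∈ ZA A n L) : ∀ i ≤ T,
    (∀ i' k, i' < i → i' + k < T → bu (RingHom.id A) x a n L g (wj m g i' k) c = 0) →
    ∃ (N : ℕ) (R : A[X][Y]) (H : ℕ → A[X][Y]), N ≤ i * (T + 1) ∧ PP p R ∧
      (∀ j, PP p (H j)) ∧ R.natDegree ≤ g * (L - 1) ∧
      (∀ j < i, H j = 0 ∨ (T - j) * F.natDegree + (H j).natDegree ≤ g * (L - 1)) ∧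
      (C G : A[X][Y]) ^ N * pg n L g c = ∑ j ∈ Finset.range i,
        tb A b m ^ j * (F ^ (T - j) * H j) + tb A b m ^ i * R := by
  have hai : IsIntegral A⟮x⟯ a := Algebra.IsIntegral.isIntegral a
  have hF0 : aevalAeval (R := A) x a F = 0 := by
    rw [av, hF3, eval_mul, Polynomial.map_mul, eval_mul, eval_map_algebraMap (minpoly A⟮x⟯ a),
      minpoly.aeval, mul_zero, mul_zero]
  intro i
  induction i with
  | zero =>
    intro _ _
    refine ⟨0, pg n L g c, fun _ => 0, by omega, ?_, fun _ => pp_zero hp, ?_,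
      fun j hj => absurd hj (by omega), by simp⟩
    · intro i j
      unfold pg
      rw [finsetSum_coeff, finsetSum_coeff]
      refine pi_sum hp _ _ fun q _ => ?_
      rw [coeff_monomial]
      split_ifs
      · rw [coeff_monomial]
        split_ifs
        · exact pi_int hp (hc q)
        · exact pi_zero hp
      · rw [coeff_zero]
        exact pi_zero hp
    · unfold pg
      refine natDegree_sum_le_of_forall_le _ _ fun q _ => ?_
      refine (natDegree_monomial_le _).trans (Nat.mul_le_mul_left g ?_)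
      have := q.2.2
      omega
  | succ i ih =>
    intro hi h0
    obtain ⟨N, R, H, hN, hR, hH, hRd, hHd, hid⟩ := ih (by omega) (fun i' k h1 h2 => h0 i' k (by omega) h2)
    have hb0 : (b : E) ≠ 0 := Nat.cast_ne_zero.2 (by have := hx.b1; omega)
    have hjet : ∀ k < T - i,
        (hasseDeriv k (R.map ((aeval x : A[X] →ₐ[A] E) : A[X] →+* E))).eval a = 0 := by
      intro k hk
      have h1 := jet_RC hx.b1 hx.m1 hx.pow ha n L g T i N G (by omega) c F R H hF0 hid k (by omega)
        (fun i' k' h1 h2 => h0 i' k' (by omega) h2)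
      rw [h0 i k (by omega) (by omega), mul_zero] at h1
      have h2 : (i.factorial : E) * (b : E) ^ i ≠ 0 :=
        mul_ne_zero (Nat.cast_ne_zero.2 (Nat.factorial_ne_zero i)) (pow_ne_zero _ hb0)
      have h3 := (mul_eq_zero.1 h1.symm).resolve_left h2
      exact (mul_eq_zero.1 h3).resolve_left (pow_ne_zero _ ha)
    have hdv := hs_dvd _ a (T - i) hjet
    obtain ⟨R0, hR0⟩ : ∃ R0 : A⟮x⟯[X], R0 = R.map
      ((aeval (IntermediateField.AdjoinSimple.gen A x) : A[X] →ₐ[A] A⟮x⟯) : A[X] →+* A⟮x⟯) := ⟨_, rfl⟩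
    have hR1 : R.map ((aeval x : A[X] →ₐ[A] E) : A[X] →+* E) = R0.map (algebraMap A⟮x⟯ E) := by
      rw [hR0, Polynomial.map_map, ev_comp]
    rw [hR1] at hdv
    obtain ⟨h, hh⟩ := mp_dvd a hai (T - i) R0 hdv
    have hPI : ∀ j, PI p (((minpoly A⟮x⟯ a) ^ (T - i) * h).coeff j) := by
      intro j
      rw [← hh, hR0, coeff_map]
      exact pi_ev hx hp _ (fun i => hR i j)
    have hg := hγ2 (T - i) h hPI
    obtain ⟨Hi, hHi1, hHi2, hHi3, hHi4⟩ := lift2 hf hp (C (γ ^ (T - i))⁻¹ * h)
      (by intro j; rw [coeff_C_mul]; exact hg j)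
    have hHi5 : Hi.natDegree ≤ h.natDegree := hHi2.trans (natDegree_C_mul_le _ _)
    have hHi6 : Hi = 0 ∨ (T - i) * F.natDegree + Hi.natDegree ≤ g * (L - 1) := by
      by_cases hh0 : h = 0
      · left
        exact hHi3 (by rw [hh0, mul_zero])
      · right
        have h1 : R0.natDegree = (T - i) * (minpoly A⟮x⟯ a).natDegree + h.natDegree := by
          rw [hh, natDegree_mul (pow_ne_zero _ (minpoly.ne_zero hai)) hh0, natDegree_pow]
        have h2 : R0.natDegree ≤ R.natDegree := by rw [hR0]; exact natDegree_map_le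
        have h3 := Nat.mul_le_mul_left (T - i) hF2
        omega
    obtain ⟨D, hD⟩ : ∃ D : A[X][Y], D = (C G : A[X][Y]) ^ (T - i + 1) * R - F ^ (T - i) * Hi := ⟨_, rfl⟩
    have hD1 : PP p D := by
      rw [hD, sub_eq_add_neg]
      exact pp_add hp (pp_mul hp (pp_pow hp (pp_C hp hG) _) hR)
        (pp_neg (pp_mul hp (pp_pow hp hF1 _) hHi1))
    have hδd : ∀ k : ℕ, ((C G : A[X][Y]) ^ k).natDegree = 0 := by
      intro k
      rw [← C_pow]
      exact natDegree_C _
    have hD2 : D.natDegree ≤ g * (L - 1) := by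
      rw [hD]
      refine (natDegree_sub_le _ _).trans (max_le ?_ ?_)
      · refine natDegree_mul_le.trans ?_
        rw [hδd]
        omega
      · rcases hHi6 with h1 | h1
        · rw [h1, mul_zero, natDegree_zero]
          exact Nat.zero_le _
        · refine natDegree_mul_le.trans ?_
          have h2 : (F ^ (T - i)).natDegree ≤ (T - i) * F.natDegree := natDegree_pow_le
          omega
    have hD3 : D.map ((aeval x : A[X] →ₐ[A] E) : A[X] →+* E) = 0 := by
      rw [hD, Polynomial.map_sub, Polynomial.map_mul, Polynomial.map_mul, Polynomial.map_pow,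
        Polynomial.map_pow, map_C, hF3, hHi4, hR1, hh, Polynomial.map_mul,
        Polynomial.map_mul, Polynomial.map_mul, Polynomial.map_pow, map_C, map_C]
      have h1 : (C (algebraMap A⟮x⟯ E γ)) ^ (T - i) * C (algebraMap A⟮x⟯ E (γ ^ (T - i))⁻¹) = (1 : E[X]) := by
        rw [← C_pow, ← C_mul, ← map_pow, ← map_mul, mul_inv_cancel₀ (pow_ne_zero _ hγ0), map_one, C_1]
      have h2 : (((aeval x : A[X] →ₐ[A] E) : A[X] →+* E) G) = f := hGx
      rw [h2, mul_pow, mul_pow, pow_succ]
      linear_combination (-(C f ^ (T - i) * C f *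
        ((minpoly A⟮x⟯ a).map (algebraMap A⟮x⟯ E)) ^ (T - i) * h.map (algebraMap A⟮x⟯ E))) * h1
    obtain ⟨R', hR'1, hR'2, hR'3⟩ := div2 hx hp D hD1 hD3
    refine ⟨N + (T - i + 1), R', fun j => if j < i then (C G : A[X][Y]) ^ (T - i + 1) * H j else Hi,
      ?_, hR'1, ?_, hR'3.trans hD2, ?_, ?_⟩
    · have h1 : (i + 1) * (T + 1) = i * (T + 1) + (T + 1) := by ring
      omega
    · intro j
      change PP p (if j < i then (C G : A[X][Y]) ^ (T - i + 1) * H j else Hi)
      split_ifs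
      · exact pp_mul hp (pp_pow hp (pp_C hp hG) _) (hH j)
      · exact hHi1
    · intro j hj
      change (if j < i then (C G : A[X][Y]) ^ (T - i + 1) * H j else Hi) = 0 ∨
        (T - j) * F.natDegree + (if j < i then (C G : A[X][Y]) ^ (T - i + 1) * H j else Hi).natDegree ≤ g * (L - 1)
      by_cases hji : j < i
      · rw [if_pos hji]
        rcases hHd j hji with h1 | h1
        · left
          rw [h1, mul_zero]
        · right
          have h2 : ((C G : A[X][Y]) ^ (T - i + 1) * H j).natDegree ≤ (H j).natDegree := by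
            refine natDegree_mul_le.trans ?_
            rw [hδd]
            omega
          omega
      · rw [if_neg hji]
        have hj' : j = i := by omega
        rw [hj']
        exact hHi6
    · rw [pow_add, mul_comm ((C G : A[X][Y]) ^ N), mul_assoc, hid, Finset.sum_range_succ, mul_add,
        Finset.mul_sum]
      have h1 : ∑ j ∈ Finset.range i, tb A b m ^ j * (F ^ (T - j) *
          (if j < i then (C G : A[X][Y]) ^ (T - i + 1) * H j else Hi)) =
          ∑ j ∈ Finset.range i, (C G : A[X][Y]) ^ (T - i + 1) * (tb A b m ^ j * (F ^ (T - j) * H j)) := by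
        refine Finset.sum_congr rfl fun j hj => ?_
        rw [if_pos (Finset.mem_range.1 hj)]
        ring
      rw [h1]
      simp only [lt_irrefl, if_false]
      rw [pow_succ (tb A b m) i]
      rw [hD] at hR'2
      linear_combination (tb A b m ^ i) * hR'2

end

theorem jet_decC {A E : Type} [Field A] [NumberField A] [Field E] [NumberField E] [Algebra A E]
    {b m d : ℕ} {ι : ℝ} {x : E} (hx : RdA A b m d ι x) (f : E) (hf : f ∈ Cd A x) (a : E)
    (ha : a ≠ 0) (p : ℕ) (hp : p.Prime) (n L g T i : ℕ) (hi : i ≤ T)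
    (c : Fin n × Fin L → A) (hc : c ∈ ZA A n L)
    (h0 : ∀ i' k, i' < i → i' + k < T → bu (RingHom.id A) x a n L g (wj m g i' k) c = 0) :
    ∃ (N : ℕ) (G : A[X]) (F R : A[X][Y]) (H : ℕ → A[X][Y]), N ≤ T * (T + 1) ∧
      (∀ j, IsIntegral ℤ (G.coeff j)) ∧ aeval x G = f ∧ PP p F ∧ PP p R ∧
      (∀ j, PP p (H j)) ∧ aevalAeval (R := A) x a F = 0 ∧ R.natDegree ≤ g * (L - 1) ∧
      (∀ j < i, H j = 0 ∨ (T - j) * F.natDegree + (H j).natDegree ≤ g * (L - 1)) ∧
      (C G : A[X][Y]) ^ N * pg n L g c = ∑ j ∈ Finset.range i,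
        tb A b m ^ j * (F ^ (T - j) * H j) + tb A b m ^ i * R := by
  have hai : IsIntegral A⟮x⟯ a := Algebra.IsIntegral.isIntegral a
  obtain ⟨G, hG, hGx⟩ := hf.2 1 (one_mem _) isIntegral_one
  rw [mul_one] at hGx
  obtain ⟨γ, hγ0, hγ1, hγ2⟩ := gauss_p p hp (minpoly A⟮x⟯ a) (minpoly.monic hai)
  obtain ⟨F, hF1, hF2, -, hF3⟩ := lift2 hf hp (C γ * minpoly A⟮x⟯ a)
    (by intro j; rw [coeff_C_mul]; exact hγ1 j)
  obtain ⟨N, R, H, hN, hR, hH, hRd, hHd, hid⟩ := jet_main hx f hf G hG hGx a ha p hp γ hγ0 hγ2 F hF1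
    (hF2.trans (natDegree_C_mul_le _ _)) hF3 n L g T c hc i hi h0
  refine ⟨N, G, F, R, H, hN.trans (Nat.mul_le_mul_right _ hi), hG, hGx, hF1, hR, hH, ?_, hRd, hHd, hid⟩
  rw [av, hF3, eval_mul, Polynomial.map_mul, eval_mul, eval_map_algebraMap (minpoly A⟮x⟯ a),
    minpoly.aeval, mul_zero, mul_zero]

end Pool.Agent.H33.V6
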