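import Pool.Agent.H33.V6.Jd
import Pool.Agent.H36.LH.JiA

/-!
# RadicalLehmer, version 6 (MP_187c26_nt): integrality of the jets

MODEL: `jet_int` in `Pool/Agent/H36/LH/JiA.lean` (copy with its private lemmas and change). Imports may be sorried.
PROOF. Let `f ∈ Cd A x`, `N₀ := T (T + 1) ≥ 1` (`T ≥ 1` as `i + k < T`). `f = 0`: `0^(N₀) = 0`. `f ≠ 0`: let `t : E → M`, `v` a finite place, `p` the prime below. `jet_decC` for `p` and `jet_RC`: `f^N bu .. = i! b^i a^k (hasseDeriv k R(x, .))(a)`, `N ≤ N₀`, so `v(t (f^N bu ..)) ≤ max(1, v(t a))^(g (L - 1))` as in the model,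
and `v (t f) ≤ 1` (`f = G(x)`, `G` with integral coefficients, is integral), `f^(N₀) = f^(N₀ - N) f^N`.
-/

set_option autoImplicit false

open Polynomial NumberField IntermediateField
open scoped Polynomial.Bivariate

namespace Pool.Agent.H33.V6

open Pool.Agent.H36.LE Pool.Agent.H36.LF Pool.Agent.H36.LH

private theorem v_intg {M : Type} [Field M] [NumberField M] (v : FinitePlace M) {z : M}
    (hz : IsIntegral ℤ z) : v z ≤ 1 := by
  have h2 := FinitePlace.norm_le_one M v.maximalIdeal (⟨z, hz⟩ : 𝓞 M)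
  rw [FinitePlace.norm_embedding_eq] at h2
  exact h2

private theorem v_sum {M : Type} [Field M] [NumberField M] (v : FinitePlace M) {κ : Type}
    (s : Finset κ) (f : κ → M) (B : ℝ) (hB : 0 ≤ B) (h : ∀ i ∈ s, v (f i) ≤ B) :
    v (∑ i ∈ s, f i) ≤ B := by
  classical
  induction s using Finset.induction_on with
  | empty =>
    rw [Finset.sum_empty, map_zero]
    exact hB
  | insert i s hi ih =>
    rw [Finset.sum_insert hi]
    exact (FinitePlace.add_le v _ _).trans (max_le (h i (Finset.mem_insert_self _ _))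
      (ih fun j hj => h j (Finset.mem_insert_of_mem hj)))

private theorem v_PI {A : Type} [Field A] {M : Type} [Field M] [NumberField M] (v : FinitePlace M) (t : A →+* M)
    {ℓ : ℕ} (hℓ : ∀ n : ℤ, ¬ (ℓ : ℤ) ∣ n → v (n : M) = 1) {y : A} (hy : PI ℓ y) :
    v (t y) ≤ 1 := by
  obtain ⟨s, hs, hi⟩ := hy
  have h1 := v_intg v (hi.map (t.toIntAlgHom))
  have h2 : (t.toIntAlgHom : A →ₐ[ℤ] M) ((s : A) * y) = ((s : ℤ) : M) * t y := by
    show t ((s : A) * y) = _
    rw [map_mul, map_natCast, Int.cast_natCast]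
  rw [h2, map_mul, hℓ s (fun h => hs (Int.natCast_dvd_natCast.1 h)), one_mul] at h1
  exact h1

theorem jet_intC {A E : Type} [Field A] [NumberField A] [Field E] [NumberField E] [Algebra A E]
    {b m d : ℕ} {ι : ℝ} {x : E} (hx : RdA A b m d ι x) (a : E) (ha : a ≠ 0)
    (n L g T i k : ℕ) (hik : i + k < T)
    (c : Fin n × Fin L → A) (hc : c ∈ ZA A n L)
    (h0 : ∀ i' k', i' < i → i' + k' < T → bu (RingHom.id A) x a n L g (wj m g i' k') c = 0) :
    bu (RingHom.id A) x a n L g (wj m g i k) c ∈ LC A x a (g * (L - 1)) (T * (T + 1)) := by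
  classical
  intro f hf M _ _ t v
  obtain ⟨ℓ, hℓ, hℓ1⟩ := exists_prime_below v
  obtain ⟨N, G, F, R, H, hN, hG, hGf, hF, hR, hH, hFa, hRd, hdeg, hid⟩ :=
    jet_decC hx f hf a ha ℓ hℓ n L g T i (by omega) c hc h0
  have hj := jet_RC hx.b1 hx.m1 hx.pow ha n L g T i N G (by omega) c F R H hFa hid k hik h0
  rw [hGf] at hj
  obtain ⟨y, hy⟩ : ∃ y, y = bu (RingHom.id A) x a n L g (wj m g i k) c := ⟨_, rfl⟩
  rw [← hy] at hj ⊢
  obtain ⟨Q, hQ⟩ : ∃ Q : E[X], Q = R.map ((aeval x : A[X] →ₐ[A] E) : A[X] →+* E) := ⟨_, rfl⟩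
  rw [← hQ] at hj
  have hB1 : (1 : ℝ) ≤ max 1 (v (t a)) ^ (g * (L - 1)) := one_le_pow₀ (le_max_left _ _)
  have hnat : ∀ z : ℕ, v (z : M) ≤ 1 := fun z => by
    have h1 := v_intg v (isIntegral_algebraMap (R := ℤ) (A := M) (x := (z : ℤ)))
    rw [map_natCast] at h1
    exact h1
  have hxi : v (t x) ≤ 1 := by
    refine v_intg v (IsIntegral.map t.toIntAlgHom ?_)
    refine IsIntegral.of_pow (n := m) hx.m1 ?_
    rw [hx.pow]
    exact_mod_cast isIntegral_algebraMap (R := ℤ) (A := E) (x := (b : ℤ))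
  -- the coefficients of `Q`
  have hQc : ∀ l, v (t (Q.coeff l)) ≤ 1 := by
    intro l
    rw [hQ, coeff_map]
    have h1 : ((aeval x : A[X] →ₐ[A] E) : A[X] →+* E) (R.coeff l) =
        ∑ j ∈ (R.coeff l).support, algebraMap A E ((R.coeff l).coeff j) * x ^ j := by
      show aeval x (R.coeff l) = _
      rw [aeval_def, eval₂_eq_sum, Polynomial.sum]
    rw [h1, map_sum]
    refine v_sum v _ _ 1 zero_le_one fun j _ => ?_
    rw [map_mul, map_mul, map_pow, map_pow]
    have h2 : v (t (algebraMap A E ((R.coeff l).coeff j))) ≤ 1 :=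
      v_PI v (t.comp (algebraMap A E)) hℓ1 (hR j l)
    exact mul_le_one₀ h2 (by positivity) (pow_le_one₀ (apply_nonneg v _) hxi)
  have hfv : v (t f) ≤ 1 := by
    rw [← hGf, aeval_def, eval₂_eq_sum, Polynomial.sum, map_sum]
    refine v_sum v _ _ 1 zero_le_one fun j _ => ?_
    rw [map_mul, map_mul, map_pow, map_pow]
    have h2 : v (t (algebraMap A E (G.coeff j))) ≤ 1 :=
      v_intg v ((hG j).map ((t.comp (algebraMap A E)).toIntAlgHom))
    exact mul_le_one₀ h2 (by positivity) (pow_le_one₀ (apply_nonneg v _) hxi)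
  have hQd : Q.natDegree ≤ g * (L - 1) := by
    rw [hQ]
    exact natDegree_map_le.trans hRd
  -- the value
  have hval : a ^ k * (hasseDeriv k Q).eval a =
      ∑ l ∈ Q.support, ((l.choose k : ℕ) : E) * Q.coeff l * a ^ l := by
    rw [hasseDeriv_apply, Polynomial.sum, eval_finsetSum, Finset.mul_sum]
    refine Finset.sum_congr rfl fun l _ => ?_
    rw [eval_monomial]
    by_cases hlk : k ≤ l
    · have h1 : a ^ l = a ^ k * a ^ (l - k) := by
        rw [← pow_add, Nat.add_sub_cancel' hlk]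
      rw [h1]
      ring
    · rw [Nat.choose_eq_zero_of_lt (by omega)]
      simp
  have hv1 : v (t (a ^ k * (hasseDeriv k Q).eval a)) ≤ max 1 (v (t a)) ^ (g * (L - 1)) := by
    rw [hval, map_sum]
    refine v_sum v _ _ _ (le_trans zero_le_one hB1) fun l hl => ?_
    rw [map_mul, map_mul, map_mul, map_mul, map_pow, map_pow, map_natCast]
    have h1 : v (t a) ^ l ≤ max 1 (v (t a)) ^ (g * (L - 1)) := by
      calc v (t a) ^ l ≤ max 1 (v (t a)) ^ l :=
            pow_le_pow_left₀ (apply_nonneg v _) (le_max_right _ _) _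
        _ ≤ max 1 (v (t a)) ^ (g * (L - 1)) :=
            pow_le_pow_right₀ (le_max_left _ _) ((le_natDegree_of_mem_supp l hl).trans hQd)
    calc v ((l.choose k : ℕ) : M) * v (t (Q.coeff l)) * v (t a) ^ l
        ≤ 1 * 1 * max 1 (v (t a)) ^ (g * (L - 1)) := by
          refine mul_le_mul (mul_le_mul (hnat _) (hQc l) (apply_nonneg v _) zero_le_one) h1
            (pow_nonneg (apply_nonneg v _) _) (by norm_num)
      _ = max 1 (v (t a)) ^ (g * (L - 1)) := by ring
  have hv2 : v (t (f ^ N * y)) ≤ max 1 (v (t a)) ^ (g * (L - 1)) := by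
    rw [hj]
    rw [map_mul, map_mul, map_mul, map_pow, map_natCast, map_natCast, map_mul, map_pow]
    have h1 : v ((i.factorial : ℕ) : M) * v ((b : ℕ) : M) ^ i ≤ 1 :=
      mul_le_one₀ (hnat _) (pow_nonneg (apply_nonneg v _) _) (pow_le_one₀ (apply_nonneg v _) (hnat _))
    calc v ((i.factorial : ℕ) : M) * v ((b : ℕ) : M) ^ i * v (t (a ^ k * (hasseDeriv k Q).eval a))
        ≤ 1 * max 1 (v (t a)) ^ (g * (L - 1)) :=
          mul_le_mul h1 hv1 (apply_nonneg v _) zero_le_one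
      _ = max 1 (v (t a)) ^ (g * (L - 1)) := one_mul _
  have h3 : t (f ^ (T * (T + 1)) * y) = (t f ^ (T * (T + 1) - N)) * t (f ^ N * y) := by
    rw [map_mul, map_mul, ← mul_assoc, map_pow, map_pow, ← pow_add, Nat.sub_add_cancel hN]
  rw [h3, map_mul, map_pow]
  calc v (t f) ^ (T * (T + 1) - N) * v (t (f ^ N * y))
      ≤ 1 * max 1 (v (t a)) ^ (g * (L - 1)) :=
        mul_le_mul (pow_le_one₀ (apply_nonneg v _) hfv) hv2 (apply_nonneg v _) zero_le_one
    _ = max 1 (v (t a)) ^ (g * (L - 1)) := one_mul _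

end Pool.Agent.H33.V6
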