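import Pool.Agent.H33.V6.Cn
import Pool.Agent.H36.LF.NfA
import Pool.Agent.H36.LE.NmD

/-!
# RadicalLehmer, version 6 (MP_187c26_nt): the lattice `LC A x a K N`

PROOFS. Elements `f` of `Cd A x` are integral: take `y = 1`: `f = v(x)`, `v` with integral coefficients, `x` integral (`x^m = b`). `lk_le`: `lk_mul` (`Pool/Agent/H36/LE/NmC.lean`) for `f^N`. `lc_mul`: `f^N (w y) = w (f^N y)`, `lk_mul`.
`lc_bd`: let `w := v (t y)`, `G := max 1 (v (t a))^K ≥ 1`. If `w = 0`: trivial (`h ≥ 1`). `N = 0`: `y ∈ LK` (if `N = 0` then `f^0 y = y` for some `f ∈ Cd A x`: `0 ∈ Cd A x`), `w ≤ G`. `N ≥ 1`, `w > 0`: for all `f ∈ Cd A x`: `v(t f)^N w ≤ G`, so `v (t f) ≤ B := (G/w)^(1/N)` (real power), so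
`v (t f₀) ≤ B^h`, `v (t f₀)^N ≤ (G/w)^h`.
`lat_LC`: `fg`: `f ∈ Cd A x`, `f ≠ 0` (`cond_main`): `y ↦ f^N y` is injective `ℤ`-linear, `LC → LK`, and `LK` is finitely generated, so Noetherian (`lat_ph`); `full`: `lk_le` and `lat_ph`; `ind`: `lat_ph`.
`lc_crude`: `LC` is finitely generated and every generator has a positive multiple in `LK`, so there is `n ≥ 1` with `n • LC ⊆ LK`. For `z` a family as in the definition of `vl` for `LC`, `U` (`r = dim U`): `n • z` is one for `LK`: `gd (φ (n z)) = n^(2 r) gd (φ z)` (`gd_smul`), `≥ vl (LK) ≥ m^(-r) exp (-2 K r h)` (`crude`, `Pool/Agent/H36/LE/NmD.lean`).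
So `vl (LC) U ≥ (n^(2 r) m^r)⁻¹ exp (- 2 K r h)`, `r ≤ [E : ℚ]`: a positive constant independent of `U`.
-/

set_option autoImplicit false

open Polynomial NumberField IntermediateField

namespace Pool.Agent.H33.V6

open Pool.Agent.H36.LE Pool.Agent.H36.LF Pool.Agent.H36.LH

variable {A E : Type} [Field A] [NumberField A] [Field E] [NumberField E] [Algebra A E]

theorem cd_int {b m d : ℕ} {ι : ℝ} {x : E} (hx : RdA A b m d ι x) (f : E) (hf : f ∈ Cd A x) :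
    IsIntegral ℤ f := by
  obtain ⟨v, hv, h1⟩ := hf.2 1 (one_mem _) isIntegral_one
  have hxi : IsIntegral ℤ x := by
    refine IsIntegral.of_pow (n := m) hx.m1 ?_
    rw [hx.pow]
    exact_mod_cast (isIntegral_algebraMap (R := ℤ) (A := E) (x := (b : ℤ)))
  rw [mul_one] at h1
  rw [← h1, aeval_eq_sum_range]
  refine IsIntegral.sum _ fun i _ => ?_
  rw [Algebra.smul_def]
  exact (map_isIntegral_int (algebraMap A E) (hv i)).mul (hxi.pow i)

theorem lk_le {b m d : ℕ} {ι : ℝ} {x : E} (hx : RdA A b m d ι x) (a : E) (K N : ℕ) :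
    LK a K ≤ LC A x a K N := fun y hy f hf => lk_mul a K (f ^ N) y ((cd_int hx f hf).pow N) hy

theorem lc_mul (x a : E) (K N : ℕ) (w y : E) (hw : IsIntegral ℤ w) (hy : y ∈ LC A x a K N) :
    w * y ∈ LC A x a K N := by
  intro f hf
  rw [mul_left_comm]
  exact lk_mul a K w _ hw (hy f hf)

theorem lc_bd {x : E} (a : E) (K N h : ℕ) (hh : 1 ≤ h) (f₀ : E) (y : E) (hy : y ∈ LC A x a K N)
    {M : Type} [Field M] [NumberField M] (t : E →+* M) (v : FinitePlace M)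
    (hf : ∀ B : ℝ, 0 ≤ B → (∀ f ∈ Cd A x, v (t f) ≤ B) → v (t f₀) ≤ B ^ h) :
    v (t y) ^ h * v (t f₀) ^ N ≤ (max 1 (v (t a)) ^ K) ^ h := by
  obtain ⟨w, hw⟩ : ∃ w : ℝ, w = v (t y) := ⟨_, rfl⟩
  obtain ⟨G, hG⟩ : ∃ G : ℝ, G = max 1 (v (t a)) ^ K := ⟨_, rfl⟩
  have hG1 : 1 ≤ G := by
    rw [hG]
    exact one_le_pow₀ (le_max_left _ _)
  have hw0 : 0 ≤ w := by
    rw [hw]
    exact apply_nonneg v _
  rw [← hw, ← hG]
  have h0 : ∀ f ∈ Cd A x, v (t f) ^ N * w ≤ G := by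
    intro f hfC
    have h1 := hy f hfC M t v
    rw [map_mul, map_mul, map_pow, map_pow, ← hw, ← hG] at h1
    exact h1
  rcases hw0.eq_or_lt with h1 | h1
  · rw [← h1, zero_pow (by omega), zero_mul]
    exact pow_nonneg (zero_le_one.trans hG1) h
  rcases Nat.eq_zero_or_pos N with hN | hN
  · subst hN
    have h2 : (0 : E) ∈ Cd A x := by
      refine ⟨zero_mem _, fun z _ _ => ⟨0, fun i => ?_, ?_⟩⟩
      · rw [coeff_zero]
        exact isIntegral_zero
      · rw [map_zero, zero_mul]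
    have h3 := h0 0 h2
    rw [pow_zero, one_mul] at h3
    rw [pow_zero, mul_one]
    exact pow_le_pow_left₀ hw0 h3 h
  · obtain ⟨B, hB⟩ : ∃ B : ℝ, B = (G / w) ^ ((N : ℝ)⁻¹) := ⟨_, rfl⟩
    have hGw : 0 ≤ G / w := div_nonneg (zero_le_one.trans hG1) hw0
    have hB0 : 0 ≤ B := by
      rw [hB]
      exact Real.rpow_nonneg hGw _
    have hBN : B ^ N = G / w := by
      rw [hB]
      exact Real.rpow_inv_natCast_pow hGw hN.ne'
    have h2 : v (t f₀) ≤ B ^ h := by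
      refine hf B hB0 fun f hfC => ?_
      refine le_of_pow_le_pow_left₀ hN.ne' hB0 ?_
      rw [hBN, le_div_iff₀ h1]
      exact h0 f hfC
    have h3 : v (t f₀) ^ N ≤ (G / w) ^ h := by
      calc v (t f₀) ^ N ≤ (B ^ h) ^ N := pow_le_pow_left₀ (apply_nonneg v _) h2 N
        _ = (B ^ N) ^ h := by rw [← pow_mul, ← pow_mul, mul_comm]
        _ = (G / w) ^ h := by rw [hBN]
    calc w ^ h * v (t f₀) ^ N ≤ w ^ h * (G / w) ^ h :=
          mul_le_mul_of_nonneg_left h3 (pow_nonneg hw0 h)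
      _ = G ^ h := by
        rw [← mul_pow, mul_div_cancel₀ _ h1.ne']

theorem lat_LC {b m d : ℕ} {ι : ℝ} {x : E} (hx : RdA A b m d ι x) (a : E) (K N : ℕ) :
    Lat (ph m a K) (LC A x a K N) := by
  have hL := lat_ph m K hx.m1 a
  refine ⟨?_, fun y => ?_, hL.ind⟩
  · obtain ⟨f, hf, hf0⟩ := (cond_main hx).1
    have hinj : Function.Injective (LinearMap.mulLeft ℤ (f ^ N)) := by
      intro y z h
      exact mul_left_cancel₀ (pow_ne_zero N hf0) h
    refine Submodule.fg_of_fg_map_injective (LinearMap.mulLeft ℤ (f ^ N)) hinj ?_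
    refine hL.fg.of_le ?_
    rintro _ ⟨y, hy, rfl⟩
    exact hy f hf
  · obtain ⟨n, hn, h1⟩ := hL.full y
    exact ⟨n, hn, lk_le hx a K N h1⟩

private theorem ht_nn (a : E) : 0 ≤ absLogHeight₁ a := by
  unfold absLogHeight₁ absMulHeight₁
  split_ifs with hx
  · have : FiniteDimensional ℚ ℚ⟮a⟯ := adjoin.finiteDimensional hx
    have : NumberField ℚ⟮a⟯ := {}
    refine Real.log_nonneg ?_
    exact Real.one_le_rpow (Height.one_le_mulHeight₁ _) (by positivity)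
  · rw [Real.log_one]

private theorem ex_n {Λ Λ' : Submodule ℤ E} (hfg : Λ.FG)
    (hfull : ∀ y : E, ∃ n : ℕ, n ≠ 0 ∧ n • y ∈ Λ') : ∃ n : ℕ, n ≠ 0 ∧ ∀ y ∈ Λ, n • y ∈ Λ' := by
  classical
  obtain ⟨s, hs⟩ := hfg
  choose n hn0 hn using hfull
  refine ⟨∏ g ∈ s, n g, Finset.prod_ne_zero_iff.2 fun g _ => hn0 g, fun y hy => ?_⟩
  rw [← hs] at hy
  induction hy using Submodule.span_induction with
  | mem g hg =>
    have h1 : ∏ g ∈ s, n g = (∏ g ∈ s.erase g, n g) * n g := (Finset.prod_erase_mul s n hg).symm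
    rw [h1, mul_smul]
    exact Λ'.smul_of_tower_mem _ (hn g)
  | zero =>
    rw [smul_zero]
    exact zero_mem _
  | add y z _ _ h1 h2 =>
    rw [smul_add]
    exact add_mem h1 h2
  | smul c y _ h1 =>
    rw [smul_comm]
    exact Submodule.smul_mem _ c h1

theorem lc_crude {b m d : ℕ} {ι : ℝ} {x : E} (hx : RdA A b m d ι x) (a : E) (K N : ℕ) :
    ∃ c : ℝ, 0 < c ∧ ∀ U : Submodule ℚ E, c ≤ vl (ph m a K) (LC A x a K N) U := by
  have hL := lat_ph m K hx.m1 a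
  have hC := lat_LC hx a K N
  obtain ⟨n, hn0, hn⟩ := ex_n hC.fg hL.full
  have hn1 : (1 : ℝ) ≤ n := by exact_mod_cast Nat.one_le_iff_ne_zero.2 hn0
  have hm1 : (1 : ℝ) ≤ m := by exact_mod_cast hx.m1
  obtain ⟨e, he⟩ : ∃ e : ℕ, e = Module.finrank ℚ E := ⟨_, rfl⟩
  have hh : 0 ≤ absLogHeight₁ a := ht_nn a
  refine ⟨((n : ℝ) ^ (2 * e))⁻¹ * (((m : ℝ) ^ e)⁻¹ * Real.exp (-(2 * K * e * absLogHeight₁ a))),
    by positivity, fun U => ?_⟩
  obtain ⟨z, hz⟩ := hC.exists_zb U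
  have hr : Module.finrank ℚ U ≤ e := by
    rw [he]
    exact Submodule.finrank_le U
  have h1 : vl (ph m a K) (LK a K) U ≤ (n : ℝ) ^ (2 * Module.finrank ℚ U) *
      vl (ph m a K) (LC A x a K N) U := by
    have h2 : LinearIndependent ℚ (fun i => n • z i) := by
      have h3 : (fun i => n • z i) = fun i => (Units.mk0 (n : ℚ) (Nat.cast_ne_zero.2 hn0)) • z i := by
        funext i
        rw [Units.smul_mk0, Nat.cast_smul_eq_nsmul]
      rw [h3]
      exact hz.li.units_smul (fun _ => Units.mk0 (n : ℚ) (Nat.cast_ne_zero.2 hn0))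
    have h3 := hL.vl_le (fun i => n • z i) (Fintype.card_fin _) h2
      (fun i => ⟨hn _ (hz.memL i), U.smul_of_tower_mem n (hz.memU i)⟩)
    refine h3.trans (le_of_eq ?_)
    rw [hC.vl_eq hz]
    have h4 : (fun i => ph m a K (n • z i)) = fun i => (n : ℂ) • ph m a K (z i) := by
      funext i
      rw [map_nsmul, Nat.cast_smul_eq_nsmul]
    rw [h4, gd_smul, Complex.norm_natCast, Fintype.card_fin]
  have h2 := (crude m K hx.m1 a U).trans h1
  have hv := (hC.vl_pos U).le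
  obtain ⟨r, hrr⟩ : ∃ r : ℕ, r = Module.finrank ℚ U := ⟨_, rfl⟩
  rw [← hrr] at h2 hr
  have h3 : ((m : ℝ) ^ e)⁻¹ * Real.exp (-(2 * K * e * absLogHeight₁ a)) ≤
      ((m : ℝ) ^ r)⁻¹ * Real.exp (-(2 * K * r * absLogHeight₁ a)) := by
    refine mul_le_mul ?_ ?_ (Real.exp_nonneg _) (by positivity)
    · exact inv_anti₀ (by positivity) (pow_le_pow_right₀ hm1 hr)
    · refine Real.exp_le_exp.2 (neg_le_neg ?_)
      refine mul_le_mul_of_nonneg_right ?_ hh
      refine mul_le_mul_of_nonneg_left ?_ (by positivity)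
      exact_mod_cast hr
  have h4 : (n : ℝ) ^ (2 * r) ≤ (n : ℝ) ^ (2 * e) := pow_le_pow_right₀ hn1 (by omega)
  have h5 : (0 : ℝ) < (n : ℝ) ^ (2 * e) := by positivity
  rw [inv_mul_le_iff₀ h5]
  calc _ ≤ _ := h3
    _ ≤ (n : ℝ) ^ (2 * r) * vl (ph m a K) (LC A x a K N) U := h2
    _ ≤ _ := mul_le_mul_of_nonneg_right h4 hv

end Pool.Agent.H33.V6
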