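import Pool.Agent.H33.V6.Mi
import Pool.Agent.H33.V6.Ji
import Pool.Agent.H36.LI.MfE

/-!
# RadicalLehmer, version 6 (MP_187c26_nt): the main inequality, coordinates

MODEL: `mi_corE` in `Pool/Agent/H36/LI/MfE.lean` (copy and change): for the initial conditions `mi_stepC` with `N := T (T + 1)` and `jet_intC` in the places of `mi_stepU` and `jet_int` (`T (T + 1) log δ` is replaced by `T (T + 1) (2 ι + log b)`); the step for the primes (`mi_stepU`, `jet_extE`, `¬ q ∣ δ`) is unchanged. Imports may be sorried.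
-/

set_option autoImplicit false

open Polynomial NumberField IntermediateField

namespace Pool.Agent.H33.V6

open Pool.Agent.H36.LE Pool.Agent.H36.LF Pool.Agent.H36.LH Pool.Agent.H36.LI

private theorem mfc_alh {E : Type} [Field E] [CharZero E] (a : E) : 0 ≤ absLogHeight₁ a := by
  unfold absLogHeight₁ absMulHeight₁
  refine Real.log_nonneg ?_
  split_ifs with h
  · have h1 : FiniteDimensional ℚ ℚ⟮a⟯ := adjoin.finiteDimensional h
    have h2 : NumberField ℚ⟮a⟯ := {}
    exact Real.one_le_rpow (Height.one_le_mulHeight₁ (AdjoinSimple.gen ℚ a)) (by positivity)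
  · exact le_rfl

private theorem mfc_one {A E : Type} [Field A] [NumberField A] [Field E] [NumberField E]
    [Algebra A E] (σ : A →+* A) (x a : E) (n L γ : ℕ) (c : Fin n × Fin L → A) :
    bu σ x a n L γ (fun _ => 1) c = bzA σ x a n L γ c := by
  rw [bu_apply, bzA_apply]
  refine Finset.sum_congr rfl fun p _ => ?_
  rw [Rat.cast_one, one_mul]

private theorem mfc_wj (n L m g T i k : ℕ) (hn1 : 1 ≤ n) (hL : 1 ≤ L) (hg1 : 1 ≤ g)
    (hng : (n - 1) * g < m) (hik : i + k < T) (p : Fin n × Fin L) :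
    |((wj m g i k p : ℚ) : ℝ)| ≤ ((g * L : ℕ) : ℝ) ^ T := by
  have hm : (0 : ℝ) < m := by exact_mod_cast (Nat.zero_le _).trans_lt hng
  have h1 : ((wj m g i k p : ℚ) : ℝ) =
      (((g * (p.1 : ℕ) : ℕ) : ℝ) / m) ^ i * (Nat.choose (g * (p.2 : ℕ)) k : ℝ) := by
    unfold wj
    push_cast
    rfl
  have h2 : ((g * (p.1 : ℕ) : ℕ) : ℝ) / m ≤ 1 := by
    rw [div_le_one hm]
    have h3 : g * (p.1 : ℕ) ≤ m := by
      have h4 : (p.1 : ℕ) ≤ n - 1 := Nat.le_sub_one_of_lt p.1.2
      have h5 : g * (p.1 : ℕ) ≤ (n - 1) * g := by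
        rw [mul_comm]
        exact Nat.mul_le_mul_right g h4
      exact h5.trans hng.le
    exact_mod_cast h3
  have h3 : (0 : ℝ) ≤ ((g * (p.1 : ℕ) : ℕ) : ℝ) / m := by positivity
  have h4 : ((Nat.choose (g * (p.2 : ℕ)) k : ℕ) : ℝ) ≤ ((g * L : ℕ) : ℝ) ^ T := by
    have h5 : Nat.choose (g * (p.2 : ℕ)) k ≤ (g * L) ^ T := by
      calc Nat.choose (g * (p.2 : ℕ)) k ≤ (g * (p.2 : ℕ)) ^ k := Nat.choose_le_pow _ _
        _ ≤ (g * L) ^ k := Nat.pow_le_pow_left (Nat.mul_le_mul_left g p.2.2.le) k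
        _ ≤ (g * L) ^ T := Nat.pow_le_pow_right (Nat.mul_pos hg1 hL) (by omega)
    exact_mod_cast h5
  rw [h1, abs_of_nonneg (by positivity)]
  calc (((g * (p.1 : ℕ) : ℕ) : ℝ) / m) ^ i * (Nat.choose (g * (p.2 : ℕ)) k : ℝ) ≤
      1 * (Nat.choose (g * (p.2 : ℕ)) k : ℝ) :=
        mul_le_mul_of_nonneg_right (pow_le_one₀ h3 h2) (by positivity)
    _ ≤ ((g * L : ℕ) : ℝ) ^ T := by rw [one_mul]; exact h4

private theorem mfc_main {A E : Type} [Field A] [NumberField A] [Field E] [NumberField E] [Algebra A E]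
    {b m d : ℕ} {ι : ℝ} {x : E} (hx : RdA A b m d ι x) (hι : 0 ≤ ι) (δ : ℕ) (hδ : 1 ≤ δ)
    (hM : Mx A x δ) (σ : ℕ → (A →+* A)) (a : E) (ha : a ≠ 0) (n L g E₀ T₁ C T : ℕ) (hT : T = E₀ * T₁) (hn1 : 1 ≤ n)
    (hL : 1 ≤ L) (hg1 : 1 ≤ g) (hng : (n - 1) * g < m) (𝒬 : Finset ℕ)
    (h𝒬 : ∀ q ∈ 𝒬, q.Prime ∧ ¬ q ∣ δ ∧ FrobE A q E₀ (σ q) ∧ (n - 1) * (g * q) < m ∧
      (2 * Real.log b + ι + Real.log (L * d) / 2 + T * Real.log (g * L) +
        (T * (T + 1) : ℕ) * (2 * ι + Real.log b) + 1) +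
        C * (2 * Real.log b + ι + Real.log (L * d) / 2 + 1) ≤ (C * T₁ : ℕ) * Real.log q ∧
      (g * q * L : ℝ) * absLogHeight₁ a ≤ 1) :
    n * L - Module.finrank A (JT A x a m n L g T ⊓
        ⨅ q ∈ 𝒬, kA (σ q) x a n L (g * q) : Submodule A (Fin n × Fin L → A)) ≤
      (C + 1) * (n * L - Module.finrank A (JT A x a m n L g T)) := by
  classical
  rcases Finset.eq_empty_or_nonempty 𝒬 with h0 | ⟨q₀, hq₀⟩
  · subst h0
    have h1 : (JT A x a m n L g T ⊓
        ⨅ q ∈ (∅ : Finset ℕ), kA (σ q) x a n L (g * q) : Submodule A (Fin n × Fin L → A)) =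
        JT A x a m n L g T := by
      simp
    rw [h1]
    exact Nat.le_mul_of_pos_left _ (Nat.succ_pos C)
  · obtain ⟨W, hW⟩ : ∃ W : Finset ℕ → Submodule A (Fin n × Fin L → A), ∀ S, W S =
      JT A x a m n L g T ⊓ ⨅ q ∈ S, kA (σ q) x a n L (g * q) := ⟨_, fun S => rfl⟩
    obtain ⟨lam, hlam⟩ : ∃ lam : Submodule A (Fin n × Fin L → A) → ℝ, ∀ V, lam V =
      nv A (pcA A n L) (ZA A n L) V := ⟨_, fun V => rfl⟩
    obtain ⟨B, hB⟩ : ∃ B : ℝ, B = 2 * Real.log b + ι + Real.log (L * d) / 2 := ⟨_, rfl⟩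
    obtain ⟨e, he⟩ : ∃ e : ℕ, e = Module.finrank ℚ A := ⟨_, rfl⟩
    obtain ⟨C₁, hC₁⟩ : ∃ C₁ : ℝ, C₁ = B + T * Real.log (g * L) +
      (T * (T + 1) : ℕ) * (2 * ι + Real.log b) + 1 := ⟨_, rfl⟩
    have he0 : (0 : ℝ) < e := by
      rw [he]
      exact_mod_cast Module.finrank_pos (R := ℚ) (M := A)
    have hd : 1 ≤ d := by
      have hAE : Module.Finite A E := Module.Finite.of_restrictScalars_finite ℚ A E
      have h1 : 0 < Module.finrank A E := Module.finrank_pos
      rw [hx.fin] at h1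
      exact Nat.pos_of_mul_pos_left h1
    have hB0 : 0 ≤ B := by
      have h1 : 0 ≤ Real.log b := Real.log_nonneg (by exact_mod_cast hx.b1)
      have h2 : 0 ≤ Real.log (L * d) := Real.log_nonneg (by
        have : 1 ≤ L * d := Nat.mul_pos hL hd
        exact_mod_cast this)
      rw [hB]
      linarith
    have hgL : (0 : ℝ) ≤ Real.log (g * L) := Real.log_nonneg (by
      have : 1 ≤ g * L := Nat.mul_pos hg1 hL
      exact_mod_cast this)
    have hlδ : (0 : ℝ) ≤ 2 * ι + Real.log b := by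
      have h1 : 0 ≤ Real.log b := Real.log_nonneg (by exact_mod_cast hx.b1)
      linarith
    have hC1 : 0 < C₁ := by
      rw [hC₁]
      positivity
    have hh : 0 ≤ absLogHeight₁ a := mfc_alh a
    have hWe : W ∅ = JT A x a m n L g T := by
      rw [hW]
      simp
    have hlge : ∀ V, 0 ≤ lam V := fun V => by
      rw [hlam]
      exact nv_nonneg A n L V
    have hlt : lam ⊤ ≤ 0 := by
      rw [hlam]
      exact nv_top A n L
    have hft : Module.finrank A (⊤ : Submodule A (Fin n × Fin L → A)) = n * L := by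
      rw [finrank_top, Module.finrank_fintype_fun_eq_card, Fintype.card_prod, Fintype.card_fin,
        Fintype.card_fin]
    have hgh : ((g * (L - 1) : ℕ) : ℝ) * absLogHeight₁ a ≤ 1 := by
      obtain ⟨hq1, -, -, -, -, hq5⟩ := h𝒬 q₀ hq₀
      refine le_trans ?_ hq5
      refine mul_le_mul_of_nonneg_right ?_ hh
      have h3 : g * (L - 1) ≤ g * q₀ * L := by
        calc g * (L - 1) ≤ g * L := Nat.mul_le_mul_left g (Nat.sub_le L 1)
          _ = g * 1 * L := by rw [mul_one]
          _ ≤ g * q₀ * L := Nat.mul_le_mul_right L (Nat.mul_le_mul_left g hq1.one_lt.le)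
      exact_mod_cast h3
    -- the initial conditions, one after another
    obtain ⟨Z, hZ⟩ : ∃ Z : ℕ → ℕ → Submodule A (Fin n × Fin L → A), ∀ i k, Z i k =
      ⨅ (p : ℕ × ℕ) (_ : p.1 + p.2 < T ∧ (p.1 < i ∨ (p.1 = i ∧ p.2 < k))),
        kU (RingHom.id A) x a n L g (wj m g p.1 p.2) := ⟨_, fun i k => rfl⟩
    have hZm : ∀ i k c, c ∈ Z i k ↔ ∀ i' k', i' + k' < T → (i' < i ∨ (i' = i ∧ k' < k)) →
        c ∈ kU (RingHom.id A) x a n L g (wj m g i' k') := by
      intro i k c
      rw [hZ, Submodule.mem_iInf]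
      constructor
      · intro h i' k' h1 h2
        have h3 := h (i', k')
        rw [Submodule.mem_iInf] at h3
        exact h3 ⟨h1, h2⟩
      · intro h p
        rw [Submodule.mem_iInf]
        exact fun h1 => h p.1 p.2 h1.1 h1.2
    have hZ0 : Z 0 0 = ⊤ := by
      rw [eq_top_iff]
      intro c _
      rw [hZm]
      intro i' k' _ h2
      omega
    have hZT : Z T 0 = W ∅ := by
      rw [hWe]
      ext c
      rw [hZm]
      constructor
      · intro h i k hik
        exact h i k hik (Or.inl (by omega))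
      · intro h i k hik _
        exact h i k hik
    have hZs : ∀ i, Z (i + 1) 0 = Z i T := by
      intro i
      ext c
      rw [hZm, hZm]
      constructor
      · intro h i' k' h1 h2
        exact h i' k' h1 (by omega)
      · intro h i' k' h1 h2
        exact h i' k' h1 (by omega)
    have hZk : ∀ i k, i + k < T → Z i (k + 1) =
        Z i k ⊓ kU (RingHom.id A) x a n L g (wj m g i k) := by
      intro i k hik
      ext c
      rw [Submodule.mem_inf, hZm, hZm]
      constructor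
      · intro h
        exact ⟨fun i' k' h1 h2 => h i' k' h1 (by omega), h i k hik (by omega)⟩
      · rintro ⟨h, h'⟩ i' k' h1 h2
        by_cases h3 : i' = i ∧ k' = k
        · rw [h3.1, h3.2]
          exact h'
        · exact h i' k' h1 (by omega)
    have hZk' : ∀ i k, ¬ i + k < T → Z i (k + 1) = Z i k := by
      intro i k hik
      ext c
      rw [hZm, hZm]
      constructor
      · intro h i' k' h1 h2
        exact h i' k' h1 (by omega)
      · intro h i' k' h1 h2
        exact h i' k' h1 (by omega)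
    have hs1 : ∀ i k, lam (Z i 0) ≤ e * ((n * L : ℕ) - Module.finrank A (Z i 0)) * C₁ →
        lam (Z i k) ≤ e * ((n * L : ℕ) - Module.finrank A (Z i k)) * C₁ := by
      intro i k h0
      induction k with
      | zero => exact h0
      | succ k ih =>
        by_cases hik : i + k < T
        · have hgL1 : (1 : ℝ) ≤ ((g * L : ℕ) : ℝ) := by
            have : 1 ≤ g * L := Nat.mul_pos hg1 hL
            exact_mod_cast this
          have h1 := mi_stepC hx (RingHom.id A) a n L g (g * (L - 1)) (T * (T + 1))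
            (wj m g i k) (((g * L : ℕ) : ℝ) ^ T) hn1 hL hg1 hng le_rfl (one_le_pow₀ hgL1)
            (mfc_wj n L m g T i k hn1 hL hg1 hng hik) (Z i k)
            (fun c hc hcZ => jet_intC hx a ha n L g T i k hik c hcZ
              (fun i' k' h2 h3 => (hZm i k c).1 hc i' k' h3 (Or.inl h2)))
          rw [← hlam, ← hlam, ← hZk i k hik, ← hB, ← he, Real.log_pow] at h1
          have h2 : Module.finrank A (Z i (k + 1)) ≤ Module.finrank A (Z i k) := by
            rw [hZk i k hik]
            exact Submodule.finrank_mono inf_le_left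
          rw [Nat.cast_sub h2] at h1
          have h3 : (0 : ℝ) ≤ (Module.finrank A (Z i k) : ℝ) - Module.finrank A (Z i (k + 1)) :=
            sub_nonneg.2 (by exact_mod_cast h2)
          have h4 : B + T * Real.log ((g * L : ℕ) : ℝ) +
              ((g * (L - 1) : ℕ) : ℝ) * absLogHeight₁ a +
              (T * (T + 1) : ℕ) * (2 * ι + Real.log b) ≤ C₁ := by
            rw [hC₁, Nat.cast_mul g L]
            linarith
          have h5 := mul_le_mul_of_nonneg_left h4 (mul_nonneg he0.le h3)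
          linarith
        · rw [hZk' i k hik]
          exact ih
    have hs0 : ∀ i, lam (Z i 0) ≤ e * ((n * L : ℕ) - Module.finrank A (Z i 0)) * C₁ := by
      intro i
      induction i with
      | zero =>
        rw [hZ0, hft, sub_self, mul_zero, zero_mul]
        exact hlt
      | succ i ih =>
        rw [hZs]
        exact hs1 i T ih
    have hs2 := hs0 T
    rw [hZT] at hs2
    have hle : Module.finrank A (W ∅) ≤ n * L := by
      rw [← hft, finrank_top]
      exact Submodule.finrank_le _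
    obtain ⟨r₀, hr₀⟩ : ∃ r₀ : ℕ, r₀ = n * L - Module.finrank A (W ∅) := ⟨_, rfl⟩
    have hs3 : lam (W ∅) ≤ e * r₀ * C₁ := by
      rw [hr₀, Nat.cast_sub hle]
      exact hs2
    -- the primes
    have hstep : ∀ S : Finset ℕ, S ⊆ 𝒬 → C * lam (W S) ≤ C * (e * r₀ * C₁) -
        e * ((Module.finrank A (W ∅) : ℝ) - Module.finrank A (W S)) * C₁ := by
      intro S
      induction S using Finset.induction_on with
      | empty =>
        intro _
        rw [sub_self, mul_zero, zero_mul, sub_zero]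
        exact mul_le_mul_of_nonneg_left hs3 (Nat.cast_nonneg C)
      | insert q S hq ih =>
        intro hS
        have ih1 := ih ((Finset.subset_insert q S).trans hS)
        obtain ⟨hq1, hqδ, hq2, hq3, hq4, hq5⟩ := h𝒬 q (hS (Finset.mem_insert_self q S))
        have hWi : W (insert q S) = W S ⊓ kA (σ q) x a n L (g * q) := by
          rw [hW, hW, Finset.iInf_insert, inf_assoc, inf_comm (kA (σ q) x a n L (g * q))]
        have h1 := mi_stepU hx (σ q) a n L (g * q) (g * q * (L - 1)) 1 (q ^ T₁)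
          (fun _ => 1) 1 hn1 hL (Nat.mul_pos hg1 hq1.pos) hq3 le_rfl le_rfl
          (Nat.one_le_pow _ _ hq1.pos) le_rfl (fun _ => by simp) (W S)
          (fun c hc hcZ => by
            obtain ⟨y, hy, hy2⟩ := jet_extE hx δ hδ hM a ha n L g T₁ q E₀ hq1 hqδ (σ q) hq2 c hcZ
              (by rw [hW] at hc; rw [← hT]; exact hc.1)
            exact ⟨y, hy, by rw [one_smul, mfc_one, hy2]⟩)
        rw [kU_one, ← hlam, ← hlam, ← hWi, ← hB, ← he, Real.log_one, Nat.cast_one, Real.log_one,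
          Nat.cast_pow, Real.log_pow] at h1
        rw [← hB, ← hC₁] at hq4
        have h2 : Module.finrank A (W (insert q S)) ≤ Module.finrank A (W S) := by
          rw [hWi]
          exact Submodule.finrank_mono inf_le_left
        rw [Nat.cast_sub h2] at h1
        have h3 : (0 : ℝ) ≤ (Module.finrank A (W S) : ℝ) - Module.finrank A (W (insert q S)) :=
          sub_nonneg.2 (by exact_mod_cast h2)
        have h6 : ((g * q * (L - 1) : ℕ) : ℝ) * absLogHeight₁ a ≤ 1 := by
          refine le_trans ?_ hq5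
          refine mul_le_mul_of_nonneg_right ?_ hh
          have h7 : g * q * (L - 1) ≤ g * q * L := Nat.mul_le_mul_left _ (Nat.sub_le L 1)
          exact_mod_cast h7
        have h4 : C * (B + 0 + ((g * q * (L - 1) : ℕ) : ℝ) * absLogHeight₁ a + 0 -
            T₁ * Real.log q) ≤ -C₁ := by
          have h8 : (C : ℝ) * (((g * q * (L - 1) : ℕ) : ℝ) * absLogHeight₁ a) ≤ C * 1 :=
            mul_le_mul_of_nonneg_left h6 (Nat.cast_nonneg C)
          rw [Nat.cast_mul C T₁] at hq4
          linarith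
        have h5 := mul_le_mul_of_nonneg_left h4 (mul_nonneg he0.le h3)
        have h9 := mul_le_mul_of_nonneg_left h1 (Nat.cast_nonneg (α := ℝ) C)
        linarith
    have hfin := hstep 𝒬 subset_rfl
    have h1 := mul_nonneg (Nat.cast_nonneg (α := ℝ) C) (hlge (W 𝒬))
    have h2 : ((Module.finrank A (W ∅) : ℝ) - Module.finrank A (W 𝒬)) * (e * C₁) ≤
        (C * r₀) * (e * C₁) := by
      linarith
    have h3 := le_of_mul_le_mul_right h2 (mul_pos he0 hC1)
    have h4 : Module.finrank A (W ∅) ≤ C * r₀ + Module.finrank A (W 𝒬) := by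
      have h5 : (Module.finrank A (W ∅) : ℝ) ≤ C * r₀ + Module.finrank A (W 𝒬) := by linarith
      exact_mod_cast h5
    rw [← hW, ← hWe, ← hr₀, Nat.add_mul, one_mul]
    omega

theorem mi_corC {A E : Type} [Field A] [NumberField A] [Field E] [NumberField E] [Algebra A E]
    {b m d : ℕ} {ι : ℝ} {x : E} (hx : RdA A b m d ι x) (hι : 0 ≤ ι) (δ : ℕ) (hδ : 1 ≤ δ)
    (hM : Mx A x δ) (σ : ℕ → (A →+* A)) (a : E) (ha : a ≠ 0) (n L g E₀ T₁ C : ℕ) (hn1 : 1 ≤ n)
    (hL : 1 ≤ L) (hg1 : 1 ≤ g) (hng : (n - 1) * g < m) (𝒬 : Finset ℕ)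
    (h𝒬 : ∀ q ∈ 𝒬, q.Prime ∧ ¬ q ∣ δ ∧ FrobE A q E₀ (σ q) ∧ (n - 1) * (g * q) < m ∧
      (2 * Real.log b + ι + Real.log (L * d) / 2 + (E₀ * T₁ : ℕ) * Real.log (g * L) +
        (E₀ * T₁ * (E₀ * T₁ + 1) : ℕ) * (2 * ι + Real.log b) + 1) +
        C * (2 * Real.log b + ι + Real.log (L * d) / 2 + 1) ≤ (C * T₁ : ℕ) * Real.log q ∧
      (g * q * L : ℝ) * absLogHeight₁ a ≤ 1) :
    n * L - Module.finrank A (JT A x a m n L g (E₀ * T₁) ⊓
        ⨅ q ∈ 𝒬, kA (σ q) x a n L (g * q) : Submodule A (Fin n × Fin L → A)) ≤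
      (C + 1) * (n * L - Module.finrank A (JT A x a m n L g (E₀ * T₁))) := by
  exact mfc_main hx hι δ hδ hM σ a ha n L g E₀ T₁ C (E₀ * T₁) rfl hn1 hL hg1 hng 𝒬 h𝒬

end Pool.Agent.H33.V6
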