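import Pool.Agent.H33.V6.Fe
import Pool.Agent.H33.TR.RadG
import Pool.Agent.H36.RL.PtE

/-!
# RadicalLehmer, version 6 (MP_187c26_nt): the bound for points over families of fields

MODEL: `ptsE` in `Pool/Agent/H36/RL/PtE.lean` and `ptsG` in `Pool/Agent/H33/TR/RadG.lean` (`InRadG b P ι L`: radical fields). Imports may be sorried (`thmL_rad`).
-/

set_option autoImplicit false
set_option linter.unusedSectionVars false

open NumberField IntermediateField

namespace Pool.Agent.H33.V6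

open Pool.Agent.H72.PB Pool.Agent.H11.TH Pool.Agent.H36.LH Pool.Agent.H33.TR

private theorem pair_eq {Ω : Type} (ξ x : Ω) : ({ξ} ∪ Set.range ![x] : Set Ω) = {ξ, x} := by
  ext z
  constructor
  · rintro (h | ⟨i, rfl⟩)
    · exact Or.inl h
    · obtain rfl : i = 0 := Subsingleton.elim _ _
      exact Or.inr rfl
  · rintro (h | h)
    · exact Or.inl h
    · exact Or.inr ⟨0, h.symm⟩

theorem ptsV (b : ℕ) (hb : 2 ≤ b) (ι : ℝ) (hι : 0 ≤ ι) : ∃ c : ℝ, 0 < c ∧
    ∀ (K Ω : Type) [Field K] [NumberField K] [Field Ω] [CharZero Ω] [IsAlgClosed Ω] [Algebra K Ω]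
      [Algebra.IsAlgebraic K Ω] (P : ℕ) (L : IntermediateField K Ω), InRadG b P ι L →
      ∀ (a : Ω) (N : ℕ), a ≠ 0 → (∀ k : ℕ, 1 ≤ k → ∀ j : ℤ, a ^ k ≠ (b : Ω) ^ j) →
      Module.finrank ℚ K * (minpoly L a).natDegree * P ≤ N →
      c ≤ (N : ℝ) * (1 + Real.log N) ^ 300 * absLogHeight₁ a := by
  classical
  obtain ⟨c, hc, h⟩ := thmL_rad b hb ι hι
  refine ⟨c, hc, ?_⟩
  intro K Ω _ _ _ _ _ _ _ P L hL a N' ha0 ha hN'
  have : Algebra.IsAlgebraic ℚ Ω := Algebra.IsAlgebraic.trans ℚ K Ω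
  have haQ : IsIntegral ℚ a := Algebra.IsIntegral.isIntegral a
  have haL : IsIntegral L a := (Algebra.IsIntegral.isIntegral (R := K) a).tower_top
  obtain ⟨m, n, ξ, x, y, hm, hn, hcop, hξ, hx, hdeg, hidx, ⟨p, hp0, hpP, hpy⟩, hmem⟩ :=
    hL ((minpoly L a).coeffs.image fun z : L => (z : Ω)) (by
      intro s hs
      rw [Finset.mem_image] at hs
      obtain ⟨z, -, rfl⟩ := hs
      exact z.2)
  have hhn : 0 ≤ absLogHeight₁ a := ht_nonneg a
  have hfin : FiniteDimensional ℚ (Pool.Agent.H11.BE.fld ξ ![x]) := by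
    unfold Pool.Agent.H11.BE.fld
    have hf : Finite (({ξ} ∪ Set.range ![x] : Set Ω)) :=
      ((Set.finite_singleton ξ).union (Set.finite_range ![x])).to_subtype
    refine IntermediateField.finiteDimensional_adjoin (S := {ξ} ∪ Set.range ![x]) ?_
    intro y _
    exact Algebra.IsIntegral.isIntegral y
  set N : IntermediateField K Ω := IntermediateField.adjoin K ({ξ, x} : Set Ω) with hN
  have hyN : IsIntegral N y := (Algebra.IsIntegral.isIntegral (R := K) y).tower_top
  have haN : IsIntegral N a := (Algebra.IsIntegral.isIntegral (R := K) a).tower_top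
  have hle : ∀ s ∈ IntermediateField.adjoin K ({ξ, x, y} : Set Ω), s ∈ N⟮y⟯ := by
    intro s hs
    have h1 : IntermediateField.adjoin K ({ξ, x, y} : Set Ω) ≤ N⟮y⟯.restrictScalars K := by
      rw [IntermediateField.adjoin_le_iff]
      rintro z (hz | hz | hz)
      · exact N⟮y⟯.algebraMap_mem ⟨z, subset_adjoin K _ (Or.inl hz)⟩
      · exact N⟮y⟯.algebraMap_mem ⟨z, subset_adjoin K _ (Or.inr hz)⟩
      · rw [Set.mem_singleton_iff] at hz
        rw [hz]
        exact mem_adjoin_simple_self N y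
    exact h1 hs
  have h1 : (minpoly N⟮y⟯ a).natDegree ≤ (minpoly L a).natDegree := by
    refine Pool.Agent.H11.BE.deg_le_range L N⟮y⟯ Ω a haL fun i => ?_
    by_cases h0 : (minpoly L a).coeff i = 0
    · exact ⟨0, by rw [h0, map_zero, map_zero]⟩
    · exact ⟨⟨_, hle _ (hmem _ (Finset.mem_image_of_mem _ (Polynomial.coeff_mem_coeffs h0)))⟩, rfl⟩
  have h2 : (minpoly N y).natDegree ≤ P :=
    (Polynomial.natDegree_le_natDegree (minpoly.degree_le_of_ne_zero N y hp0 hpy)).trans hpP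
  have h3 := Pool.Agent.H11.BE.deg_mul_le N Ω y a hyN haN
  have hlev := Pool.Agent.H11.BE.deg_lev K Ω ξ ![x] hfin a
  have hNN : (minpoly (IntermediateField.adjoin K ({ξ} ∪ Set.range ![x])) a).natDegree =
      (minpoly N a).natDegree := by
    rw [hN, pair_eq]
  rw [hNN] at hlev
  have hd : Pool.Agent.H11.BE.dgr ξ ![x] a ≤ N' := by
    refine le_trans (hlev.trans ?_) hN'
    rw [mul_assoc]
    refine Nat.mul_le_mul_left _ ?_
    rw [mul_comm (minpoly L a).natDegree]
    exact h3.trans (Nat.mul_le_mul h2 h1)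
  have hQQ : Pool.Agent.H11.BE.dgr ξ ![x] a =
      (minpoly (IntermediateField.adjoin ℚ ({ξ, x} : Set Ω)) a).natDegree := by
    unfold Pool.Agent.H11.BE.dgr Pool.Agent.H11.BE.fld
    rw [pair_eq]
  rw [hQQ] at hd
  exact h Ω m n N' ξ x a hm hn hcop hξ hx hdeg hidx haQ hd ha0 ha

end Pool.Agent.H33.V6
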